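import Mathlib

set_option autoImplicit false

/-!
# Project GC: definitions and the statements of the lemmas

The number of the `n` missed by random shifts is, in the critical regime, a mixed Poisson variable
whose mixing variable is the total mass of a Gaussian multiplicative chaos: the Gaussian field on
the residue classes modulo `W` (`W` = product of the primes up to `w`) with covariance
`S_W(c - c') - 1`, `S_W` = the truncated singular series of the pairs of primes.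
-/

namespace Pool.Agent.Q145.GC

open Finset MeasureTheory ProbabilityTheory Filter Topology

open scoped Classical

instance neZero_primorial (w : ℕ) : NeZero (primorial w) := ⟨(primorial_pos w).ne'⟩

/-- `W / φ(W)` -/
noncomputable def bta (W : ℕ) : ℝ := (W : ℝ) / (Nat.totient W : ℝ)

/-- indicator of the units of `ZMod W` -/
noncomputable def un {W : ℕ} (c : ZMod W) : ℝ := if IsUnit c then 1 else 0

/-- The covariance `β² P(c + t, c' + t both units) - 1`, `t` uniform modulo `W`, `β = W / φ(W)`. -/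
noncomputable def cov (W : ℕ) [NeZero W] : Matrix (ZMod W) (ZMod W) ℝ := fun c c' =>
  bta W ^ 2 * (∑ t : ZMod W, un (c + t) * un (c' + t)) / W - 1

/-- the total mass at level `W` -/
noncomputable def mass (ρ : ℝ) (W : ℕ) [NeZero W] (g : EuclideanSpace ℝ (ZMod W)) : ℝ :=
  (∑ c : ZMod W, Real.exp (√ρ * g c - ρ * (bta W - 1) / 2)) / W

/-- the law of the total mass at level `W` -/
noncomputable def chaos (ρ : ℝ) (W : ℕ) [NeZero W] : Measure ℝ :=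
  (multivariateGaussian (0 : EuclideanSpace ℝ (ZMod W)) (cov W)).map (mass ρ W)

/-- the second moment of the total mass at level `W` -/
noncomputable def vv (ρ : ℝ) (W : ℕ) [NeZero W] : ℝ := (∑ h : ZMod W, Real.exp (ρ * cov W 0 h)) / W

/-! ## Gaussian part -/

/-- G1: `cov W` is a covariance matrix (of the variables `β un (c + t)`, of mean one). -/
def S_Psd : Prop := ∀ (W : ℕ) [NeZero W], (cov W).PosSemidef

/-- G2: exponential moments. -/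
def S_Exp : Prop := ∀ (ι : Type) [Fintype ι] [DecidableEq ι] (S : Matrix ι ι ℝ), S.PosSemidef → ∀ a : ι → ℝ,
  Integrable (fun g : EuclideanSpace ℝ ι => Real.exp (∑ i, a i * g i)) (multivariateGaussian 0 S) ∧
  ∫ g : EuclideanSpace ℝ ι, Real.exp (∑ i, a i * g i) ∂(multivariateGaussian 0 S) =
    Real.exp ((∑ i, ∑ j, a i * a j * S i j) / 2)

/-- G3: two levels. -/
def S_Two : Prop := ∀ ρ : ℝ, 0 ≤ ρ → ∀ w w' : ℕ, w ≤ w' →
  vv ρ (primorial w) ≤ vv ρ (primorial w') ∧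
  ∀ (f : ℝ → ℝ) (L : ℝ), (∀ x y, |f x - f y| ≤ L * |x - y|) →
    |∫ x, f x ∂(chaos ρ (primorial w')) - ∫ x, f x ∂(chaos ρ (primorial w))| ≤
      L * √(vv ρ (primorial w') - vv ρ (primorial w))

/-- N4: exponential moments of `h / φ(h)` -/
def S_Em : Prop := ∀ B : ℝ, ∃ C : ℝ, ∀ H : ℕ,
  ∑ h ∈ Icc 1 H, Real.exp (B * ((h : ℝ) / Nat.totient h)) ≤ C * H

/-- G4: the second moments are bounded. -/
def S_Bdd : Prop := ∀ ρ : ℝ, 0 ≤ ρ → ∃ C : ℝ, ∀ w : ℕ, vv ρ (primorial w) ≤ C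

/-- G5: the limit law. -/
def S_Lim : Prop := ∀ ρ : ℝ, 0 ≤ ρ → ∃ (μ : Measure ℝ) (v : ℝ), IsProbabilityMeasure μ ∧ μ (Set.Iio 0) = 0 ∧
  Integrable (fun x => x) μ ∧ ∫ x, x ∂μ = 1 ∧ Integrable (fun x => x ^ 2) μ ∧ ∫ x, x ^ 2 ∂μ = v ∧
  (0 < ρ → 1 < v) ∧ Tendsto (fun w => vv ρ (primorial w)) atTop (𝓝 v) ∧
  ∀ f : ℝ → ℝ, Continuous f → (∃ C, ∀ x, |f x| ≤ C) →
    Tendsto (fun w => ∫ x, f x ∂(chaos ρ (primorial w))) atTop (𝓝 (∫ x, f x ∂μ))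

/-! ## Central limit theorem -/

/-- the normalized counts -/
noncomputable def xv (W : ℕ) [NeZero W] {K : ℕ} (t : Fin K → ZMod W) : EuclideanSpace ℝ (ZMod W) :=
  WithLp.toLp 2 (fun c => -(bta W / √(K : ℝ)) * ∑ i, (un (c + t i) - 1 / bta W))

/-- C1: central limit theorem for the vector of the counts, the `t i` independent with law `p`
close to the uniform law. -/
def S_Clt : Prop := ∀ (W : ℕ) [NeZero W] (f : EuclideanSpace ℝ (ZMod W) → ℝ), Continuous f →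
  (∃ C, ∀ x, |f x| ≤ C) → ∀ ε : ℝ, 0 < ε → ∃ η : ℝ, 0 < η ∧ ∀ (K : ℕ) (p : ZMod W → ℝ), 1 / η ≤ K →
  (∀ t, 0 ≤ p t) → ∑ t, p t = 1 → (∀ t, √(K : ℝ) * |p t - 1 / W| ≤ η) →
  |∑ t : Fin K → ZMod W, (∏ i, p (t i)) * f (xv W t) - ∫ x, f x ∂(multivariateGaussian 0 (cov W))| ≤ ε

/-- the conditional mean number of the missed points -/
noncomputable def cm {α : Type} {W : ℕ} (V : Finset α) (u : α → ZMod W → ℝ) {K : ℕ} (t : Fin K → ZMod W) : ℝ :=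
  ∑ n ∈ V, ∏ i, (1 - u n (t i))

/-- C2: the law of the conditional mean. -/
def S_Asy : Prop := ∀ (W : ℕ) [NeZero W] (ρ lam G : ℝ), 0 ≤ ρ → 0 < lam → ∀ g : ℝ → ℝ,
  (∀ x, 0 ≤ x → |g x| ≤ G) → (∀ x y, 0 ≤ x → 0 ≤ y → |g x - g y| ≤ G * |x - y|) →
  ∀ ε : ℝ, 0 < ε → ∃ η : ℝ, 0 < η ∧ ∀ (K : ℕ) (p : ZMod W → ℝ) (V : Finset ℕ) (θ : ℕ → ℝ) (u : ℕ → ZMod W → ℝ),
  1 / η ≤ K → (∀ t, 0 ≤ p t) → ∑ t, p t = 1 → (∀ t, √(K : ℝ) * |p t - 1 / W| ≤ η) →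
  (∀ n ∈ V, ∀ t, 0 ≤ u n t ∧ u n t ≤ 1) → (∀ n ∈ V, 0 ≤ θ n ∧ θ n ≤ 1) →
  (∀ n ∈ V, ∀ t, K * |u n t - θ n * bta W * un ((n : ZMod W) + t)| ≤ η) →
  (∀ n ∈ V, |θ n * √(K : ℝ) - √ρ| ≤ η) →
  (∀ c : ZMod W, |∑ n ∈ V.filter (fun n : ℕ => (n : ZMod W) = c), (1 - θ n) ^ K - lam / W| ≤ η) →
  |∑ t : Fin K → ZMod W, (∏ i, p (t i)) * g (cm V u t) - ∫ x, g (lam * x) ∂(chaos ρ W)| ≤ ε

/-! ## Number theory -/

/-- proportion of the shifts `s ≤ Y` in the class `t` modulo `W` with property `P`, among all of the class -/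
noncomputable def dn (Y W : ℕ) (t : ZMod W) (P : ℕ → Prop) : ℝ :=
  (((Icc 1 Y).filter (fun s : ℕ => (s : ZMod W) = t ∧ P s)).card : ℝ) /
    (((Icc 1 Y).filter (fun s : ℕ => (s : ZMod W) = t)).card : ℝ)

/-- density of the primes among `n + 1, ..., n + Y` -/
noncomputable def th (Y n : ℕ) : ℝ := (((Icc 1 Y).filter (fun s => (n + s).Prime)).card : ℝ) / Y

/-- the factor of the singular series of the pair `0, h` at the primes `w < p ≤ z` -/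
noncomputable def sg (w z h : ℕ) : ℝ :=
  ∏ p ∈ (Ioc w z).filter Nat.Prime, (if p ∣ h then (p : ℝ) / (p - 1) else (p : ℝ) * (p - 2) / (p - 1) ^ 2)

/-- N1: degrees -/
def S_Th : Prop := ∃ (C : ℝ) (Y₀ : ℕ), ∀ Y : ℕ, Y₀ ≤ Y → ∀ n : ℕ, 1 ≤ n → n ≤ Y →
  |th Y n - 1 / Real.log Y| ≤ C / Real.log Y ^ 2

/-- N2: degrees in the classes modulo `W` -/
def S_Cl : Prop := ∀ (W A : ℕ) [NeZero W], ∃ Y₀ : ℕ, ∀ Y : ℕ, Y₀ ≤ Y → ∀ n : ℕ, 1 ≤ n → n ≤ Y → ∀ t : ZMod W,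
  |dn Y W t (fun s => (n + s).Prime) - th Y n * bta W * un ((n : ZMod W) + t)| ≤ 1 / Real.log Y ^ A

/-- N3: the formula of Hardy and Littlewood in the classes modulo `W`, for almost all pairs -/
def S_Hl : Prop := ∀ (w A : ℕ) (ε : ℝ), 0 < ε → ∃ (Y₀ : ℕ) (z : ℕ → ℕ), (∀ Y, w ≤ z Y) ∧ ∀ Y : ℕ, Y₀ ≤ Y →
  (((Icc 1 Y ×ˢ Icc 1 Y).filter (fun q : ℕ × ℕ => q.1 ≠ q.2 ∧ ¬ ∀ t : ZMod (primorial w),
    |Real.log Y ^ 2 * dn Y (primorial w) t (fun s => (q.1 + s).Prime ∧ (q.2 + s).Prime) -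
      bta (primorial w) ^ 2 * un ((q.1 : ZMod (primorial w)) + t) * un ((q.2 : ZMod (primorial w)) + t) *
        sg w (z Y) (Nat.dist q.1 q.2)| ≤ ε)).card : ℝ) ≤ (Y : ℝ) ^ 2 / Real.log Y ^ A

/-- N5: the singular series is nearly periodic -/
def S_Per : Prop := ∀ ε : ℝ, 0 < ε → ∃ w₀ : ℕ, ∀ w z H : ℕ, w₀ ≤ w → w ≤ z →
  ∑ h ∈ Icc 1 H, ((h : ℝ) / Nat.totient h) * |sg w z h - 1| ≤ ε * H

/-- N6: the mean number of the missed points for explicit numbers of shifts -/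
def S_Mean : Prop := ∀ (ρ u : ℝ) (X Y k : ℕ → ℕ), 0 ≤ ρ → Tendsto X atTop atTop → (∀ i, X i ≤ Y i) →
  Tendsto (fun i => Real.log (X i) / Real.log (Y i)) atTop (𝓝 ρ) →
  Tendsto (fun i => ((k i : ℝ) - Real.log (X i) * Real.log (Y i)) / Real.log (Y i)) atTop (𝓝 u) →
  Tendsto (fun i => (X i : ℝ) * ((∑ n ∈ Icc 1 (Y i), (1 - th (Y i) n) ^ (k i)) / Y i)) atTop
    (𝓝 (Real.exp (-u) * ∫ x in (0 : ℝ)..1, Real.exp (ρ * ((x + 1) * Real.log (x + 1) - x * Real.log x - 3 / 2))))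

end Pool.Agent.Q145.GC
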