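import Pool.Agent.Q145.GC.Fin

set_option autoImplicit false
set_option maxHeartbeats 4000000

/-! # The law given the level `w`, for sets of positive density -/

namespace Pool.Agent.Q145.GC

open Finset MeasureTheory ProbabilityTheory Filter Topology
open Pool.Agent.Q145.RA (seqs card_seqs surv card_filter_inst card_restrict missed_surv)
open Pool.Agent.Q145.GP (poi freq poi_nonneg)

open scoped Classical

theorem level_dense (hTh : S_Th) (hCl : S_Cl) (hAsy : S_Asy) (hPar : S_Par)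
    (hUex : S_Uex) (hUtwo : S_Utwo) (hUthr : S_Uthr) (hQd : S_Qd)
    (ρ lam lam' : ℝ) (hρ : 0 ≤ ρ) (hlam : 0 < lam) (hlam' : 0 < lam') (X Y k : ℕ → ℕ) (hP : Par ρ lam' X Y k) (j : ℕ)
    (V : ℕ → Finset ℕ) (hVY : ∀ i, V i ⊆ Icc 1 (Y i)) (hVX : ∀ i, (V i).card = X i) (δ : ℝ) (hδ : 0 < δ) (hδX : ∀ i, δ * Y i ≤ X i)
    (hcs : ∀ (W : ℕ) [NeZero W] (c : ZMod W), Tendsto (fun i => ∑ n ∈ (V i).filter (fun n : ℕ => (n : ZMod W) = c),
      (1 - th (Y i) n) ^ (k i)) atTop (𝓝 (lam / W)))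
    (ε : ℝ) (hε : 0 < ε) : ∃ w₀ : ℕ, ∀ w : ℕ, w₀ ≤ w → ∀ᶠ i in atTop,
    |freq (Icc 1 (Y i)) (V i) Rp (k i) j - ∫ x, poi |lam * x| j ∂(chaos ρ (primorial w))| ≤ ε := by
  obtain ⟨hk2, hkt, C, hC1, hCe⟩ := hPar ρ lam' X Y k hρ hlam' hP
  have hYt : Tendsto Y atTop atTop := tendsto_atTop_mono hP.le hP.top
  have hYr : Tendsto (fun i => (Y i : ℝ)) atTop atTop := (tendsto_natCast_atTop_atTop (R := ℝ)).comp hYt
  have hXr : Tendsto (fun i => (X i : ℝ)) atTop atTop := (tendsto_natCast_atTop_atTop (R := ℝ)).comp hP.top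
  have hL : Tendsto (fun i => Real.log (Y i : ℝ)) atTop atTop := Real.tendsto_log_atTop.comp hYr
  have hkr : Tendsto (fun i => (k i : ℝ)) atTop atTop := (tendsto_natCast_atTop_atTop (R := ℝ)).comp hkt
  -- ρ ≤ 1
  have hρ1 : ρ ≤ 1 := by
    apply le_of_tendsto hP.ratio
    filter_upwards [hL.eventually_gt_atTop 0, hP.top.eventually_ge_atTop 1] with i h1 h2
    rw [div_le_one h1]
    apply Real.log_le_log (by exact_mod_cast h2)
    exact_mod_cast hP.le i
  -- the engine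
  obtain ⟨B, hB, hE1⟩ := engine (α := ℕ) (β := ℕ) C C (by linarith) hC1 j (ε / 2) (by positivity)
  obtain ⟨CE₀, hCE₀⟩ := hUex B hB
  set CE : ℝ := max CE₀ 0 / δ ^ 2 + 1 with hCE
  have hCE0 : 0 ≤ CE := by positivity
  obtain ⟨η, hη, hE⟩ := hE1 CE hCE0
  obtain ⟨w₀, hw₀⟩ := hUtwo (η * δ ^ 2) (by positivity)
  refine ⟨w₀, fun w hw => ?_⟩
  obtain ⟨Y₁, hY₁⟩ := hCE₀ w
  obtain ⟨Y₂, hY₂⟩ := hw₀ w hw
  obtain ⟨Y₃, hY₃⟩ := hUthr (η * δ ^ 3) (primorial w) (by positivity)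
  obtain ⟨Y₄, hY₄⟩ := hCl (primorial w) 3
  obtain ⟨CT, Y₅, hY₅⟩ := hTh
  set W := primorial w with hW
  have hW0 : (0 : ℝ) < W := by
    rw [hW]
    exact_mod_cast primorial_pos w
  -- the mixture
  obtain ⟨η', hη', hA⟩ := hAsy W ρ lam 1 hρ hlam (fun x => poi |x| j)
    (fun x hx => by
      rw [abs_of_nonneg hx, abs_of_nonneg (poi_nonneg x hx j)]
      exact poi_le_one x hx j)
    (fun x y hx hy => by
      rw [abs_of_nonneg hx, abs_of_nonneg hy]
      exact poi_lip j x y hx hy) (ε / 2) (by positivity)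
  set β := bta W with hβ
  have hβ0 : 0 ≤ β := by
    rw [hβ]
    unfold bta
    positivity
  set CT' : ℝ := max CT 0 with hCT'
  have hCT0 : 0 ≤ CT' := le_max_right _ _
  -- eventual conditions on the parameters
  have v1 : ∀ᶠ i in atTop, (k i : ℝ) ≤ 2 * Real.log (Y i) ^ 2 := by
    filter_upwards [hk2.eventually (gt_mem_nhds (show ρ < 2 by linarith)), hL.eventually_gt_atTop 0] with i h1 h2
    have := (div_lt_iff₀ (show 0 < Real.log (Y i : ℝ) ^ 2 by positivity)).1 h1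
    linarith
  have v2 : ∀ᶠ i in atTop, 1 / η' ≤ (k i : ℝ) := hkr.eventually_ge_atTop _
  have hinv : ∀ c : ℝ, Tendsto (fun i => c / Real.log (Y i : ℝ)) atTop (𝓝 0) := fun c => hL.const_div_atTop c
  have v3 : ∀ᶠ i in atTop, 2 * Real.log (Y i : ℝ) ^ 2 * (1 / Y i) ≤ η' := by
    have h1 : Tendsto (fun i => Real.log (Y i : ℝ) ^ 2 / (Y i : ℝ)) atTop (𝓝 0) := by
      have h2 : Tendsto (fun x : ℝ => Real.log x ^ 2 / x) atTop (𝓝 0) := by
        have := Real.isLittleO_pow_log_id_atTop (n := 2)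
        exact this.tendsto_div_nhds_zero
      exact h2.comp hYr
    filter_upwards [h1.eventually (gt_mem_nhds (show 0 < η' / 2 by positivity))] with i h2
    calc 2 * Real.log (Y i : ℝ) ^ 2 * (1 / Y i) = 2 * (Real.log (Y i : ℝ) ^ 2 / Y i) := by ring
      _ ≤ η' := by linarith
  have v4 : ∀ᶠ i in atTop, 2 / Real.log (Y i : ℝ) ≤ η' :=
    ((hinv 2).eventually (gt_mem_nhds hη')).mono fun i h => h.le
  have hsq : Tendsto (fun i => √(k i : ℝ) / Real.log (Y i)) atTop (𝓝 (√ρ)) := by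
    have h1 := (Real.continuous_sqrt.tendsto ρ).comp hk2
    refine h1.congr' ?_
    filter_upwards [hL.eventually_gt_atTop 0] with i h2
    simp only [Function.comp]
    rw [Real.sqrt_div (Nat.cast_nonneg _), Real.sqrt_sq h2.le]
  have v5 : ∀ᶠ i in atTop, |√(k i : ℝ) / Real.log (Y i) - √ρ| ≤ η' / 2 := by
    have := (tendsto_order.1 ((hsq.sub_const (√ρ)).abs)).2 (η' / 2) (by simp; positivity)
    exact this.mono fun i h => h.le
  have v6 : ∀ᶠ i in atTop, CT' * 2 / Real.log (Y i : ℝ) ≤ η' / 2 :=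
    ((hinv _).eventually (gt_mem_nhds (show 0 < η' / 2 by positivity))).mono fun i h => h.le
  have v7 : ∀ᶠ i in atTop, 1 ≤ Real.log (Y i : ℝ) := hL.eventually_ge_atTop 1
  have v8 : ∀ᶠ i in atTop, ∀ c : ZMod W, |∑ n ∈ (V i).filter (fun n : ℕ => (n : ZMod W) = c),
    (1 - th (Y i) n) ^ (k i) - lam / W| ≤ η' := by
    rw [eventually_all]
    intro c
    have := (tendsto_order.1 (((hcs W c).sub_const (lam / W)).abs)).2 η' (by simp; positivity)
    exact this.mono fun i h => h.le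
  set M : ℝ := 2 * (β * (1 + CT') + 1) * (1 + CT') with hM
  have hM0 : 0 ≤ M := by positivity
  have v9 : ∀ᶠ i in atTop, C ^ 2 * Real.exp M / X i ≤ η :=
    ((hXr.const_div_atTop (C ^ 2 * Real.exp M)).eventually (gt_mem_nhds hη)).mono fun i h => h.le
  filter_upwards [hCe, v1, v2, v3, v4, v5, v6, v7, v8, v9, hP.top.eventually_ge_atTop 1,
    hYt.eventually_ge_atTop (max (max Y₁ Y₂) (max (max Y₃ Y₄) Y₅))] with i gC g1 g2 g3 g4 g5 g6 g7 g8 g9 gX gY
  have gY₁ : Y₁ ≤ Y i := ((le_max_left _ _).trans (le_max_left _ _)).trans gY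
  have gY₂ : Y₂ ≤ Y i := ((le_max_right _ _).trans (le_max_left _ _)).trans gY
  have gY₃ : Y₃ ≤ Y i := (((le_max_left _ _).trans (le_max_left _ _)).trans (le_max_right _ _)).trans gY
  have gY₄ : Y₄ ≤ Y i := (((le_max_right _ _).trans (le_max_left _ _)).trans (le_max_right _ _)).trans gY
  have gY₅ : Y₅ ≤ Y i := ((le_max_right _ _).trans (le_max_right _ _)).trans gY
  have gXY := hP.le i
  have gY1 : 1 ≤ Y i := gX.trans gXY
  clear_value CT' M CE
  set x := X i with hx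
  set y := Y i with hy
  set K := k i with hK
  set L := Real.log (y : ℝ) with hLd
  have hL0 : 0 < L := by linarith
  have hy0 : (0 : ℝ) < y := by exact_mod_cast gY1
  have hx0 : (0 : ℝ) < x := by exact_mod_cast gX
  have hK0 : (0 : ℝ) ≤ K := Nat.cast_nonneg K
  have hcU : (Icc 1 y).card = y := by rw [Nat.card_Icc, Nat.add_sub_cancel]
  have hCE1 : 0 ≤ max CE₀ 0 := le_max_right _ _
  obtain ⟨U, hU⟩ : ∃ U : Finset ℕ, U = V i := ⟨_, rfl⟩
  have hVU : U ⊆ Icc 1 y := by rw [hU]; exact hVY i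
  have hVc : U.card = x := by rw [hU]; exact hVX i
  have hxy : δ * y ≤ x := hδX i
  rw [← hU]
  have q2 : ∑ A ∈ powersetCard 2 U, K * d2 (Icc 1 y) (ta W) Rp A ≤ η * (x : ℝ) ^ 2 := by
    refine (sum_le_sum_of_subset_of_nonneg (powersetCard_mono hVU) (fun A _ _ => mul_nonneg hK0 (d2_nonneg _ _ _ _))).trans
      ((hY₂ y gY₂ K g1).trans ?_)
    calc η * δ ^ 2 * (y : ℝ) ^ 2 = η * (δ * y) ^ 2 := by ring
      _ ≤ η * (x : ℝ) ^ 2 := mul_le_mul_of_nonneg_left (pow_le_pow_left₀ (by positivity) hxy 2) hη.le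
  have q3 : ∑ A ∈ powersetCard 3 U, K * c2 (Icc 1 y) (ta W) Rp A ≤ η * (x : ℝ) ^ 3 := by
    refine (sum_le_sum_of_subset_of_nonneg (powersetCard_mono hVU) (fun A _ _ => mul_nonneg hK0 (c2_nonneg _ _ _ _))).trans
      ((hY₃ y gY₃ K g1).trans ?_)
    calc η * δ ^ 3 * (y : ℝ) ^ 3 = η * (δ * y) ^ 3 := by ring
      _ ≤ η * (x : ℝ) ^ 3 := mul_le_mul_of_nonneg_left (pow_le_pow_left₀ (by positivity) hxy 3) hη.le
  have q4 : ∑ A ∈ powersetCard 2 U, Real.exp (B * (K * c2 (Icc 1 y) (ta W) Rp A)) ≤ CE * (x : ℝ) ^ 2 := by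
    refine (sum_le_sum_of_subset_of_nonneg (powersetCard_mono hVU) (fun A _ _ => (Real.exp_pos _).le)).trans
      ((hY₁ y gY₁ K g1).trans ?_)
    have e1 : CE₀ * (y : ℝ) ^ 2 ≤ max CE₀ 0 * (y : ℝ) ^ 2 := mul_le_mul_of_nonneg_right (le_max_left _ _) (by positivity)
    have e2 : max CE₀ 0 * (y : ℝ) ^ 2 = max CE₀ 0 / δ ^ 2 * (δ * y) ^ 2 := by field_simp
    have e3 : max CE₀ 0 / δ ^ 2 * (δ * y) ^ 2 ≤ max CE₀ 0 / δ ^ 2 * (x : ℝ) ^ 2 :=
      mul_le_mul_of_nonneg_left (pow_le_pow_left₀ (by positivity) hxy 2) (by positivity)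
    have e4 : max CE₀ 0 / δ ^ 2 * (x : ℝ) ^ 2 ≤ CE * (x : ℝ) ^ 2 := by
      apply mul_le_mul_of_nonneg_right _ (by positivity)
      rw [hCE]
      linarith
    linarith
  -- the conditions of the engine
  have hVc' : (U.card : ℝ) = x := by rw [hVc]
  have hVne : U.Nonempty := card_pos.1 (by omega)
  have hdeg : ∀ n ∈ U, |th y n - 1 / L| ≤ CT' / L ^ 2 := by
    intro n hn
    obtain ⟨n1, n2⟩ := mem_Icc.1 (hVU hn)
    refine (hY₅ y gY₅ n n1 n2).trans ?_
    apply div_le_div_of_nonneg_right _ (by positivity)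
    rw [hCT']
    exact le_max_left _ _
  have hth2 : ∀ n ∈ U, th y n ≤ (1 + CT') / L := by
    intro n hn
    have h1 := (abs_le.1 (hdeg n hn)).2
    have h2 : CT' / L ^ 2 ≤ CT' / L := by
      apply div_le_div_of_nonneg_left hCT0 hL0
      nlinarith
    have h3 : (1 + CT') / L = 1 / L + CT' / L := by ring
    linarith
  have hud : ∀ n ∈ U, ∀ t : ZMod W, |ud (Icc 1 y) (ta W) Rp n t - th y n * β * un ((n : ZMod W) + t)| ≤ 1 / L ^ 3 := by
    intro n hn t
    obtain ⟨n1, n2⟩ := mem_Icc.1 (hVU hn)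
    rw [(hQd W y gY1).2.1 n t]
    exact hY₄ y gY₄ n n1 n2 t
  have hun : ∀ c : ZMod W, 0 ≤ un c ∧ un c ≤ 1 := by
    intro c
    unfold un
    split_ifs <;> norm_num
  have hcond : Cond (Icc 1 y) (ta W) U Rp K η C C B CE := by
    refine ⟨fun n hn => ?_, ?_, ?_, ?_, ?_, ?_⟩
    · rw [dg_th, hVc']
      exact (gC n (hVU hn)).1
    · have h1 : ∀ n ∈ U, (1 - dg (Icc 1 y) Rp n) ^ K ≤ C / x := by
        intro n hn
        rw [dg_th]
        exact (gC n (hVU hn)).2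
      refine (sum_le_sum h1).trans (le_of_eq ?_)
      rw [sum_const, nsmul_eq_mul, hVc']
      field_simp
    · rw [hVc']
      exact q2
    · rw [hVc']
      exact q4
    · rw [hVc']
      exact q3
    · refine (diag_bd W y K x U hVc gX gY1 C M hM0 (fun n hn => (gC n (hVU hn)).1) (fun n hn t => ?_)).trans g9
      have h1 := (abs_le.1 (hud n hn t)).2
      have h2 := hth2 n hn
      have h3 := th_nonneg y n
      have h4 : ud (Icc 1 y) (ta W) Rp n t ≤ (β * (1 + CT') + 1) / L := by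
        have f1 : th y n * β * un ((n : ZMod W) + t) ≤ (1 + CT') / L * β * 1 := by
          apply mul_le_mul _ (hun _).2 (hun _).1 (by positivity)
          exact mul_le_mul_of_nonneg_right h2 hβ0
        have f2 : 1 / L ^ 3 ≤ 1 / L := by
          apply one_div_le_one_div_of_le hL0
          nlinarith [pow_pos hL0 2]
        have f3 : (β * (1 + CT') + 1) / L = (1 + CT') / L * β * 1 + 1 / L := by ring
        linarith
      calc (K : ℝ) * (ud (Icc 1 y) (ta W) Rp n t * th y n) ≤ (2 * L ^ 2) * ((β * (1 + CT') + 1) / L * ((1 + CT') / L)) := by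
            apply mul_le_mul g1 _ (mul_nonneg (ud_nonneg _ _ _ _ _) h3) (by positivity)
            exact mul_le_mul h4 h2 h3 (by positivity)
        _ = M := by
            rw [hM]
            field_simp
  have r1 := hE (ZMod W) (Icc 1 y) (ta W) U Rp K ⟨1, mem_Icc.2 ⟨le_rfl, gY1⟩⟩ hVne hcond
  -- the conditions for the mixture
  have r2 := hA K (fun t => qd (Icc 1 y) (ta W) t) U (fun n => th y n) (fun n t => ud (Icc 1 y) (ta W) Rp n t) g2
    (fun t => qd_nonneg _ _ _) (sum_qd (Icc 1 y) ⟨1, mem_Icc.2 ⟨le_rfl, gY1⟩⟩ (ta W))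
    (fun t => by
      have h1 := (hQd W y gY1).1 t
      have h2 : √(K : ℝ) ≤ 2 * L ^ 2 := by
        rw [Real.sqrt_le_left (by positivity)]
        nlinarith [pow_le_pow_left₀ zero_le_one g7 2]
      exact (mul_le_mul h2 h1 (abs_nonneg _) (by positivity)).trans g3)
    (fun n _ t => ⟨ud_nonneg _ _ _ _ _, ud_le_one _ _ _ _ _⟩) (fun n _ => ⟨th_nonneg _ _, th_le_one _ _⟩)
    (fun n hn t => by
      refine (mul_le_mul g1 (hud n hn t) (abs_nonneg _) (by positivity)).trans ?_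
      refine le_trans (le_of_eq ?_) g4
      field_simp)
    (fun n hn => by
      have h1 : th y n * √(K : ℝ) - √ρ = (th y n - 1 / L) * √(K : ℝ) + (√(K : ℝ) / L - √ρ) := by ring
      rw [h1]
      refine (abs_add_le _ _).trans ?_
      have h2 : |(th y n - 1 / L) * √(K : ℝ)| ≤ η' / 2 := by
        rw [abs_mul, abs_of_nonneg (Real.sqrt_nonneg _)]
        have h3 : √(K : ℝ) ≤ 2 * L := by
          rw [Real.sqrt_le_left (by positivity)]
          nlinarith
        calc |th y n - 1 / L| * √(K : ℝ) ≤ CT' / L ^ 2 * (2 * L) := mul_le_mul (hdeg n hn) h3 (Real.sqrt_nonneg _) (by positivity)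
          _ = CT' * 2 / L := by field_simp
          _ ≤ η' / 2 := g6
      linarith)
    (fun c => by
      have h1 := g8 c
      rw [← hU] at h1
      exact h1)
  have r3 : ∑ t : Fin K → ZMod W, (∏ i, qd (Icc 1 y) (ta W) (t i)) * poi |cm U (fun n t => ud (Icc 1 y) (ta W) Rp n t) t| j =
      ∑ t : Fin K → ZMod W, pm (Icc 1 y) (ta W) t * poi (cme (Icc 1 y) (ta W) U Rp t) j := by
    apply sum_congr rfl
    intro t _
    have h1 : cm U (fun n t => ud (Icc 1 y) (ta W) Rp n t) t = cme (Icc 1 y) (ta W) U Rp t := rfl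
    rw [h1, abs_of_nonneg (cme_nonneg _ _ _ _ _)]
    rfl
  rw [r3] at r2
  have h5 := abs_add_le (freq (Icc 1 y) U Rp K j - ∑ t : Fin K → ZMod W, pm (Icc 1 y) (ta W) t * poi (cme (Icc 1 y) (ta W) U Rp t) j)
    (∑ t : Fin K → ZMod W, pm (Icc 1 y) (ta W) t * poi (cme (Icc 1 y) (ta W) U Rp t) j - ∫ x, poi |lam * x| j ∂(chaos ρ W))
  rw [sub_add_sub_cancel] at h5
  linarith

end Pool.Agent.Q145.GC
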