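import Pool.Agent.Q145.GC.Spec3
import Pool.Agent.Q178.GC.Cl

set_option autoImplicit false

/-! # Project GC: classes of the shifts, and the sum over the triples (job GC14) -/

namespace Pool.Agent.Q145.GC.Uth

open Finset Filter Topology
open Pool.Agent.Q145.GC Pool.Agent.Q178.GC

open scoped Classical

theorem card_cl (Y W : ℕ) [NeZero W] (t : ZMod W) :
    (cl (Icc 1 Y) (ta W) t).card = ((Icc 1 Y).filter (fun s : ℕ => (s : ZMod W) = t)).card := by
  unfold cl ta
  congr!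

theorem qds : S_Qd := by
  intro W Y _ hY
  have hYr : (0:ℝ) < Y := by exact_mod_cast hY
  have hW : 0 < W := Nat.pos_of_ne_zero (NeZero.ne W)
  have hWr : (0:ℝ) < W := by exact_mod_cast hW
  have hcard : ((Icc 1 Y).card : ℝ) = Y := by rw [Nat.card_Icc, Nat.add_sub_cancel]
  have hud : ∀ (n : ℕ) (t : ZMod W), ud (Icc 1 Y) (ta W) Rp n t = dn Y W t (fun s => (n + s).Prime) := by
    intro n t
    unfold ud dn
    rw [card_cl]
    congr 3
    unfold cl
    rw [filter_filter]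
    ext s
    simp only [mem_filter]
    rfl
  have hjn : ∀ (A : Finset ℕ) (P : ℕ → Prop) (t : ZMod W), (∀ s, (∀ n ∈ A, Rp n s) ↔ P s) →
      jn (Icc 1 Y) (ta W) Rp A t = qd (Icc 1 Y) (ta W) t * dn Y W t P := by
    intro A P t h
    have e1 : ((cl (Icc 1 Y) (ta W) t).filter (fun s => ∀ n ∈ A, Rp n s)).card =
        ((Icc 1 Y).filter (fun s : ℕ => (s : ZMod W) = t ∧ P s)).card := by
      unfold cl
      rw [filter_filter]
      congr 1
      ext s
      simp only [mem_filter]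
      rw [h s]
      rfl
    have e2 := card_cl Y W t
    unfold jn qd dn
    rw [e1, ← e2]
    rcases Nat.eq_zero_or_pos (cl (Icc 1 Y) (ta W) t).card with h0 | h0
    · have h1 : ((Icc 1 Y).filter (fun s : ℕ => (s : ZMod W) = t ∧ P s)).card = 0 := by
        rw [← Nat.le_zero, ← h0, e2]
        apply card_le_card
        intro s hs
        rw [mem_filter] at hs ⊢
        exact ⟨hs.1, hs.2.1⟩
      rw [h1, h0]
      simp
    · have h0' : ((cl (Icc 1 Y) (ta W) t).card : ℝ) ≠ 0 := by exact_mod_cast h0.ne'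
      field_simp
  refine ⟨?_, hud, ?_, ?_⟩
  · intro t
    unfold qd
    rw [card_cl, hcard]
    have h1 := class_card Y W t
    set M : ℝ := (((Icc 1 Y).filter (fun s : ℕ => (s : ZMod W) = t)).card : ℝ) with hM
    have e1 : M / Y - 1 / W = (M * W - Y) / (Y * W) := by
      field_simp
    rw [e1, abs_div, abs_of_pos (show (0:ℝ) < Y * W by positivity), div_le_div_iff₀ (by positivity) hYr]
    calc |M * W - Y| * Y ≤ W * Y := mul_le_mul_of_nonneg_right h1 hYr.le
      _ = 1 * (Y * W) := by ring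
  · intro n m t hnm
    apply hjn
    intro s
    simp [Rp]
  · intro n m t hnm
    unfold jp
    rw [prod_pair hnm, hud, hud]

theorem es_le_pow (V : Finset ℕ) (x : ℕ → ℝ) (hx : ∀ n, 0 ≤ x n) (r : ℕ) : es V x r ≤ (∑ n ∈ V, x n) ^ r := by
  induction V using Finset.cons_induction generalizing r with
  | empty =>
    cases r with
    | zero => simp [es_zero]
    | succ r =>
      unfold es
      rw [powersetCard_eq_empty.2 (by simp)]
      simp
  | cons a V ha ih =>
    cases r with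
    | zero => simp [es_zero]
    | succ r =>
      have h0 : es (cons a V ha) x (r + 1) = es V x (r + 1) + x a * es V x r := by
        rw [@cons_eq_insert _ (fun a b => Classical.propDecidable (a = b)) a V ha]
        exact es_insert V x a ha r
      rw [h0, sum_cons]
      have h1 := ih (r + 1)
      have h2 := ih r
      set σ := ∑ n ∈ V, x n with hσ
      have hσ0 : 0 ≤ σ := sum_nonneg fun n _ => hx n
      have h3 : σ ^ r ≤ (x a + σ) ^ r := pow_le_pow_left₀ hσ0 (by linarith [hx a]) r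
      calc es V x (r + 1) + x a * es V x r ≤ σ ^ (r + 1) + x a * σ ^ r :=
            add_le_add h1 (mul_le_mul_of_nonneg_left h2 (hx a))
        _ = (x a + σ) * σ ^ r := by ring
        _ ≤ (x a + σ) * (x a + σ) ^ r := mul_le_mul_of_nonneg_left h3 (by linarith [hx a])
        _ = _ := by ring

theorem uthr (h1 : S_Th) (h2 : S_Cl) : S_Uthr := by
  intro η W _ hη
  obtain ⟨C, Y1, hth⟩ := h1
  obtain ⟨Y2, hcl⟩ := h2 W 1
  have hW : 0 < W := Nat.pos_of_ne_zero (NeZero.ne W)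
  have hWr : (1:ℝ) ≤ W := by exact_mod_cast hW
  have hβ : 1 ≤ bta W := by
    unfold bta
    rw [one_le_div (by exact_mod_cast Nat.totient_pos.2 hW)]
    exact_mod_cast Nat.totient_le W
  set D : ℝ := 2 * (8 + 27 * bta W ^ 3) with hD
  have hD0 : 0 < D := by positivity
  have ht : Tendsto (fun Y : ℕ => Real.log (Y : ℝ)) atTop atTop :=
    Real.tendsto_log_atTop.comp tendsto_natCast_atTop_atTop
  obtain ⟨Y3, hY3⟩ := eventually_atTop.1 (ht.eventually_ge_atTop (max (max C 1) (D / η)))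
  refine ⟨max (max Y1 Y2) (max Y3 1), fun Y hY K hK => ?_⟩
  have hYY1 : Y1 ≤ Y := (le_max_left _ _).trans ((le_max_left _ _).trans hY)
  have hYY2 : Y2 ≤ Y := (le_max_right _ _).trans ((le_max_left _ _).trans hY)
  have hL' := hY3 Y ((le_max_left _ _).trans ((le_max_right _ _).trans hY))
  have hY1 : 1 ≤ Y := (le_max_right _ _).trans ((le_max_right _ _).trans hY)
  have hYr : (0:ℝ) < Y := by exact_mod_cast hY1
  set L := Real.log Y with hL
  have hLC : C ≤ L := (le_max_left _ _).trans ((le_max_left _ _).trans hL')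
  have hL1 : 1 ≤ L := (le_max_right _ _).trans ((le_max_left _ _).trans hL')
  have hLη : D / η ≤ L := (le_max_right _ _).trans hL'
  have hL0 : 0 < L := by linarith
  have hcard : ((Icc 1 Y).card : ℝ) = Y := by rw [Nat.card_Icc, Nat.add_sub_cancel]
  -- degrees
  have hth2 : ∀ n ∈ Icc 1 Y, th Y n ≤ 2 / L := by
    intro n hn
    rw [mem_Icc] at hn
    have h3 := (abs_le.1 (hth Y hYY1 n hn.1 hn.2)).2
    have h4 : C / L ^ 2 ≤ 1 / L := by
      rw [div_le_div_iff₀ (by positivity) hL0]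
      nlinarith
    have h5 : 2 / L = 1 / L + 1 / L := by ring
    linarith
  obtain ⟨-, hud, -, -⟩ := qds W Y hY1
  have hud2 : ∀ n ∈ Icc 1 Y, ∀ t : ZMod W, ud (Icc 1 Y) (ta W) Rp n t ≤ 3 * bta W / L := by
    intro n hn t
    have hn' := mem_Icc.1 hn
    have h3 := (abs_le.1 (hcl Y hYY2 n hn'.1 hn'.2 t)).2
    rw [hud n t]
    have h4 : th Y n * bta W * un ((n : ZMod W) + t) ≤ 2 / L * bta W := by
      have h5 : un ((n : ZMod W) + t) ≤ 1 := by unfold un; split_ifs <;> norm_num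
      have h6 : 0 ≤ un ((n : ZMod W) + t) := by unfold un; split_ifs <;> norm_num
      have h7 : 0 ≤ th Y n := by unfold th; positivity
      have h8 := hth2 n hn
      calc th Y n * bta W * un ((n : ZMod W) + t) ≤ th Y n * bta W * 1 :=
            mul_le_mul_of_nonneg_left h5 (by positivity)
        _ = th Y n * bta W := mul_one _
        _ ≤ 2 / L * bta W := mul_le_mul_of_nonneg_right h8 (by linarith)
    rw [pow_one] at h3
    have h9 : 3 * bta W / L = 2 / L * bta W + bta W / L := by ring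
    have h10 : 1 / L ≤ bta W / L := div_le_div_of_nonneg_right hβ hL0.le
    rw [h9]
    linarith
  -- the true part
  have hA : ∑ t : ZMod W, ∑ A ∈ powersetCard 3 (Icc 1 Y), jn (Icc 1 Y) (ta W) Rp A t ≤ (2 / L) ^ 3 * (Y:ℝ) ^ 3 := by
    have e1 : ∀ t : ZMod W, ∑ A ∈ powersetCard 3 (Icc 1 Y), jn (Icc 1 Y) (ta W) Rp A t =
        (∑ s ∈ cl (Icc 1 Y) (ta W) t, es (Icc 1 Y) (ind Rp s) 3) / (Icc 1 Y).card :=
      fun t => (sum_es (Icc 1 Y) (ta W) Rp (Icc 1 Y) 3 t).symm
    rw [sum_congr rfl fun t _ => e1 t, ← sum_div]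
    have e2 : ∑ t : ZMod W, ∑ s ∈ cl (Icc 1 Y) (ta W) t, es (Icc 1 Y) (ind Rp s) 3 =
        ∑ s ∈ Icc 1 Y, es (Icc 1 Y) (ind Rp s) 3 := by
      unfold cl
      convert sum_fiberwise (Icc 1 Y) (ta W) (fun s => es (Icc 1 Y) (ind Rp s) 3)
    rw [e2, hcard, div_le_iff₀ hYr]
    have e3 : ∀ s ∈ Icc 1 Y, es (Icc 1 Y) (ind Rp s) 3 ≤ (2 / L * Y) ^ 3 := by
      intro s hs
      refine (es_le_pow (Icc 1 Y) (ind Rp s) (fun n => ind_nonneg Rp s n) 3).trans ?_
      apply pow_le_pow_left₀ (sum_nonneg fun n _ => ind_nonneg Rp s n)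
      have e4 : ∑ n ∈ Icc 1 Y, ind Rp s n = th Y s * Y := by
        unfold th
        rw [div_mul_cancel₀ _ hYr.ne', card_filter]
        push_cast
        apply sum_congr rfl
        intro n _
        unfold ind Rp
        rw [add_comm n s]
        congr!
      rw [e4]
      exact mul_le_mul_of_nonneg_right (hth2 s hs) hYr.le
    calc ∑ s ∈ Icc 1 Y, es (Icc 1 Y) (ind Rp s) 3 ≤ ∑ _s ∈ Icc 1 Y, (2 / L * Y) ^ 3 := sum_le_sum e3
      _ = (2 / L) ^ 3 * (Y:ℝ) ^ 3 * Y := by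
          rw [sum_const, nsmul_eq_mul, hcard]
          ring
  -- the independent part
  have hB : ∑ t : ZMod W, ∑ A ∈ powersetCard 3 (Icc 1 Y), jp (Icc 1 Y) (ta W) Rp A t ≤
      (3 * bta W / L) ^ 3 * (Y:ℝ) ^ 3 := by
    have e1 : ∀ t : ZMod W, ∑ A ∈ powersetCard 3 (Icc 1 Y), jp (Icc 1 Y) (ta W) Rp A t ≤
        qd (Icc 1 Y) (ta W) t * ((3 * bta W / L) ^ 3 * (Y:ℝ) ^ 3) := by
      intro t
      unfold jp
      rw [← mul_sum]
      apply mul_le_mul_of_nonneg_left _ (qd_nonneg _ _ _)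
      have e2 : ∑ A ∈ powersetCard 3 (Icc 1 Y), ∏ n ∈ A, ud (Icc 1 Y) (ta W) Rp n t =
          es (Icc 1 Y) (fun n => ud (Icc 1 Y) (ta W) Rp n t) 3 := rfl
      rw [e2]
      refine (es_le_pow (Icc 1 Y) _ (fun n => ud_nonneg _ _ _ n t) 3).trans ?_
      rw [← mul_pow]
      apply pow_le_pow_left₀ (sum_nonneg fun n _ => ud_nonneg _ _ _ n t)
      calc ∑ n ∈ Icc 1 Y, ud (Icc 1 Y) (ta W) Rp n t ≤ ∑ _n ∈ Icc 1 Y, 3 * bta W / L :=
            sum_le_sum fun n hn => hud2 n hn t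
        _ = 3 * bta W / L * Y := by
            rw [sum_const, nsmul_eq_mul, hcard]
            ring
    refine (sum_le_sum fun t _ => e1 t).trans ?_
    rw [← sum_mul, sum_qd (Icc 1 Y) ⟨1, mem_Icc.2 ⟨le_rfl, hY1⟩⟩, one_mul]
  have hsum : ∑ A ∈ powersetCard 3 (Icc 1 Y), K * c2 (Icc 1 Y) (ta W) Rp A =
      K * (∑ t : ZMod W, ∑ A ∈ powersetCard 3 (Icc 1 Y), jn (Icc 1 Y) (ta W) Rp A t +
        ∑ t : ZMod W, ∑ A ∈ powersetCard 3 (Icc 1 Y), jp (Icc 1 Y) (ta W) Rp A t) := by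
    rw [← mul_sum, ← sum_add_distrib]
    congr 1
    unfold c2
    rw [sum_comm]
    apply sum_congr rfl
    intro t _
    rw [sum_add_distrib]
  rw [hsum]
  have hY30 : (0:ℝ) < (Y:ℝ) ^ 3 := by positivity
  calc (K:ℝ) * (∑ t : ZMod W, ∑ A ∈ powersetCard 3 (Icc 1 Y), jn (Icc 1 Y) (ta W) Rp A t +
        ∑ t : ZMod W, ∑ A ∈ powersetCard 3 (Icc 1 Y), jp (Icc 1 Y) (ta W) Rp A t) ≤
      (2 * L ^ 2) * ((2 / L) ^ 3 * (Y:ℝ) ^ 3 + (3 * bta W / L) ^ 3 * (Y:ℝ) ^ 3) := by
        apply mul_le_mul hK (add_le_add hA hB) _ (by positivity)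
        exact add_nonneg (sum_nonneg fun t _ => sum_nonneg fun A _ => jn_nonneg _ _ _ _ _)
          (sum_nonneg fun t _ => sum_nonneg fun A _ => jp_nonneg _ _ _ _ _)
    _ = D / L * (Y:ℝ) ^ 3 := by
        rw [hD]
        field_simp
        ring
    _ ≤ η * (Y:ℝ) ^ 3 := by
        apply mul_le_mul_of_nonneg_right _ hY30.le
        rw [div_le_iff₀ hL0]
        rw [div_le_iff₀ hη] at hLη
        linarith

end Pool.Agent.Q145.GC.Uth
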