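import Pool.Agent.Q145.GC.Level

set_option autoImplicit false
set_option maxHeartbeats 4000000

/-! # The limit law -/

namespace Pool.Agent.Q145.GC

open Finset MeasureTheory ProbabilityTheory Filter Topology
open Pool.Agent.Q145.GP (poi freq poi_nonneg)

open scoped Classical

/-- all the inputs -/
structure Inp : Prop where
  hTh : S_Th
  hCl : S_Cl
  hAsy : S_Asy
  hS1 : S_Sub1
  hS2 : S_Sub2
  hPar : S_Par
  hCls : S_Cls
  hUex : S_Uex
  hUtwo : S_Utwo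
  hUthr : S_Uthr
  hQd : S_Qd
  hProc : S_Proc
  hMean : S_Mean

theorem bad_not_close (I : Inp) (ρ lam : ℝ) (hρ : 0 ≤ ρ) (hlam : 0 < lam) (X Y k : ℕ → ℕ) (hP : Par ρ lam X Y k) (j : ℕ)
    (μ : Measure ℝ) (hμ0 : μ (Set.Iio 0) = 0)
    (hμ : ∀ f : ℝ → ℝ, Continuous f → (∃ C, ∀ x, |f x| ≤ C) →
      Tendsto (fun w => ∫ x, f x ∂(chaos ρ (primorial w))) atTop (𝓝 (∫ x, f x ∂μ)))
    (ε δ : ℝ) (hε : 0 < ε) (hδ : 0 < δ) : ∀ᶠ i in atTop,
    bad (X i) (Y i) (fun V => ¬ |freq (Icc 1 (Y i)) V Rp (k i) j - ∫ x, poi (lam * x) j ∂μ| ≤ ε) ≤ δ := by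
  obtain ⟨w₀, hw₀⟩ := level I.hTh I.hCl I.hAsy I.hS1 I.hS2 I.hPar I.hCls I.hUex I.hUtwo I.hUthr I.hQd ρ lam hρ hlam X Y k hP j
    (ε / 2) δ (by positivity) hδ
  have h1 := hμ (fun x => poi |lam * x| j) ((poi_cont j).comp (by fun_prop)) ⟨1, fun x => by
    rw [abs_of_nonneg (poi_nonneg _ (abs_nonneg _) _)]
    exact poi_le_one _ (abs_nonneg _) _⟩
  have h2 : ∫ x, poi |lam * x| j ∂μ = ∫ x, poi (lam * x) j ∂μ := by
    apply integral_congr_ae
    have h3 : ∀ᵐ x ∂μ, x ∉ Set.Iio (0 : ℝ) := measure_eq_zero_iff_ae_notMem.1 hμ0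
    filter_upwards [h3] with x hx
    rw [Set.mem_Iio, not_lt] at hx
    rw [abs_of_nonneg (by positivity)]
  rw [h2] at h1
  have h3 := (tendsto_order.1 ((h1.sub_const (∫ x, poi (lam * x) j ∂μ)).abs)).2 (ε / 2) (by simp; positivity)
  obtain ⟨w, hw1, hw2⟩ := (h3.and (eventually_ge_atTop w₀)).exists
  filter_upwards [hw₀ w hw2] with i hi
  refine (bad_mono _ _ _ _ ?_).trans hi
  intro V _
  contrapose!
  intro h4
  have h5 := abs_add_le (freq (Icc 1 (Y i)) V Rp (k i) j - ∫ x, poi |lam * x| j ∂(chaos ρ (primorial w)))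
    (∫ x, poi |lam * x| j ∂(chaos ρ (primorial w)) - ∫ x, poi (lam * x) j ∂μ)
  rw [sub_add_sub_cancel] at h5
  linarith

/-- the constant of the mean -/
noncomputable def cst (ρ : ℝ) : ℝ := ∫ x in (0 : ℝ)..1, Real.exp (ρ * ((x + 1) * Real.log (x + 1) - x * Real.log x - 3 / 2))

theorem cst_pos (ρ : ℝ) : 0 < cst ρ := by
  unfold cst
  apply intervalIntegral.intervalIntegral_pos_of_pos_on _ (fun x _ => Real.exp_pos _) one_pos
  apply Continuous.intervalIntegrable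
  have h1 : Continuous (fun x : ℝ => x * Real.log x) := Real.continuous_mul_log
  have h2 : Continuous (fun x : ℝ => (x + 1) * Real.log (x + 1)) := h1.comp (continuous_id.add continuous_const)
  fun_prop

/-- **The limit law.** -/
theorem process (I : Inp) (ρ : ℝ) (hρ : 0 ≤ ρ) (μ : Measure ℝ) (hμ0 : μ (Set.Iio 0) = 0)
    (hμ : ∀ f : ℝ → ℝ, Continuous f → (∃ C, ∀ x, |f x| ≤ C) →
      Tendsto (fun w => ∫ x, f x ∂(chaos ρ (primorial w))) atTop (𝓝 (∫ x, f x ∂μ)))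
    (r : ℕ) (u : Fin (r + 1) → ℝ) (X Y K : ℕ → ℕ) (k : ℕ → Fin (r + 1) → ℕ)
    (hX : Tendsto X atTop atTop) (hXY : ∀ i, X i ≤ Y i)
    (hr : Tendsto (fun i => Real.log (X i) / Real.log (Y i)) atTop (𝓝 ρ))
    (hm : ∀ i, Monotone (k i)) (hK : ∀ i l, k i l ≤ K i)
    (hk : ∀ l, Tendsto (fun i => ((k i l : ℝ) - Real.log (X i) * Real.log (Y i)) / Real.log (Y i)) atTop (𝓝 (u l)))
    (b : Fin (r + 1) → ℕ) (ε δ : ℝ) (hε : 0 < ε) (hδ : 0 < δ) : ∀ᶠ i in atTop,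
    bad (X i) (Y i) (fun V => ¬ |joint V (Y i) (K i) (k i) b -
      (∫ x, poi (cst ρ * Real.exp (-(u 0)) * x) (b 0) ∂μ) *
        ∏ l : Fin r, bino (b l.castSucc) (b l.succ) (Real.exp (-(u l.succ - u l.castSucc)))| ≤ ε) ≤ δ := by
  set lam : Fin (r + 1) → ℝ := fun l => cst ρ * Real.exp (-(u l)) with hlam
  have hc := cst_pos ρ
  have hlam0 : ∀ l, 0 < lam l := fun l => mul_pos hc (Real.exp_pos _)
  have hmean : ∀ l, Tendsto (fun i => mean (X i) (Y i) (k i l)) atTop (𝓝 (lam l)) := by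
    intro l
    have h1 := I.hMean ρ (u l) X Y (fun i => k i l) hρ hX hXY hr (hk l)
    unfold mean
    rw [hlam]
    simp only
    rw [mul_comm (cst ρ)]
    exact h1
  set P : ℝ := ∏ l : Fin r, bino (b l.castSucc) (b l.succ) (Real.exp (-(u l.succ - u l.castSucc))) with hP
  have hq : ∀ l : Fin r, lam l.succ / lam l.castSucc = Real.exp (-(u l.succ - u l.castSucc)) := by
    intro l
    rw [hlam]
    simp only
    rw [mul_div_mul_left _ _ hc.ne', ← Real.exp_sub]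
    congr 1
    ring
  have h1 := I.hProc r lam X Y K k hX hXY hm hK hlam0 hmean b (ε / 2) (by positivity)
  have hPar : Par ρ (lam 0) X Y (fun i => k i 0) := ⟨hX, hXY, hr, hmean 0⟩
  have h2 := bad_not_close I ρ (lam 0) hρ (hlam0 0) X Y (fun i => k i 0) hPar (b 0) μ hμ0 hμ (ε / (2 * (|P| + 1))) δ
    (by positivity) hδ
  filter_upwards [h1, h2, hX.eventually_ge_atTop 1] with i g1 g2 g3
  refine (bad_mono _ _ _ _ ?_).trans g2
  intro V hV
  contrapose!
  intro g4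
  have g5 := g1 V hV
  have g6 : ∏ l : Fin r, bino (b l.castSucc) (b l.succ) (lam l.succ / lam l.castSucc) = P := by
    rw [hP]
    exact prod_congr rfl fun l _ => by rw [hq l]
  rw [g6, joint_one V (Y i) (K i) (k i 0) (b 0) (hK i 0) (g3.trans (hXY i))] at g5
  have g7 : |freq (Icc 1 (Y i)) V Rp (k i 0) (b 0) * P - (∫ x, poi (lam 0 * x) (b 0) ∂μ) * P| ≤ ε / 2 := by
    rw [← sub_mul, abs_mul]
    calc |freq (Icc 1 (Y i)) V Rp (k i 0) (b 0) - ∫ x, poi (lam 0 * x) (b 0) ∂μ| * |P| ≤ ε / (2 * (|P| + 1)) * (|P| + 1) := by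
          apply mul_le_mul g4 _ (abs_nonneg _) (by positivity)
          linarith
      _ = ε / 2 := by field_simp
  have g8 := abs_add_le (joint V (Y i) (K i) (k i) b - freq (Icc 1 (Y i)) V Rp (k i 0) (b 0) * P)
    (freq (Icc 1 (Y i)) V Rp (k i 0) (b 0) * P - (∫ x, poi (lam 0 * x) (b 0) ∂μ) * P)
  rw [sub_add_sub_cancel] at g8
  linarith

/-- the full set -/
theorem bad_full (Y : ℕ) (P : Finset ℕ → Prop) (h : bad Y Y P < 1) : ¬ P (Icc 1 Y) := by
  intro hP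
  have h1 : powersetCard Y (Icc 1 Y) = {Icc 1 Y} := by
    have : (Icc 1 Y).card = Y := by rw [Nat.card_Icc, Nat.add_sub_cancel]
    have h2 := powersetCard_self (Icc 1 Y)
    rw [this] at h2
    exact h2
  unfold bad at h
  rw [h1, filter_singleton, if_pos hP, card_singleton, Nat.choose_self] at h
  norm_num at h

end Pool.Agent.Q145.GC
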