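import Pool.Agent.Q145.GC.Res
import Pool.Agent.Q145.GQ.Cra
import Pool.Agent.Q145.GQ.Law
import Pool.Agent.Q145.GP.GLaw
import Pool.Agent.Q280.GC.Clt
import Pool.Agent.Q280.GC.Psd
import Pool.Agent.Q87.GC.Two
import Pool.Agent.Q87.GC.Lim
import Pool.Agent.Q87.GC.Par
import Pool.Agent.Q87.GC.Uex
import Pool.Agent.Q145.GC.Dense
import Pool.Agent.Q145.GQ.Eqd
import Pool.Agent.Q199.GC.Em
import Pool.Agent.Q121.GC.Asy2
import Pool.Agent.Q121.GC.Bdd
import Pool.Agent.Q178.GC.Sub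
import Pool.Agent.Q178.GC.Cl
import Pool.Agent.Q145.GC.Uthr
import Pool.Agent.Q178.GC.Mean
import Pool.Agent.Q156.GC.H6
import Pool.Agent.Q162.GC.Proc

set_option autoImplicit false
set_option maxHeartbeats 4000000

/-! # Assembly -/

namespace Pool.Agent.Q145.GC

open Finset MeasureTheory ProbabilityTheory Filter Topology

open scoped Classical

/-- the limit of the total masses -/
theorem lims : S_Lim :=
  Pool.Agent.Q87.GC.lim Pool.Agent.Q280.GC.psd Pool.Agent.Q280.GC.exp_mom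
    (Pool.Agent.Q87.GC.two Pool.Agent.Q280.GC.psd Pool.Agent.Q280.GC.exp_mom)
    (Pool.Agent.Q121.GC.bdd Pool.Agent.Q199.GC.em)

/-- all the inputs -/
theorem inp : Inp where
  hTh := Pool.Agent.Q178.GC.thb
  hCl := Pool.Agent.Q178.GC.cls
  hAsy := Pool.Agent.Q121.GC.asy Pool.Agent.Q280.GC.psd Pool.Agent.Q280.GC.clt
  hS1 := Pool.Agent.Q178.GC.sub1
  hS2 := Pool.Agent.Q178.GC.sub2
  hPar := Pool.Agent.Q87.GC.par Pool.Agent.Q178.GC.thb
  hCls := Pool.Agent.Q87.GC.clsum Pool.Agent.Q178.GC.thb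
  hUex := Pool.Agent.Q87.GC.uex Pool.Agent.Q178.GC.thb Pool.Agent.Q178.GC.cls Pool.Agent.Q156.GC.hl Pool.Agent.Q199.GC.em
    Pool.Agent.Q145.GC.Uth.qds
  hUtwo := Pool.Agent.Q87.GC.utwo Pool.Agent.Q178.GC.thb Pool.Agent.Q178.GC.cls Pool.Agent.Q156.GC.hl Pool.Agent.Q199.GC.em
    Pool.Agent.Q145.GC.Uth.qds Pool.Agent.Q199.GC.per
  hUthr := Pool.Agent.Q145.GC.Uth.uthr Pool.Agent.Q178.GC.thb Pool.Agent.Q178.GC.cls
  hQd := Pool.Agent.Q145.GC.Uth.qds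
  hProc := Pool.Agent.Q162.GC.proc Pool.Agent.Q178.GC.thb
  hMean := Pool.Agent.Q178.GC.mean

/-- two forms of convergence -/
theorem forms (X Y : ℕ → ℕ) (F : ℕ → Finset ℕ → ℝ) (c : ℝ)
    (H : ∀ ε δ : ℝ, 0 < ε → 0 < δ → ∀ᶠ i in atTop, bad (X i) (Y i) (fun V => ¬ |F i V - c| ≤ ε) ≤ δ) :
    (∀ ε : ℝ, 0 < ε → Tendsto (fun i => bad (X i) (Y i) (fun V => ε < |F i V - c|)) atTop (𝓝 0)) ∧
    ((∀ i, X i = Y i) → Tendsto (fun i => F i (Icc 1 (Y i))) atTop (𝓝 c)) := by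
  constructor
  · intro ε hε
    rw [Metric.tendsto_atTop]
    intro δ hδ
    obtain ⟨N, hN⟩ := eventually_atTop.1 (H ε (δ / 2) hε (by positivity))
    refine ⟨N, fun i hi => ?_⟩
    rw [Real.dist_eq, sub_zero, abs_of_nonneg (bad_nonneg _ _ _)]
    refine lt_of_le_of_lt ((bad_mono _ _ _ _ (fun V _ h => ?_)).trans (hN i hi)) (by linarith)
    exact not_le.2 h
  · intro hXY
    rw [Metric.tendsto_atTop]
    intro ε hε
    obtain ⟨N, hN⟩ := eventually_atTop.1 (H (ε / 2) (1 / 2) (by positivity) (by norm_num))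
    refine ⟨N, fun i hi => ?_⟩
    have h1 := hN i hi
    rw [hXY i] at h1
    have h2 := bad_full (Y i) _ (lt_of_le_of_lt h1 (by norm_num))
    rw [not_not] at h2
    rw [Real.dist_eq]
    linarith

theorem mis_eq (V : Finset ℕ) {K : ℕ} (a : Fin K → ℕ) (m : ℕ) : mis V a m = Pool.Agent.Q145.GQ.mis Nat.Prime V a m := by
  unfold mis Pool.Agent.Q145.GQ.mis
  exact Pool.Agent.Q145.RA.card_filter_inst _ _ _ _

theorem joint_eq (V : Finset ℕ) (Y K : ℕ) {r : ℕ} (k b : Fin r → ℕ) : joint V Y K k b = Pool.Agent.Q145.GQ.joint Nat.Prime V Y K k b := by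
  unfold joint Pool.Agent.Q145.GQ.joint
  congr 2
  have : ∀ a : Fin K → ℕ, (∀ l, mis V a (k l) = b l) ↔ (∀ l, Pool.Agent.Q145.GQ.mis Nat.Prime V a (k l) = b l) := by
    intro a
    exact forall_congr' fun l => by rw [mis_eq]
  simp_rw [this]

theorem th_eq (Y n : ℕ) : th Y n = Pool.Agent.Q145.GQ.th Nat.Prime Y n := by
  unfold th Pool.Agent.Q145.GQ.th
  rw [Pool.Agent.Q145.RA.card_filter_inst]

/-- **The limit law for equidistributed sets of positive density.** -/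
theorem process_dense (ρ : ℝ) (hρ : 0 ≤ ρ) (μ : Measure ℝ) (hμ0 : μ (Set.Iio 0) = 0)
    (hμ : ∀ f : ℝ → ℝ, Continuous f → (∃ C, ∀ x, |f x| ≤ C) →
      Tendsto (fun w => ∫ x, f x ∂(chaos ρ (primorial w))) atTop (𝓝 (∫ x, f x ∂μ)))
    (r : ℕ) (u : Fin (r + 1) → ℝ) (X Y K : ℕ → ℕ) (k : ℕ → Fin (r + 1) → ℕ)
    (hX : Tendsto X atTop atTop) (hXY : ∀ i, X i ≤ Y i)
    (hr : Tendsto (fun i => Real.log (X i) / Real.log (Y i)) atTop (𝓝 ρ))
    (hm : ∀ i, Monotone (k i)) (hK : ∀ i l, k i l ≤ K i)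
    (hk : ∀ l, Tendsto (fun i => ((k i l : ℝ) - Real.log (X i) * Real.log (Y i)) / Real.log (Y i)) atTop (𝓝 (u l)))
    (V : ℕ → Finset ℕ) (hV : ∀ i, V i ⊆ Icc 1 (Y i)) (hVX : ∀ i, (V i).card = X i) (δ : ℝ) (hδ : 0 < δ) (hδX : ∀ i, δ * Y i ≤ X i)
    (hE : Pool.Agent.Q145.GQ.Eqd V X Y)
    (b : Fin (r + 1) → ℕ) (ε : ℝ) (hε : 0 < ε) : ∀ᶠ i in atTop,
    |joint (V i) (Y i) (K i) (k i) b -
      (∫ x, Pool.Agent.Q145.GP.poi (cst ρ * Real.exp (-(u 0)) * x) (b 0) ∂μ) *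
        ∏ l : Fin r, bino (b l.castSucc) (b l.succ) (Real.exp (-(u l.succ - u l.castSucc)))| ≤ ε := by
  have I := inp
  set lam : Fin (r + 1) → ℝ := fun l => cst ρ * Real.exp (-(u l)) with hlam
  have hc := cst_pos ρ
  have hlam0 : ∀ l, 0 < lam l := fun l => mul_pos hc (Real.exp_pos _)
  have hmean : ∀ l, Tendsto (fun i => mean (X i) (Y i) (k i l)) atTop (𝓝 (lam l)) := by
    intro l
    have h1 := I.hMean ρ (u l) X Y (fun i => k i l) hρ hX hXY hr (hk l)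
    unfold mean
    rw [hlam]
    simp only
    rw [mul_comm (cst ρ)]
    exact h1
  set P : ℝ := ∏ l : Fin r, bino (b l.castSucc) (b l.succ) (Real.exp (-(u l.succ - u l.castSucc))) with hP
  have hq : ∀ l : Fin r, lam l.succ / lam l.castSucc = Real.exp (-(u l.succ - u l.castSucc)) := by
    intro l
    rw [hlam]
    simp only
    rw [mul_div_mul_left _ _ hc.ne', ← Real.exp_sub]
    congr 1
    ring
  have h1 := I.hProc r lam X Y K k hX hXY hm hK hlam0 hmean b (ε / 2) (by positivity)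
  have hPar : Par ρ (lam 0) X Y (fun i => k i 0) := ⟨hX, hXY, hr, hmean 0⟩
  have hcs : ∀ (W : ℕ) [NeZero W] (c : ZMod W), Tendsto (fun i => ∑ n ∈ (V i).filter (fun n : ℕ => (n : ZMod W) = c),
      (1 - th (Y i) n) ^ (k i 0)) atTop (𝓝 (lam 0 / W)) := by
    intro W _ c
    have h3 := Pool.Agent.Q145.GQ.eqd_sum Nat.Prime Pool.Agent.Q145.GQ.cnt_prime ρ (u 0) X Y (fun i => k i 0) hρ hX hXY hr (hk 0)
      V hV hVX hE W c
    simp_rw [th_eq]
    exact h3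
  set ε' : ℝ := ε / (2 * (|P| + 1)) with hε'
  have hε'0 : 0 < ε' := by positivity
  obtain ⟨w₀, hw₀⟩ := level_dense I.hTh I.hCl I.hAsy I.hPar I.hUex I.hUtwo I.hUthr I.hQd ρ (lam 0) (lam 0) hρ (hlam0 0) (hlam0 0)
    X Y (fun i => k i 0) hPar (b 0) V hV hVX δ hδ hδX hcs (ε' / 2) (by positivity)
  have h2 := hμ (fun x => Pool.Agent.Q145.GP.poi |lam 0 * x| (b 0)) ((poi_cont (b 0)).comp (by fun_prop)) ⟨1, fun x => by
    rw [abs_of_nonneg (Pool.Agent.Q145.GP.poi_nonneg _ (abs_nonneg _) _)]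
    exact poi_le_one _ (abs_nonneg _) _⟩
  have h3 : ∫ x, Pool.Agent.Q145.GP.poi |lam 0 * x| (b 0) ∂μ = ∫ x, Pool.Agent.Q145.GP.poi (lam 0 * x) (b 0) ∂μ := by
    apply integral_congr_ae
    have h3 : ∀ᵐ x ∂μ, x ∉ Set.Iio (0 : ℝ) := measure_eq_zero_iff_ae_notMem.1 hμ0
    filter_upwards [h3] with x hx
    rw [Set.mem_Iio, not_lt] at hx
    rw [abs_of_nonneg (mul_nonneg (hlam0 0).le hx)]
  rw [h3] at h2
  have h4 := (tendsto_order.1 ((h2.sub_const (∫ x, Pool.Agent.Q145.GP.poi (lam 0 * x) (b 0) ∂μ)).abs)).2 (ε' / 2) (by simp; positivity)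
  obtain ⟨w, hw1, hw2⟩ := (h4.and (eventually_ge_atTop w₀)).exists
  filter_upwards [h1, hw₀ w hw2, hX.eventually_ge_atTop 1] with i g1 g2 g3
  have g5 := g1 (V i) (mem_powersetCard.2 ⟨hV i, hVX i⟩)
  have g6 : ∏ l : Fin r, bino (b l.castSucc) (b l.succ) (lam l.succ / lam l.castSucc) = P := by
    rw [hP]
    exact prod_congr rfl fun l _ => by rw [hq l]
  rw [g6, joint_one (V i) (Y i) (K i) (k i 0) (b 0) (hK i 0) (g3.trans (hXY i))] at g5
  have g4 := abs_add_le (Pool.Agent.Q145.GP.freq (Icc 1 (Y i)) (V i) Rp (k i 0) (b 0) -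
      ∫ x, Pool.Agent.Q145.GP.poi |lam 0 * x| (b 0) ∂(chaos ρ (primorial w)))
    (∫ x, Pool.Agent.Q145.GP.poi |lam 0 * x| (b 0) ∂(chaos ρ (primorial w)) - ∫ x, Pool.Agent.Q145.GP.poi (lam 0 * x) (b 0) ∂μ)
  rw [sub_add_sub_cancel] at g4
  have g4' : |Pool.Agent.Q145.GP.freq (Icc 1 (Y i)) (V i) Rp (k i 0) (b 0) - ∫ x, Pool.Agent.Q145.GP.poi (lam 0 * x) (b 0) ∂μ| ≤ ε' := by
    linarith
  have g7 : |Pool.Agent.Q145.GP.freq (Icc 1 (Y i)) (V i) Rp (k i 0) (b 0) * P - (∫ x, Pool.Agent.Q145.GP.poi (lam 0 * x) (b 0) ∂μ) * P| ≤ ε / 2 := by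
    rw [← sub_mul, abs_mul]
    calc _ ≤ ε' * (|P| + 1) := by
          apply mul_le_mul g4' _ (abs_nonneg _) (by positivity)
          linarith
      _ = ε / 2 := by
          rw [hε']
          field_simp
  have g8 := abs_add_le (joint (V i) (Y i) (K i) (k i) b - Pool.Agent.Q145.GP.freq (Icc 1 (Y i)) (V i) Rp (k i 0) (b 0) * P)
    (Pool.Agent.Q145.GP.freq (Icc 1 (Y i)) (V i) Rp (k i 0) (b 0) * P - (∫ x, Pool.Agent.Q145.GP.poi (lam 0 * x) (b 0) ∂μ) * P)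
  rw [sub_add_sub_cancel] at g8
  linarith

end Pool.Agent.Q145.GC

namespace Pool.Agent.Q145.GQ

open Finset MeasureTheory ProbabilityTheory Filter Topology
open Pool.Agent.Q145.GP (poi freq)
open Pool.Agent.Q145.GC (bad cst cst_pos bino poi_lip)

open scoped Classical

/-- the same for sets without correlations -/
theorem process_dense (Q : ℕ → Prop) (h1 : Cnt Q) (h2 : Pr2 Q) (h3 : Tr3 Q) (ρ : ℝ) (hρ : 0 ≤ ρ)
    (r : ℕ) (u : Fin (r + 1) → ℝ) (X Y K : ℕ → ℕ) (k : ℕ → Fin (r + 1) → ℕ)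
    (hX : Tendsto X atTop atTop) (hXY : ∀ i, X i ≤ Y i)
    (hr : Tendsto (fun i => Real.log (X i) / Real.log (Y i)) atTop (𝓝 ρ))
    (hm : ∀ i, Monotone (k i)) (hK : ∀ i l, k i l ≤ K i)
    (hk : ∀ l, Tendsto (fun i => ((k i l : ℝ) - Real.log (X i) * Real.log (Y i)) / Real.log (Y i)) atTop (𝓝 (u l)))
    (V : ℕ → Finset ℕ) (hV : ∀ i, V i ⊆ Icc 1 (Y i)) (hVX : ∀ i, (V i).card = X i)
    (hE : Eqd V X Y)
    (b : Fin (r + 1) → ℕ) (ε : ℝ) (hε : 0 < ε) : ∀ᶠ i in atTop,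
    |joint Q (V i) (Y i) (K i) (k i) b -
      poi (cst ρ * Real.exp (-(u 0))) (b 0) *
        ∏ l : Fin r, bino (b l.castSucc) (b l.succ) (Real.exp (-(u l.succ - u l.castSucc)))| ≤ ε := by
  set lam : Fin (r + 1) → ℝ := fun l => cst ρ * Real.exp (-(u l)) with hlam
  have hc := cst_pos ρ
  have hlam0 : ∀ l, 0 < lam l := fun l => mul_pos hc (Real.exp_pos _)
  have hmean : ∀ l, Tendsto (fun i => mean Q (X i) (Y i) (k i l)) atTop (𝓝 (lam l)) := by
    intro l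
    have h1 := mean_lim Q h1 ρ (u l) X Y (fun i => k i l) hρ hX hXY hr (hk l)
    unfold mean
    rw [hlam]
    simp only
    rw [mul_comm (cst ρ)]
    exact h1
  set P : ℝ := ∏ l : Fin r, bino (b l.castSucc) (b l.succ) (Real.exp (-(u l.succ - u l.castSucc))) with hP
  have hq : ∀ l : Fin r, lam l.succ / lam l.castSucc = Real.exp (-(u l.succ - u l.castSucc)) := by
    intro l
    rw [hlam]
    simp only
    rw [mul_div_mul_left _ _ hc.ne', ← Real.exp_sub]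
    congr 1
    ring
  have g1 := proc Q (thb Q h1) (pairQ_of Q h2) r lam X Y K k hX hXY hm hK hlam0 hmean b (ε / 2) (by positivity)
  set ε' : ℝ := ε / (4 * (|P| + 1)) with hε'
  have hε'0 : 0 < ε' := by positivity
  obtain ⟨C, hC1, g2⟩ := one_all Q h1 h2 h3 ρ (u 0) hρ X Y (fun i => k i 0) hX hXY hr (hk 0) (b 0) ε' hε'0
  have hs := eqd_sum Q h1 ρ (u 0) X Y (fun i => k i 0) hρ hX hXY hr (hk 0) V hV hVX hE 1 0
  have hf : ∀ i, (V i).filter (fun n : ℕ => (n : ZMod 1) = 0) = V i := by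
    intro i
    apply filter_true_of_mem
    intro n _
    exact Subsingleton.elim _ _
  simp_rw [hf] at hs
  rw [Nat.cast_one, div_one] at hs
  have v2 : ∀ᶠ i in atTop, |∑ n ∈ V i, (1 - th Q (Y i) n) ^ (k i 0) - lam 0| ≤ ε' := by
    have := (tendsto_order.1 ((hs.sub_const (lam 0)).abs)).2 ε' (by simp [hlam]; positivity)
    exact this.mono fun i h => h.le
  filter_upwards [g1, g2, v2, hX.eventually_ge_atTop 1] with i f1 f2 f4 gX
  have gY1 : 1 ≤ Y i := gX.trans (hXY i)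
  have hVm : V i ∈ powersetCard (X i) (Icc 1 (Y i)) := mem_powersetCard.2 ⟨hV i, hVX i⟩
  have g5 := f1 (V i) hVm
  have g6 : ∏ l : Fin r, bino (b l.castSucc) (b l.succ) (lam l.succ / lam l.castSucc) = P := by
    rw [hP]
    exact prod_congr rfl fun l _ => by rw [hq l]
  rw [g6, joint_one Q (V i) (Y i) (K i) (k i 0) (b 0) (hK i 0) gY1] at g5
  have g7 := f2.2 (V i) hVm
  set T : ℝ := ∑ n ∈ V i, (1 - th Q (Y i) n) ^ (k i 0) with hT
  have hT0 : 0 ≤ T := sum_nonneg fun n _ => pow_nonneg (by linarith [th_le_one Q (Y i) n]) _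
  have g10 : |poi T (b 0) - poi (lam 0) (b 0)| ≤ ε' := by
    have := poi_lip (b 0) T (lam 0) hT0 (hlam0 0).le
    linarith
  have g11 : |freq (Icc 1 (Y i)) (V i) (Rq Q) (k i 0) (b 0) - poi (lam 0) (b 0)| ≤ 2 * ε' := by
    have := abs_add_le (freq (Icc 1 (Y i)) (V i) (Rq Q) (k i 0) (b 0) - poi T (b 0)) (poi T (b 0) - poi (lam 0) (b 0))
    rw [sub_add_sub_cancel] at this
    linarith
  have g12 : |freq (Icc 1 (Y i)) (V i) (Rq Q) (k i 0) (b 0) * P - poi (lam 0) (b 0) * P| ≤ ε / 2 := by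
    rw [← sub_mul, abs_mul]
    calc |freq (Icc 1 (Y i)) (V i) (Rq Q) (k i 0) (b 0) - poi (lam 0) (b 0)| * |P| ≤ 2 * ε' * (|P| + 1) := by
          apply mul_le_mul g11 _ (abs_nonneg _) (by positivity)
          linarith
      _ = ε / 2 := by
          rw [hε']
          field_simp
          norm_num
  have g13 := abs_add_le (joint Q (V i) (Y i) (K i) (k i) b - freq (Icc 1 (Y i)) (V i) (Rq Q) (k i 0) (b 0) * P)
    (freq (Icc 1 (Y i)) (V i) (Rq Q) (k i 0) (b 0) * P - poi (lam 0) (b 0) * P)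
  rw [sub_add_sub_cancel] at g13
  linarith

end Pool.Agent.Q145.GQ
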