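import Pool.Agent.Q145.GC.Count
import Pool.Agent.Q145.GP.Law2

set_option autoImplicit false
set_option maxHeartbeats 4000000

/-! # The frequencies given the classes of the shifts -/

namespace Pool.Agent.Q145.GC

open Finset
open Pool.Agent.Q145.RA (seqs card_seqs surv card_filter_inst)
open Pool.Agent.Q145.LD (mem_seqs)
open Pool.Agent.Q145.GP (alt alt_bounds pal poi freq poi_nonneg)

open scoped Classical

variable {α β T : Type}

/-- the sequences with prescribed classes -/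
noncomputable def fb (S : Finset β) (τ : β → T) {K : ℕ} (t : Fin K → T) : Finset (Fin K → β) :=
  Fintype.piFinset (fun i => cl S τ (t i))

/-- the proportion of the sequences with classes `t` and `j` missed points -/
noncomputable def cfr (S : Finset β) (τ : β → T) (V : Finset α) (R : α → β → Prop) {K : ℕ} (t : Fin K → T) (j : ℕ) : ℝ :=
  (((fb S τ t).filter (fun s => surv R V s = j)).card : ℝ) / (S.card : ℝ) ^ K

/-- binomial moments given the classes -/
noncomputable def cmo (S : Finset β) (τ : β → T) (V : Finset α) (R : α → β → Prop) {K : ℕ} (t : Fin K → T) (r : ℕ) : ℝ :=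
  ∑ H ∈ powersetCard r V, ∏ i, fm S τ R H (t i)

/-- probability of the classes -/
noncomputable def pm (S : Finset β) (τ : β → T) {K : ℕ} (t : Fin K → T) : ℝ := ∏ i, qd S τ (t i)

/-- conditional probability that `n` is missed -/
noncomputable def ell (S : Finset β) (τ : β → T) (R : α → β → Prop) {K : ℕ} (t : Fin K → T) (n : α) : ℝ :=
  ∏ i, (1 - ud S τ R n (t i))

/-- conditional mean -/
noncomputable def cme (S : Finset β) (τ : β → T) (V : Finset α) (R : α → β → Prop) {K : ℕ} (t : Fin K → T) : ℝ :=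
  ∑ n ∈ V, ell S τ R t n

theorem pm_nonneg (S : Finset β) (τ : β → T) {K : ℕ} (t : Fin K → T) : 0 ≤ pm S τ t :=
  prod_nonneg fun _ _ => qd_nonneg _ _ _

theorem ell_nonneg (S : Finset β) (τ : β → T) (R : α → β → Prop) {K : ℕ} (t : Fin K → T) (n : α) : 0 ≤ ell S τ R t n :=
  prod_nonneg fun i _ => by linarith [ud_le_one S τ R n (t i)]

theorem cme_nonneg (S : Finset β) (τ : β → T) (V : Finset α) (R : α → β → Prop) {K : ℕ} (t : Fin K → T) : 0 ≤ cme S τ V R t :=
  sum_nonneg fun n _ => ell_nonneg _ _ _ _ _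

theorem moment_eq (S : Finset β) (τ : β → T) (V : Finset α) (R : α → β → Prop) {K : ℕ} (t : Fin K → T) (r : ℕ) :
    (∑ s ∈ fb S τ t, ((surv R V s).choose r : ℝ)) / (S.card : ℝ) ^ K = cmo S τ V R t r := by
  have h1 : ∀ s ∈ fb S τ t, ((surv R V s).choose r : ℝ) = ∑ H ∈ powersetCard r V, if ∀ n ∈ H, ∀ i, ¬ R n (s i) then (1 : ℝ) else 0 := by
    intro s _
    unfold surv
    rw [← card_powersetCard]
    have : (∑ H ∈ powersetCard r V, if ∀ n ∈ H, ∀ i, ¬ R n (s i) then (1 : ℝ) else 0) =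
        (((powersetCard r V).filter (fun H => ∀ n ∈ H, ∀ i, ¬ R n (s i))).card : ℝ) := by
      rw [card_filter]
      push_cast
      rfl
    rw [this]
    congr 2
    ext H
    rw [mem_filter, mem_powersetCard, mem_powersetCard]
    constructor
    · rintro ⟨h2, h3⟩
      exact ⟨⟨h2.trans (filter_subset _ _), h3⟩, fun n hn => (mem_filter.1 (h2 hn)).2⟩
    · rintro ⟨⟨h2, h3⟩, h4⟩
      exact ⟨fun n hn => mem_filter.2 ⟨h2 hn, h4 n hn⟩, h3⟩
  rw [sum_congr rfl h1, sum_comm, sum_div]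
  unfold cmo
  apply sum_congr rfl
  intro H _
  have h2 : (∑ s ∈ fb S τ t, if ∀ n ∈ H, ∀ i, ¬ R n (s i) then (1 : ℝ) else 0) =
      (((fb S τ t).filter (fun s => ∀ n ∈ H, ∀ i, ¬ R n (s i))).card : ℝ) := by
    rw [card_filter]
    push_cast
    rfl
  have h3 : (fb S τ t).filter (fun s => ∀ n ∈ H, ∀ i, ¬ R n (s i)) =
      Fintype.piFinset (fun i : Fin K => (cl S τ (t i)).filter (fun a => ∀ n ∈ H, ¬ R n a)) := by
    ext s
    unfold fb
    rw [mem_filter, Fintype.mem_piFinset, Fintype.mem_piFinset]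
    constructor
    · rintro ⟨h3, h4⟩ i
      exact mem_filter.2 ⟨h3 i, fun n hn => h4 n hn i⟩
    · intro h3
      exact ⟨fun i => (mem_filter.1 (h3 i)).1, fun n hn i => (mem_filter.1 (h3 i)).2 n hn⟩
  rw [h2, h3, Fintype.card_piFinset]
  unfold fm
  rw [prod_div_distrib, prod_const, card_univ, Fintype.card_fin]
  push_cast
  rfl

theorem cfr_nonneg (S : Finset β) (τ : β → T) (V : Finset α) (R : α → β → Prop) {K : ℕ} (t : Fin K → T) (j : ℕ) :
    0 ≤ cfr S τ V R t j := by unfold cfr; positivity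

theorem cfr_le_pm (S : Finset β) (τ : β → T) (V : Finset α) (R : α → β → Prop) {K : ℕ} (t : Fin K → T) (j : ℕ) :
    cfr S τ V R t j ≤ pm S τ t := by
  have h1 : pm S τ t = ((fb S τ t).card : ℝ) / (S.card : ℝ) ^ K := by
    unfold pm qd fb
    rw [Fintype.card_piFinset, prod_div_distrib, prod_const, card_univ, Fintype.card_fin]
    push_cast
    rfl
  rw [h1]
  unfold cfr
  apply div_le_div_of_nonneg_right _ (by positivity)
  exact_mod_cast card_le_card (filter_subset _ _)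

theorem cfr_bounds (S : Finset β) (τ : β → T) (V : Finset α) (R : α → β → Prop) {K : ℕ} (t : Fin K → T) (j m : ℕ) :
    cfr S τ V R t j ≤ ∑ i ∈ range (2 * m + 1), (-1 : ℝ) ^ i * ((j + i).choose j : ℝ) * cmo S τ V R t (j + i) ∧
    ∑ i ∈ range (2 * m), (-1 : ℝ) ^ i * ((j + i).choose j : ℝ) * cmo S τ V R t (j + i) ≤ cfr S τ V R t j := by
  have h1 : ∀ M : ℕ, ∑ i ∈ range M, (-1 : ℝ) ^ i * ((j + i).choose j : ℝ) * cmo S τ V R t (j + i) =
      (∑ s ∈ fb S τ t, alt (surv R V s) j M) / (S.card : ℝ) ^ K := by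
    intro M
    unfold alt
    rw [sum_comm, sum_div]
    apply sum_congr rfl
    intro i _
    rw [← mul_sum, mul_div_assoc, moment_eq]
  have h2 : cfr S τ V R t j = (∑ s ∈ fb S τ t, if surv R V s = j then (1 : ℝ) else 0) / (S.card : ℝ) ^ K := by
    unfold cfr
    rw [card_filter]
    push_cast
    rfl
  have hS : (0 : ℝ) ≤ (S.card : ℝ) ^ K := pow_nonneg (Nat.cast_nonneg _) _
  rw [h1, h1, h2]
  exact ⟨div_le_div_of_nonneg_right (sum_le_sum fun s _ => (alt_bounds _ _ _).1) hS,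
    div_le_div_of_nonneg_right (sum_le_sum fun s _ => (alt_bounds _ _ _).2) hS⟩

theorem prod_gm (S : Finset β) (τ : β → T) (V : Finset α) (R : α → β → Prop) {K : ℕ} (t : Fin K → T) (r : ℕ) :
    ∑ H ∈ powersetCard r V, ∏ i, gm S τ R H (t i) = pm S τ t * es V (ell S τ R t) r := by
  unfold es pm ell gm
  rw [mul_sum]
  apply sum_congr rfl
  intro H _
  rw [prod_mul_distrib, prod_comm]

/-- distance of the two binomial moments -/
noncomputable def xd (S : Finset β) (τ : β → T) (V : Finset α) (R : α → β → Prop) {K : ℕ} (t : Fin K → T) (r : ℕ) : ℝ :=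
  |cmo S τ V R t r - ∑ H ∈ powersetCard r V, ∏ i, gm S τ R H (t i)|

theorem poi_le_one (L : ℝ) (hL : 0 ≤ L) (j : ℕ) : poi L j ≤ 1 := by
  unfold poi
  have h1 : L ^ j / j.factorial ≤ Real.exp L := Real.pow_div_factorial_le_exp L hL j
  have h2 : Real.exp (-L) * Real.exp L = 1 := by rw [← Real.exp_add]; simp
  calc Real.exp (-L) * L ^ j / j.factorial = Real.exp (-L) * (L ^ j / j.factorial) := by ring
    _ ≤ Real.exp (-L) * Real.exp L := mul_le_mul_of_nonneg_left h1 (Real.exp_pos _).le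
    _ = 1 := h2

theorem es_bd (V : Finset α) (x : α → ℝ) (hx : ∀ n ∈ V, 0 ≤ x n) (A : ℝ) (hA : 1 ≤ A) (hL : ∑ n ∈ V, x n ≤ A) (r : ℕ) :
    |es V x r - (∑ n ∈ V, x n) ^ r / r.factorial| ≤ A ^ r * ∑ n ∈ V, x n ^ 2 := by
  have hQ : 0 ≤ ∑ n ∈ V, x n ^ 2 := sum_nonneg fun _ _ => sq_nonneg _
  have hA0 : 0 ≤ A := by linarith
  rcases r with _ | _ | r
  · rw [es_zero]
    simpa using hQ
  · rw [zero_add, es_one]
    simp only [pow_one, Nat.factorial_one, Nat.cast_one, div_one, sub_self, abs_zero]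
    positivity
  · refine (es_close V x hx r).trans (mul_le_mul_of_nonneg_right ?_ hQ)
    have h0 : 0 ≤ ∑ n ∈ V, x n := sum_nonneg hx
    calc (∑ n ∈ V, x n) ^ r ≤ A ^ r := pow_le_pow_left₀ h0 hL r
      _ ≤ A ^ (r + 2) := pow_le_pow_right₀ hA (by omega)

theorem cls_close (S : Finset β) (τ : β → T) (V : Finset α) (R : α → β → Prop) {K : ℕ} (t : Fin K → T) (j m : ℕ)
    (A ε : ℝ) (hA : 1 ≤ A) (hL : cme S τ V R t ≤ A) (hm : ∀ M, 2 * m ≤ M → |pal (cme S τ V R t) j M - poi (cme S τ V R t) j| ≤ ε) :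
    |cfr S τ V R t j - pm S τ t * poi (cme S τ V R t) j| ≤
      ∑ i ∈ range (2 * m + 1), ((j + i).choose j : ℝ) * (xd S τ V R t (j + i) +
        A ^ (j + i) * (pm S τ t * ∑ n ∈ V, ell S τ R t n ^ 2)) + pm S τ t * ε := by
  have hp := pm_nonneg S τ t
  set L := cme S τ V R t with hLd
  have key : ∀ M : ℕ, M ≤ 2 * m + 1 →
      |∑ i ∈ range M, (-1 : ℝ) ^ i * ((j + i).choose j : ℝ) * cmo S τ V R t (j + i) - pm S τ t * pal L j M| ≤
      ∑ i ∈ range (2 * m + 1), ((j + i).choose j : ℝ) * (xd S τ V R t (j + i) +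
        A ^ (j + i) * (pm S τ t * ∑ n ∈ V, ell S τ R t n ^ 2)) := by
    intro M hM
    have h1 : ∑ i ∈ range M, (-1 : ℝ) ^ i * ((j + i).choose j : ℝ) * cmo S τ V R t (j + i) - pm S τ t * pal L j M =
        ∑ i ∈ range M, (-1 : ℝ) ^ i * ((j + i).choose j : ℝ) * (cmo S τ V R t (j + i) - pm S τ t * (L ^ (j + i) / (j + i).factorial)) := by
      unfold pal
      rw [mul_sum, ← sum_sub_distrib]
      apply sum_congr rfl
      intro i _
      ring
    rw [h1]
    refine (abs_sum_le_sum_abs _ _).trans ?_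
    have h2 : ∀ i, |(-1 : ℝ) ^ i * ((j + i).choose j : ℝ) * (cmo S τ V R t (j + i) - pm S τ t * (L ^ (j + i) / (j + i).factorial))| ≤
        ((j + i).choose j : ℝ) * (xd S τ V R t (j + i) + A ^ (j + i) * (pm S τ t * ∑ n ∈ V, ell S τ R t n ^ 2)) := by
      intro i
      rw [abs_mul, abs_mul, abs_pow, abs_neg, abs_one, one_pow, one_mul, Nat.abs_cast]
      apply mul_le_mul_of_nonneg_left _ (Nat.cast_nonneg _)
      have h3 : cmo S τ V R t (j + i) - pm S τ t * (L ^ (j + i) / (j + i).factorial) =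
          (cmo S τ V R t (j + i) - ∑ H ∈ powersetCard (j + i) V, ∏ i, gm S τ R H (t i)) +
          pm S τ t * (es V (ell S τ R t) (j + i) - L ^ (j + i) / (j + i).factorial) := by
        rw [prod_gm]
        ring
      rw [h3]
      refine (abs_add_le _ _).trans ?_
      have h4 := es_bd V (ell S τ R t) (fun n _ => ell_nonneg _ _ _ _ _) A hA hL (j + i)
      rw [abs_mul, abs_of_nonneg hp]
      have h5 := mul_le_mul_of_nonneg_left h4 hp
      have h6 : pm S τ t * (A ^ (j + i) * ∑ n ∈ V, ell S τ R t n ^ 2) =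
        A ^ (j + i) * (pm S τ t * ∑ n ∈ V, ell S τ R t n ^ 2) := by ring
      unfold xd
      have h7 : ∑ n ∈ V, ell S τ R t n = L := rfl
      rw [h7] at h5
      linarith
    refine (sum_le_sum fun i _ => h2 i).trans ?_
    apply sum_le_sum_of_subset_of_nonneg (range_mono hM)
    intro i _ _
    apply mul_nonneg (Nat.cast_nonneg _)
    apply add_nonneg (abs_nonneg _)
    apply mul_nonneg (pow_nonneg (by linarith) _)
    exact mul_nonneg hp (sum_nonneg fun _ _ => sq_nonneg _)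
  obtain ⟨b1, b2⟩ := cfr_bounds S τ V R t j m
  have k1 := abs_le.1 (key (2 * m + 1) le_rfl)
  have k2 := abs_le.1 (key (2 * m) (by omega))
  have p1 := abs_le.1 (hm (2 * m + 1) (by omega))
  have p2 := abs_le.1 (hm (2 * m) le_rfl)
  have q1 : pm S τ t * pal L j (2 * m + 1) ≤ pm S τ t * (poi L j + ε) := mul_le_mul_of_nonneg_left (by linarith) hp
  have q2 : pm S τ t * (poi L j - ε) ≤ pm S τ t * pal L j (2 * m) := mul_le_mul_of_nonneg_left (by linarith) hp
  rw [abs_le]
  constructor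
  · linarith [k2.1]
  · linarith [k1.2]

variable [Fintype T]

theorem freq_eq (S : Finset β) (τ : β → T) (V : Finset α) (R : α → β → Prop) (K j : ℕ) :
    freq S V R K j = ∑ t : Fin K → T, cfr S τ V R t j := by
  unfold freq cfr
  rw [← sum_div]
  congr 1
  rw [← Nat.cast_sum]
  congr 1
  rw [card_eq_sum_card_fiberwise (f := fun s => fun i => τ (s i)) (t := (univ : Finset (Fin K → T))) (fun x _ => mem_univ _)]
  apply sum_congr rfl
  intro t _
  congr 1
  ext s
  unfold fb cl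
  simp only [mem_filter, mem_seqs, Fintype.mem_piFinset]
  constructor
  · rintro ⟨⟨h1, h2⟩, h3⟩
    exact ⟨fun i => ⟨h1 i, congrFun h3 i⟩, h2⟩
  · rintro ⟨h1, h2⟩
    exact ⟨⟨fun i => (h1 i).1, h2⟩, funext fun i => (h1 i).2⟩

theorem sum_pm (S : Finset β) (hS : S.Nonempty) (τ : β → T) (K : ℕ) : ∑ t : Fin K → T, pm S τ t = 1 := by
  unfold pm
  rw [← Fintype.sum_pow, sum_qd S hS, one_pow]

theorem sum_pm_cme (S : Finset β) (hS : S.Nonempty) (τ : β → T) (V : Finset α) (R : α → β → Prop) (K : ℕ) :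
    ∑ t : Fin K → T, pm S τ t * cme S τ V R t = ∑ n ∈ V, (1 - dg S R n) ^ K := by
  have h1 : ∀ t : Fin K → T, pm S τ t * cme S τ V R t = ∑ n ∈ V, ∏ i, (qd S τ (t i) * (1 - ud S τ R n (t i))) := by
    intro t
    unfold pm cme ell
    rw [mul_sum]
    apply sum_congr rfl
    intro n _
    rw [prod_mul_distrib]
  rw [sum_congr rfl fun t _ => h1 t, sum_comm]
  apply sum_congr rfl
  intro n _
  refine (Fintype.sum_pow (fun t => qd S τ t * (1 - ud S τ R n t)) K).symm.trans ?_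
  congr 1
  have h2 : ∀ t : T, qd S τ t * (1 - ud S τ R n t) = qd S τ t - jn S τ R {n} t := by
    intro t
    rw [← qd_mul_ud]
    ring
  rw [sum_congr rfl fun t _ => h2 t, sum_sub_distrib, sum_qd S hS, sum_jn_one]

theorem sum_pm_sq (S : Finset β) (τ : β → T) (V : Finset α) (R : α → β → Prop) (K : ℕ) :
    ∑ t : Fin K → T, pm S τ t * ∑ n ∈ V, ell S τ R t n ^ 2 = ∑ n ∈ V, (∑ t : T, qd S τ t * (1 - ud S τ R n t) ^ 2) ^ K := by
  have h1 : ∀ t : Fin K → T, pm S τ t * ∑ n ∈ V, ell S τ R t n ^ 2 =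
      ∑ n ∈ V, ∏ i, (qd S τ (t i) * (1 - ud S τ R n (t i)) ^ 2) := by
    intro t
    unfold pm ell
    rw [mul_sum]
    apply sum_congr rfl
    intro n _
    rw [prod_mul_distrib, prod_pow]
  rw [sum_congr rfl fun t _ => h1 t, sum_comm]
  apply sum_congr rfl
  intro n _
  exact (Fintype.sum_pow (fun t => qd S τ t * (1 - ud S τ R n t) ^ 2) K).symm

theorem sum_xd (S : Finset β) (hS : S.Nonempty) (τ : β → T) (V : Finset α) (R : α → β → Prop) (K r : ℕ) :
    ∑ t : Fin K → T, xd S τ V R t r ≤ ∑ H ∈ powersetCard r V,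
      K * (∑ A ∈ powersetCard 2 H, d2 S τ R A + ∑ A ∈ powersetCard 3 H, c2 S τ R A) *
        (Real.exp 1 * Real.exp (-(K * (∑ n ∈ H, dg S R n - ∑ A ∈ powersetCard 2 H, c2 S τ R A)))) := by
  have h1 : ∀ t : Fin K → T, xd S τ V R t r ≤ ∑ H ∈ powersetCard r V, |∏ i, fm S τ R H (t i) - ∏ i, gm S τ R H (t i)| := by
    intro t
    unfold xd cmo
    rw [← sum_sub_distrib]
    exact abs_sum_le_sum_abs _ _
  refine (sum_le_sum fun t _ => h1 t).trans ?_
  rw [sum_comm]
  apply sum_le_sum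
  intro H _
  exact prod_diff K (fun t => fm S τ R H t) (fun t => gm S τ R H t) (fun t => fm_nonneg S τ R H t)
    (fun t => gm_nonneg S τ R H t) (∑ A ∈ powersetCard 2 H, d2 S τ R A + ∑ A ∈ powersetCard 3 H, c2 S τ R A)
    (∑ n ∈ H, dg S R n - ∑ A ∈ powersetCard 2 H, c2 S τ R A)
    (sum_fg_diff S τ R H) (sum_fg_max S hS τ R H)

/-- **Comparison** of the frequency with the mixture. -/
theorem compare (S : Finset β) (hS : S.Nonempty) (τ : β → T) (V : Finset α) (R : α → β → Prop) (K j m : ℕ)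
    (A ε : ℝ) (hA : 1 ≤ A) (hε : 0 ≤ ε) (hm : ∀ L : ℝ, 0 ≤ L → L ≤ A → ∀ M, 2 * m ≤ M → |pal L j M - poi L j| ≤ ε) :
    |freq S V R K j - ∑ t : Fin K → T, pm S τ t * poi (cme S τ V R t) j| ≤
      ∑ i ∈ range (2 * m + 1), ((j + i).choose j : ℝ) * (∑ t : Fin K → T, xd S τ V R t (j + i) +
        A ^ (j + i) * ∑ n ∈ V, (∑ t : T, qd S τ t * (1 - ud S τ R n t) ^ 2) ^ K) + ε +
      (∑ n ∈ V, (1 - dg S R n) ^ K) / A := by
  rw [freq_eq S τ, ← sum_sub_distrib]
  refine (abs_sum_le_sum_abs _ _).trans ?_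
  have hA0 : 0 < A := by linarith
  have h1 : ∀ t : Fin K → T, |cfr S τ V R t j - pm S τ t * poi (cme S τ V R t) j| ≤
      ∑ i ∈ range (2 * m + 1), ((j + i).choose j : ℝ) * (xd S τ V R t (j + i) +
        A ^ (j + i) * (pm S τ t * ∑ n ∈ V, ell S τ R t n ^ 2)) + pm S τ t * ε + pm S τ t * cme S τ V R t / A := by
    intro t
    have hp := pm_nonneg S τ t
    have hc := cme_nonneg S τ V R t
    have hpc : 0 ≤ pm S τ t * cme S τ V R t / A := by positivity
    by_cases h : cme S τ V R t ≤ A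
    · have := cls_close S τ V R t j m A ε hA h (hm _ hc h)
      linarith
    · push Not at h
      have h2 : 0 ≤ ∑ i ∈ range (2 * m + 1), ((j + i).choose j : ℝ) * (xd S τ V R t (j + i) +
          A ^ (j + i) * (pm S τ t * ∑ n ∈ V, ell S τ R t n ^ 2)) := by
        apply sum_nonneg
        intro i _
        apply mul_nonneg (Nat.cast_nonneg _)
        apply add_nonneg (abs_nonneg _)
        apply mul_nonneg (pow_nonneg hA0.le _)
        exact mul_nonneg hp (sum_nonneg fun _ _ => sq_nonneg _)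
      have h3 : pm S τ t ≤ pm S τ t * cme S τ V R t / A := by
        rw [le_div_iff₀ hA0]
        exact mul_le_mul_of_nonneg_left h.le hp
      have h4 : |cfr S τ V R t j - pm S τ t * poi (cme S τ V R t) j| ≤ pm S τ t := by
        have e1 := cfr_nonneg S τ V R t j
        have e2 := cfr_le_pm S τ V R t j
        have e3 : 0 ≤ pm S τ t * poi (cme S τ V R t) j := mul_nonneg hp (poi_nonneg _ hc _)
        have e4 : pm S τ t * poi (cme S τ V R t) j ≤ pm S τ t * 1 := mul_le_mul_of_nonneg_left (poi_le_one _ hc _) hp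
        rw [abs_le]
        constructor <;> linarith
      have h5 : 0 ≤ pm S τ t * ε := mul_nonneg hp hε
      linarith
  refine (sum_le_sum fun t _ => h1 t).trans (le_of_eq ?_)
  rw [sum_add_distrib, sum_add_distrib, ← sum_mul, sum_pm S hS, one_mul, ← sum_div, sum_pm_cme S hS, sum_comm]
  congr 2
  apply sum_congr rfl
  intro i _
  rw [← mul_sum, sum_add_distrib, ← mul_sum, sum_pm_sq]

end Pool.Agent.Q145.GC
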