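import Mathlib

set_option autoImplicit false
set_option maxHeartbeats 4000000

/-! # Differences of products, elementary symmetric sums, Bonferroni inequalities for products -/

namespace Pool.Agent.Q145.GC

open Finset

open scoped Classical

variable {α : Type}

/-! ## Differences of products -/

theorem abs_prod_sub {ι : Type} (s : Finset ι) (f g : ι → ℝ) (hf : ∀ i ∈ s, 0 ≤ f i) (hg : ∀ i ∈ s, 0 ≤ g i) :
    |∏ i ∈ s, f i - ∏ i ∈ s, g i| ≤ ∏ i ∈ s, max (f i) (g i) - ∏ i ∈ s, min (f i) (g i) := by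
  have h1 : ∏ i ∈ s, f i ≤ ∏ i ∈ s, max (f i) (g i) := prod_le_prod hf fun i _ => le_max_left _ _
  have h2 : ∏ i ∈ s, g i ≤ ∏ i ∈ s, max (f i) (g i) := prod_le_prod hg fun i _ => le_max_right _ _
  have h3 : ∏ i ∈ s, min (f i) (g i) ≤ ∏ i ∈ s, f i := prod_le_prod (fun i hi => le_min (hf i hi) (hg i hi)) fun i _ => min_le_left _ _
  have h4 : ∏ i ∈ s, min (f i) (g i) ≤ ∏ i ∈ s, g i := prod_le_prod (fun i hi => le_min (hf i hi) (hg i hi)) fun i _ => min_le_right _ _
  rw [abs_le]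
  constructor <;> linarith

theorem pow_sub_le (A B : ℝ) (hB : 0 ≤ B) (hAB : B ≤ A) (K : ℕ) : A ^ K - B ^ K ≤ K * (A - B) * A ^ (K - 1) := by
  induction K with
  | zero => simp
  | succ K ih =>
    have hA : 0 ≤ A := hB.trans hAB
    rw [Nat.add_sub_cancel]
    rcases Nat.eq_zero_or_pos K with h | h
    · subst h
      simp
    · have e1 : A ^ (K + 1) - B ^ (K + 1) = A * (A ^ K - B ^ K) + (A - B) * B ^ K := by ring
      have e2 : A * (K * (A - B) * A ^ (K - 1)) = K * (A - B) * A ^ K := by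
        have : A ^ K = A ^ (K - 1) * A := by rw [← pow_succ, Nat.sub_add_cancel h]
        rw [this]
        ring
      have e3 : A * (A ^ K - B ^ K) ≤ K * (A - B) * A ^ K := by
        rw [← e2]
        exact mul_le_mul_of_nonneg_left ih hA
      have e4 : (A - B) * B ^ K ≤ (A - B) * A ^ K :=
        mul_le_mul_of_nonneg_left (pow_le_pow_left₀ hB hAB K) (by linarith)
      rw [e1]
      push_cast
      nlinarith

theorem pow_le_exp (A : ℝ) (hA : 0 ≤ A) (K : ℕ) : A ^ (K - 1) ≤ Real.exp 1 * Real.exp (-(K * (1 - A))) := by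
  rcases Nat.eq_zero_or_pos K with h | h
  · subst h
    simp
  · have h1 : A ≤ Real.exp (-(1 - A)) := by
      have := Real.add_one_le_exp (-(1 - A))
      linarith
    calc A ^ (K - 1) ≤ Real.exp (-(1 - A)) ^ (K - 1) := pow_le_pow_left₀ hA h1 _
      _ = Real.exp (((K - 1 : ℕ) : ℝ) * (-(1 - A))) := by rw [← Real.exp_nat_mul]
      _ ≤ Real.exp (1 + -(K * (1 - A))) := by
          apply Real.exp_le_exp.2
          rw [Nat.cast_sub h]
          push_cast
          nlinarith
      _ = _ := by rw [Real.exp_add]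

theorem prod_diff {T : Type} [Fintype T] (K : ℕ) (f g : T → ℝ) (hf : ∀ t, 0 ≤ f t) (hg : ∀ t, 0 ≤ g t) (D E : ℝ)
    (hD : ∑ t, |f t - g t| ≤ D) (hE : E ≤ 1 - ∑ t, max (f t) (g t)) :
    ∑ t : Fin K → T, |∏ i, f (t i) - ∏ i, g (t i)| ≤ K * D * (Real.exp 1 * Real.exp (-(K * E))) := by
  have h1 : ∑ t : Fin K → T, |∏ i, f (t i) - ∏ i, g (t i)| ≤
      (∑ t, max (f t) (g t)) ^ K - (∑ t, min (f t) (g t)) ^ K := by
    rw [Fintype.sum_pow, Fintype.sum_pow, ← sum_sub_distrib]
    exact sum_le_sum fun t _ => abs_prod_sub univ _ _ (fun i _ => hf _) (fun i _ => hg _)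
  set A := ∑ t, max (f t) (g t) with hA
  set B := ∑ t, min (f t) (g t) with hB
  have hB0 : 0 ≤ B := sum_nonneg fun t _ => le_min (hf t) (hg t)
  have hAB : B ≤ A := sum_le_sum fun t _ => min_le_max
  have hA0 : 0 ≤ A := hB0.trans hAB
  have h2 : A - B = ∑ t, |f t - g t| := by
    rw [hA, hB, ← sum_sub_distrib]
    exact sum_congr rfl fun t _ => max_sub_min_eq_abs' (f t) (g t)
  have h3 : A - B ≤ D := by rw [h2]; exact hD
  have h4 : A ^ (K - 1) ≤ Real.exp 1 * Real.exp (-(K * E)) := by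
    refine (pow_le_exp A hA0 K).trans (mul_le_mul_of_nonneg_left (Real.exp_le_exp.2 ?_) (Real.exp_pos _).le)
    have : (K : ℝ) * E ≤ K * (1 - A) := mul_le_mul_of_nonneg_left hE (Nat.cast_nonneg _)
    linarith
  refine h1.trans ((pow_sub_le A B hB0 hAB K).trans ?_)
  have hK : (0 : ℝ) ≤ K := Nat.cast_nonneg K
  have hD0 : 0 ≤ A - B := by linarith
  calc K * (A - B) * A ^ (K - 1) ≤ K * D * A ^ (K - 1) := by
        apply mul_le_mul_of_nonneg_right _ (pow_nonneg hA0 _)
        exact mul_le_mul_of_nonneg_left h3 hK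
    _ ≤ _ := by
        apply mul_le_mul_of_nonneg_left h4
        exact mul_nonneg hK (hD0.trans h3)

/-! ## Elementary symmetric sums -/

/-- elementary symmetric sums -/
noncomputable def es (V : Finset α) (x : α → ℝ) (r : ℕ) : ℝ := ∑ H ∈ powersetCard r V, ∏ n ∈ H, x n

theorem es_zero (V : Finset α) (x : α → ℝ) : es V x 0 = 1 := by simp [es]

theorem es_one (V : Finset α) (x : α → ℝ) : es V x 1 = ∑ n ∈ V, x n := by
  unfold es
  rw [powersetCard_one, sum_map]
  simp

theorem es_nonneg (V : Finset α) (x : α → ℝ) (hx : ∀ n ∈ V, 0 ≤ x n) (r : ℕ) : 0 ≤ es V x r :=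
  sum_nonneg fun H hH => prod_nonneg fun n hn => hx n ((mem_powersetCard.1 hH).1 hn)

theorem es_insert (V : Finset α) (x : α → ℝ) (a : α) (ha : a ∉ V) (r : ℕ) :
    es (insert a V) x (r + 1) = es V x (r + 1) + x a * es V x r := by
  unfold es
  rw [powersetCard_succ_insert ha, sum_union, sum_image, mul_sum]
  · congr 1
    apply sum_congr rfl
    intro H hH
    rw [prod_insert]
    intro h
    exact ha ((mem_powersetCard.1 hH).1 h)
  · intro H hH H' hH' h
    have h1 : a ∉ H := fun h => ha ((mem_powersetCard.1 hH).1 h)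
    have h2 : a ∉ H' := fun h => ha ((mem_powersetCard.1 hH').1 h)
    have := congrArg (fun s => s.erase a) h
    simpa [erase_insert h1, erase_insert h2] using this
  · rw [disjoint_left]
    intro H hH hH'
    obtain ⟨H', _, rfl⟩ := mem_image.1 hH'
    exact ha ((mem_powersetCard.1 hH).1 (mem_insert_self _ _))

theorem pow_taylor (L x : ℝ) (hL : 0 ≤ L) (hx : 0 ≤ x) (r : ℕ) :
    L ^ (r + 2) + (r + 2) * x * L ^ (r + 1) ≤ (L + x) ^ (r + 2) ∧
    (L + x) ^ (r + 2) ≤ L ^ (r + 2) + (r + 2) * x * L ^ (r + 1) + (r + 2) * (r + 1) / 2 * x ^ 2 * (L + x) ^ r := by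
  induction r with
  | zero =>
    constructor
    · push_cast
      nlinarith [sq_nonneg x]
    · push_cast
      nlinarith [sq_nonneg x]
  | succ r ih =>
    have h1 : (L + x) ^ (r + 1 + 2) = (L + x) * (L + x) ^ (r + 2) := by ring
    have hLx : 0 ≤ L + x := by linarith
    have hLr : 0 ≤ L ^ (r + 1) := pow_nonneg hL _
    have hLr2 : L ^ (r + 1) ≤ (L + x) ^ (r + 1) := pow_le_pow_left₀ hL (by linarith) _
    have hr : (0 : ℝ) ≤ r := Nat.cast_nonneg r
    constructor
    · rw [h1]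
      have h2 := mul_le_mul_of_nonneg_left ih.1 hLx
      have h3 : (L + x) * (L ^ (r + 2) + (r + 2) * x * L ^ (r + 1)) =
          L ^ (r + 1 + 2) + ((r + 1 : ℕ) + 2) * x * L ^ (r + 1 + 1) + (r + 2) * x ^ 2 * L ^ (r + 1) := by
        push_cast
        ring
      have h4 : 0 ≤ (r + 2) * x ^ 2 * L ^ (r + 1) := by positivity
      linarith
    · rw [h1]
      have h2 := mul_le_mul_of_nonneg_left ih.2 hLx
      have h3 : (L + x) * (L ^ (r + 2) + (r + 2) * x * L ^ (r + 1) + (r + 2) * (r + 1) / 2 * x ^ 2 * (L + x) ^ r) =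
          L ^ (r + 1 + 2) + ((r + 1 : ℕ) + 2) * x * L ^ (r + 1 + 1) + (r + 2) * x ^ 2 * L ^ (r + 1) +
            (r + 2) * (r + 1) / 2 * x ^ 2 * (L + x) ^ (r + 1) := by
        push_cast
        ring
      have h4 : (r + 2) * x ^ 2 * L ^ (r + 1) ≤ (r + 2) * x ^ 2 * (L + x) ^ (r + 1) :=
        mul_le_mul_of_nonneg_left hLr2 (by positivity)
      have h5 : (((r + 1 : ℕ) : ℝ) + 2) * ((r + 1 : ℕ) + 1) / 2 * x ^ 2 * (L + x) ^ (r + 1) =
          (r + 2) * x ^ 2 * (L + x) ^ (r + 1) + (r + 2) * (r + 1) / 2 * x ^ 2 * (L + x) ^ (r + 1) := by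
        push_cast
        ring
      linarith

theorem fac_two (r : ℕ) : (((r + 2).factorial : ℕ) : ℝ) = (r + 2) * ((r + 1) * r.factorial) := by
  rw [Nat.factorial_succ, Nat.factorial_succ]
  push_cast
  ring

theorem es_close (V : Finset α) (x : α → ℝ) (hx : ∀ n ∈ V, 0 ≤ x n) (r : ℕ) :
    |es V x (r + 2) - (∑ n ∈ V, x n) ^ (r + 2) / (r + 2).factorial| ≤ (∑ n ∈ V, x n) ^ r * ∑ n ∈ V, x n ^ 2 := by
  induction V using Finset.induction_on generalizing r with
  | empty =>
    have : es (∅ : Finset α) x (r + 2) = 0 := by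
      unfold es
      rw [powersetCard_eq_empty.2 (by simp)]
      simp
    rw [this]
    simp
  | @insert a V ha ih =>
    have hx' : ∀ n ∈ V, 0 ≤ x n := fun n hn => hx n (mem_insert_of_mem hn)
    have hxa : 0 ≤ x a := hx a (mem_insert_self _ _)
    have ih := ih hx'
    rw [es_insert V x a ha, sum_insert ha, sum_insert ha]
    set L := ∑ n ∈ V, x n with hL
    set Q := ∑ n ∈ V, x n ^ 2 with hQ
    have hL0 : 0 ≤ L := sum_nonneg hx'
    have hQ0 : 0 ≤ Q := sum_nonneg fun n _ => sq_nonneg _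
    rw [add_comm (x a) L, add_comm (x a ^ 2) Q]
    have hf := fac_two r
    have hfr : (0 : ℝ) < r.factorial := by exact_mod_cast Nat.factorial_pos r
    have hfr1 : (1 : ℝ) ≤ r.factorial := by exact_mod_cast Nat.factorial_pos r
    have hf2 : (0 : ℝ) < (r + 2).factorial := by exact_mod_cast Nat.factorial_pos _
    have hf1 : (((r + 1).factorial : ℕ) : ℝ) = (r + 1) * r.factorial := by
      rw [Nat.factorial_succ]
      push_cast
      ring
    have hr : (0 : ℝ) ≤ r := Nat.cast_nonneg r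
    obtain ⟨t1, t2⟩ := pow_taylor L (x a) hL0 hxa r
    -- the remainder
    have hrem : |(L + x a) ^ (r + 2) / (r + 2).factorial - (L ^ (r + 2) / (r + 2).factorial +
        x a * (L ^ (r + 1) / (r + 1).factorial))| ≤ x a ^ 2 * (L + x a) ^ r := by
      have e1 : x a * (L ^ (r + 1) / (r + 1).factorial) = (r + 2) * x a * L ^ (r + 1) / (r + 2).factorial := by
        rw [hf, hf1]
        field_simp
      rw [e1, ← add_div, ← sub_div, abs_div, abs_of_pos hf2, div_le_iff₀ hf2, abs_of_nonneg (by linarith)]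
      have e2 : (r + 2) * (r + 1) / 2 * x a ^ 2 * (L + x a) ^ r ≤ x a ^ 2 * (L + x a) ^ r * (r + 2).factorial := by
        rw [hf]
        have e3 : 0 ≤ x a ^ 2 * (L + x a) ^ r := by positivity
        have e4 : ((r : ℝ) + 2) * (r + 1) / 2 ≤ (r + 2) * ((r + 1) * r.factorial) := by
          have : 0 ≤ ((r : ℝ) + 2) * (r + 1) := by positivity
          nlinarith
        calc (r + 2) * (r + 1) / 2 * x a ^ 2 * (L + x a) ^ r = ((r + 2) * (r + 1) / 2) * (x a ^ 2 * (L + x a) ^ r) := by ring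
          _ ≤ ((r + 2) * ((r + 1) * r.factorial)) * (x a ^ 2 * (L + x a) ^ r) := mul_le_mul_of_nonneg_right e4 e3
          _ = _ := by ring
      linarith
    have h1 : |es V x (r + 1) - L ^ (r + 1) / (r + 1).factorial| * x a + L ^ r * Q ≤ (L + x a) ^ r * Q := by
      rcases r with _ | r
      · rw [show 0 + 1 = 1 from rfl, es_one]
        simp [hL]
      · have h2 := ih r
        have h3 : L ^ r * Q * x a + L ^ (r + 1) * Q ≤ (L + x a) ^ (r + 1) * Q := by
          have h4 : L ^ r * x a + L ^ (r + 1) ≤ (L + x a) ^ (r + 1) := by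
            have h5 : L ^ r ≤ (L + x a) ^ r := pow_le_pow_left₀ hL0 (by linarith) _
            calc L ^ r * x a + L ^ (r + 1) = L ^ r * (L + x a) := by ring
              _ ≤ (L + x a) ^ r * (L + x a) := mul_le_mul_of_nonneg_right h5 (by linarith)
              _ = _ := by ring
          nlinarith
        have h6 : |es V x (r + 1 + 1) - L ^ (r + 1 + 1) / (r + 1 + 1).factorial| * x a ≤ L ^ r * Q * x a :=
          mul_le_mul_of_nonneg_right h2 hxa
        linarith
    have h2 := ih r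
    have h3 : es V x (r + 1 + 1) + x a * es V x (r + 1) - (L + x a) ^ (r + 2) / (r + 2).factorial =
        (es V x (r + 2) - L ^ (r + 2) / (r + 2).factorial) + x a * (es V x (r + 1) - L ^ (r + 1) / (r + 1).factorial) -
        ((L + x a) ^ (r + 2) / (r + 2).factorial - (L ^ (r + 2) / (r + 2).factorial +
        x a * (L ^ (r + 1) / (r + 1).factorial))) := by ring
    rw [show r + 2 = r + 1 + 1 from rfl] at h3 ⊢
    rw [h3]
    refine (abs_sub _ _).trans ?_
    have h4 := abs_add_le (es V x (r + 1 + 1) - L ^ (r + 1 + 1) / (r + 1 + 1).factorial)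
      (x a * (es V x (r + 1) - L ^ (r + 1) / (r + 1).factorial))
    rw [abs_mul, abs_of_nonneg hxa] at h4
    have h5 : (L + x a) ^ r * (Q + x a ^ 2) = (L + x a) ^ r * Q + x a ^ 2 * (L + x a) ^ r := by ring
    rw [h5]
    have h6 : x a * |es V x (r + 1) - L ^ (r + 1) / (r + 1).factorial| =
      |es V x (r + 1) - L ^ (r + 1) / (r + 1).factorial| * x a := mul_comm _ _
    linarith

/-! ## Bonferroni inequalities for products -/

theorem bonf (H : Finset α) (x : α → ℝ) (h0 : ∀ n ∈ H, 0 ≤ x n) (h1 : ∀ n ∈ H, x n ≤ 1) :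
    0 ≤ ∏ n ∈ H, (1 - x n) ∧ ∏ n ∈ H, (1 - x n) ≤ 1 ∧ 1 - ∑ n ∈ H, x n ≤ ∏ n ∈ H, (1 - x n) ∧
    ∏ n ∈ H, (1 - x n) ≤ 1 - ∑ n ∈ H, x n + es H x 2 ∧
    1 - ∑ n ∈ H, x n + es H x 2 - es H x 3 ≤ ∏ n ∈ H, (1 - x n) := by
  induction H using Finset.induction_on with
  | empty =>
    have e2 : es (∅ : Finset α) x 2 = 0 := by
      unfold es
      rw [powersetCard_eq_empty.2 (by simp)]
      simp
    have e3 : es (∅ : Finset α) x 3 = 0 := by
      unfold es
      rw [powersetCard_eq_empty.2 (by simp)]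
      simp
    rw [e2, e3]
    simp
  | @insert a H ha ih =>
    obtain ⟨i0, i1, i2, i3, i4⟩ := ih (fun n hn => h0 n (mem_insert_of_mem hn)) (fun n hn => h1 n (mem_insert_of_mem hn))
    have ha0 := h0 a (mem_insert_self _ _)
    have ha1 := h1 a (mem_insert_self _ _)
    rw [prod_insert ha, sum_insert ha, es_insert H x a ha 1, es_insert H x a ha 2, es_one]
    set P := ∏ n ∈ H, (1 - x n)
    set s := ∑ n ∈ H, x n
    have hs : 0 ≤ s := sum_nonneg fun n hn => h0 n (mem_insert_of_mem hn)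
    have he2 : 0 ≤ es H x 2 := es_nonneg H x (fun n hn => h0 n (mem_insert_of_mem hn)) 2
    have he3 : 0 ≤ es H x 3 := es_nonneg H x (fun n hn => h0 n (mem_insert_of_mem hn)) 3
    refine ⟨mul_nonneg (by linarith) i0, mul_le_one₀ (by linarith) i0 i1, ?_, ?_, ?_⟩
    · nlinarith
    · rw [show (1 + 1 : ℕ) = 2 from rfl]
      nlinarith
    · rw [show (1 + 1 : ℕ) = 2 from rfl, show (2 + 1 : ℕ) = 3 from rfl]
      nlinarith

end Pool.Agent.Q145.GC
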