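import Pool.Agent.Q145.GP.Bonf
import Pool.Agent.Q145.GC.Prod

set_option autoImplicit false
set_option maxHeartbeats 4000000

/-! # Counting in the classes of the shifts -/

namespace Pool.Agent.Q145.GC

open Finset
open Pool.Agent.Q145.RA (seqs card_seqs surv card_filter_inst)
open Pool.Agent.Q145.LD (mem_seqs)
open Pool.Agent.Q145.GP (alt alt_bounds pal poi freq)

open scoped Classical

variable {α β T : Type}

/-- the class `t` -/
noncomputable def cl (S : Finset β) (τ : β → T) (t : T) : Finset β := S.filter (fun s => τ s = t)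

/-- the proportion of the class `t` -/
noncomputable def qd (S : Finset β) (τ : β → T) (t : T) : ℝ := ((cl S τ t).card : ℝ) / S.card

/-- the proportion of the relations of `n` in the class `t` -/
noncomputable def ud (S : Finset β) (τ : β → T) (R : α → β → Prop) (n : α) (t : T) : ℝ :=
  (((cl S τ t).filter (fun s => R n s)).card : ℝ) / ((cl S τ t).card : ℝ)

/-- the proportion of the elements of the class `t` related to all of `A` -/
noncomputable def jn (S : Finset β) (τ : β → T) (R : α → β → Prop) (A : Finset α) (t : T) : ℝ :=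
  (((cl S τ t).filter (fun s => ∀ n ∈ A, R n s)).card : ℝ) / S.card

/-- the same for independent relations -/
noncomputable def jp (S : Finset β) (τ : β → T) (R : α → β → Prop) (A : Finset α) (t : T) : ℝ :=
  qd S τ t * ∏ n ∈ A, ud S τ R n t

/-- the proportion of the elements of the class `t` related to no element of `H` -/
noncomputable def fm (S : Finset β) (τ : β → T) (R : α → β → Prop) (H : Finset α) (t : T) : ℝ :=
  (((cl S τ t).filter (fun s => ∀ n ∈ H, ¬ R n s)).card : ℝ) / S.card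

/-- the same for independent relations -/
noncomputable def gm (S : Finset β) (τ : β → T) (R : α → β → Prop) (H : Finset α) (t : T) : ℝ :=
  qd S τ t * ∏ n ∈ H, (1 - ud S τ R n t)

theorem qd_nonneg (S : Finset β) (τ : β → T) (t : T) : 0 ≤ qd S τ t := by unfold qd; positivity

theorem ud_nonneg (S : Finset β) (τ : β → T) (R : α → β → Prop) (n : α) (t : T) : 0 ≤ ud S τ R n t := by
  unfold ud; positivity

theorem ud_le_one (S : Finset β) (τ : β → T) (R : α → β → Prop) (n : α) (t : T) : ud S τ R n t ≤ 1 := by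
  unfold ud
  apply div_le_one_of_le₀ _ (Nat.cast_nonneg _)
  exact_mod_cast card_le_card (filter_subset _ _)

theorem jn_nonneg (S : Finset β) (τ : β → T) (R : α → β → Prop) (A : Finset α) (t : T) : 0 ≤ jn S τ R A t := by
  unfold jn; positivity

theorem jp_nonneg (S : Finset β) (τ : β → T) (R : α → β → Prop) (A : Finset α) (t : T) : 0 ≤ jp S τ R A t :=
  mul_nonneg (qd_nonneg _ _ _) (prod_nonneg fun n _ => ud_nonneg _ _ _ _ _)

theorem fm_nonneg (S : Finset β) (τ : β → T) (R : α → β → Prop) (A : Finset α) (t : T) : 0 ≤ fm S τ R A t := by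
  unfold fm; positivity

theorem gm_nonneg (S : Finset β) (τ : β → T) (R : α → β → Prop) (A : Finset α) (t : T) : 0 ≤ gm S τ R A t :=
  mul_nonneg (qd_nonneg _ _ _) (prod_nonneg fun n _ => by linarith [ud_le_one S τ R n t])

theorem jn_anti (S : Finset β) (τ : β → T) (R : α → β → Prop) (A B : Finset α) (h : A ⊆ B) (t : T) :
    jn S τ R B t ≤ jn S τ R A t := by
  unfold jn
  apply div_le_div_of_nonneg_right _ (Nat.cast_nonneg _)
  exact_mod_cast card_le_card (fun s hs => by
    rw [mem_filter] at hs ⊢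
    exact ⟨hs.1, fun n hn => hs.2 n (h hn)⟩)

theorem jp_anti (S : Finset β) (τ : β → T) (R : α → β → Prop) (A B : Finset α) (h : A ⊆ B) (t : T) :
    jp S τ R B t ≤ jp S τ R A t := by
  unfold jp
  apply mul_le_mul_of_nonneg_left _ (qd_nonneg _ _ _)
  rw [← prod_sdiff h]
  have h1 : ∏ n ∈ B \ A, ud S τ R n t ≤ 1 := prod_le_one (fun n _ => ud_nonneg _ _ _ _ _) (fun n _ => ud_le_one _ _ _ _ _)
  have h2 : 0 ≤ ∏ n ∈ A, ud S τ R n t := prod_nonneg fun n _ => ud_nonneg _ _ _ _ _
  calc (∏ n ∈ B \ A, ud S τ R n t) * ∏ n ∈ A, ud S τ R n t ≤ 1 * ∏ n ∈ A, ud S τ R n t :=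
        mul_le_mul_of_nonneg_right h1 h2
    _ = _ := one_mul _

theorem qd_mul_ud (S : Finset β) (τ : β → T) (R : α → β → Prop) (n : α) (t : T) :
    qd S τ t * ud S τ R n t = jn S τ R {n} t := by
  unfold qd ud jn
  have h1 : (cl S τ t).filter (fun s => ∀ m ∈ ({n} : Finset α), R m s) = (cl S τ t).filter (fun s => R n s) := by
    apply filter_congr
    intro s _
    simp
  rw [h1]
  rcases Nat.eq_zero_or_pos (cl S τ t).card with h | h
  · rw [card_eq_zero.1 h]
    simp
  · have : ((cl S τ t).card : ℝ) ≠ 0 := by exact_mod_cast h.ne'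
    field_simp

/-- indicator -/
noncomputable def ind (R : α → β → Prop) (s : β) (n : α) : ℝ := if R n s then 1 else 0

theorem ind_nonneg (R : α → β → Prop) (s : β) (n : α) : 0 ≤ ind R s n := by unfold ind; split_ifs <;> norm_num

theorem ind_le_one (R : α → β → Prop) (s : β) (n : α) : ind R s n ≤ 1 := by unfold ind; split_ifs <;> norm_num

theorem prod_ind (R : α → β → Prop) (s : β) (A : Finset α) : ∏ n ∈ A, ind R s n = if ∀ n ∈ A, R n s then 1 else 0 := by
  unfold ind
  split_ifs with h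
  · exact prod_eq_one fun n hn => if_pos (h n hn)
  · push Not at h
    obtain ⟨n, hn, h⟩ := h
    exact prod_eq_zero hn (if_neg h)

theorem prod_one_sub_ind (R : α → β → Prop) (s : β) (A : Finset α) :
    ∏ n ∈ A, (1 - ind R s n) = if ∀ n ∈ A, ¬ R n s then 1 else 0 := by
  unfold ind
  split_ifs with h
  · exact prod_eq_one fun n hn => by rw [if_neg (h n hn), sub_zero]
  · push Not at h
    obtain ⟨n, hn, h⟩ := h
    exact prod_eq_zero hn (by rw [if_pos h, sub_self])

theorem jn_eq (S : Finset β) (τ : β → T) (R : α → β → Prop) (A : Finset α) (t : T) :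
    jn S τ R A t = (∑ s ∈ cl S τ t, ∏ n ∈ A, ind R s n) / S.card := by
  unfold jn
  rw [sum_congr rfl fun s _ => prod_ind R s A, card_filter]
  push_cast
  rfl

theorem fm_eq (S : Finset β) (τ : β → T) (R : α → β → Prop) (A : Finset α) (t : T) :
    fm S τ R A t = (∑ s ∈ cl S τ t, ∏ n ∈ A, (1 - ind R s n)) / S.card := by
  unfold fm
  rw [sum_congr rfl fun s _ => prod_one_sub_ind R s A, card_filter]
  push_cast
  rfl

theorem sum_es (S : Finset β) (τ : β → T) (R : α → β → Prop) (H : Finset α) (r : ℕ) (t : T) :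
    (∑ s ∈ cl S τ t, es H (ind R s) r) / S.card = ∑ A ∈ powersetCard r H, jn S τ R A t := by
  unfold es
  rw [sum_comm, sum_div]
  exact sum_congr rfl fun A _ => (jn_eq S τ R A t).symm

theorem sum_ind (S : Finset β) (τ : β → T) (R : α → β → Prop) (H : Finset α) (t : T) :
    (∑ s ∈ cl S τ t, ∑ n ∈ H, ind R s n) / S.card = ∑ n ∈ H, jn S τ R {n} t := by
  rw [sum_comm, sum_div]
  apply sum_congr rfl
  intro n _
  rw [jn_eq]
  congr 1
  apply sum_congr rfl
  intro s _
  rw [prod_singleton]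

theorem sum_one (S : Finset β) (τ : β → T) (t : T) : (∑ _s ∈ cl S τ t, (1 : ℝ)) / S.card = qd S τ t := by
  unfold qd
  rw [sum_const, nsmul_eq_mul, mul_one]

theorem fm_bounds (S : Finset β) (τ : β → T) (R : α → β → Prop) (H : Finset α) (t : T) :
    fm S τ R H t ≤ qd S τ t - ∑ n ∈ H, jn S τ R {n} t + ∑ A ∈ powersetCard 2 H, jn S τ R A t ∧
    qd S τ t - ∑ n ∈ H, jn S τ R {n} t + ∑ A ∈ powersetCard 2 H, jn S τ R A t -
      ∑ A ∈ powersetCard 3 H, jn S τ R A t ≤ fm S τ R H t := by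
  have hb := fun s => bonf H (ind R s) (fun n _ => ind_nonneg R s n) (fun n _ => ind_le_one R s n)
  rw [fm_eq, ← sum_es, ← sum_es, ← sum_ind, ← sum_one, ← sub_div, ← add_div, ← sub_div]
  have hS : (0 : ℝ) ≤ S.card := Nat.cast_nonneg _
  rw [← sum_sub_distrib, ← sum_add_distrib, ← sum_sub_distrib]
  exact ⟨div_le_div_of_nonneg_right (sum_le_sum fun s _ => (hb s).2.2.2.1) hS,
    div_le_div_of_nonneg_right (sum_le_sum fun s _ => (hb s).2.2.2.2) hS⟩

theorem gm_bounds (S : Finset β) (τ : β → T) (R : α → β → Prop) (H : Finset α) (t : T) :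
    gm S τ R H t ≤ qd S τ t - ∑ n ∈ H, jn S τ R {n} t + ∑ A ∈ powersetCard 2 H, jp S τ R A t ∧
    qd S τ t - ∑ n ∈ H, jn S τ R {n} t + ∑ A ∈ powersetCard 2 H, jp S τ R A t -
      ∑ A ∈ powersetCard 3 H, jp S τ R A t ≤ gm S τ R H t := by
  have hb := bonf H (fun n => ud S τ R n t) (fun n _ => ud_nonneg _ _ _ _ _) (fun n _ => ud_le_one _ _ _ _ _)
  have hq := qd_nonneg S τ t
  have e1 : ∑ n ∈ H, jn S τ R {n} t = qd S τ t * ∑ n ∈ H, ud S τ R n t := by
    rw [mul_sum]
    exact sum_congr rfl fun n _ => (qd_mul_ud S τ R n t).symm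
  have e2 : ∀ r, ∑ A ∈ powersetCard r H, jp S τ R A t = qd S τ t * es H (fun n => ud S τ R n t) r := by
    intro r
    unfold es jp
    rw [mul_sum]
  rw [e1, e2, e2]
  unfold gm
  constructor
  · have := mul_le_mul_of_nonneg_left hb.2.2.2.1 hq
    linarith
  · have := mul_le_mul_of_nonneg_left hb.2.2.2.2 hq
    linarith

theorem fg_diff (S : Finset β) (τ : β → T) (R : α → β → Prop) (H : Finset α) (t : T) :
    |fm S τ R H t - gm S τ R H t| ≤ ∑ A ∈ powersetCard 2 H, |jn S τ R A t - jp S τ R A t| +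
      ∑ A ∈ powersetCard 3 H, (jn S τ R A t + jp S τ R A t) := by
  obtain ⟨f1, f2⟩ := fm_bounds S τ R H t
  obtain ⟨g1, g2⟩ := gm_bounds S τ R H t
  have h1 : |∑ A ∈ powersetCard 2 H, jn S τ R A t - ∑ A ∈ powersetCard 2 H, jp S τ R A t| ≤
      ∑ A ∈ powersetCard 2 H, |jn S τ R A t - jp S τ R A t| := by
    rw [← sum_sub_distrib]
    exact abs_sum_le_sum_abs _ _
  rw [sum_add_distrib]
  have h2 : 0 ≤ ∑ A ∈ powersetCard 3 H, jn S τ R A t := sum_nonneg fun A _ => jn_nonneg _ _ _ _ _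
  have h3 : 0 ≤ ∑ A ∈ powersetCard 3 H, jp S τ R A t := sum_nonneg fun A _ => jp_nonneg _ _ _ _ _
  rw [abs_le] at h1 ⊢
  constructor <;> linarith [h1.1, h1.2]

theorem fg_max (S : Finset β) (τ : β → T) (R : α → β → Prop) (H : Finset α) (t : T) :
    max (fm S τ R H t) (gm S τ R H t) ≤ qd S τ t - ∑ n ∈ H, jn S τ R {n} t +
      ∑ A ∈ powersetCard 2 H, (jn S τ R A t + jp S τ R A t) := by
  obtain ⟨f1, f2⟩ := fm_bounds S τ R H t
  obtain ⟨g1, g2⟩ := gm_bounds S τ R H t
  rw [sum_add_distrib]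
  have h2 : 0 ≤ ∑ A ∈ powersetCard 2 H, jn S τ R A t := sum_nonneg fun A _ => jn_nonneg _ _ _ _ _
  have h3 : 0 ≤ ∑ A ∈ powersetCard 2 H, jp S τ R A t := sum_nonneg fun A _ => jp_nonneg _ _ _ _ _
  apply max_le <;> linarith

variable [Fintype T]

theorem sum_cl (S : Finset β) (τ : β → T) (P : β → Prop) :
    ∑ t : T, (((cl S τ t).filter P).card : ℝ) = ((S.filter P).card : ℝ) := by
  rw [← Nat.cast_sum]
  congr 1
  rw [card_eq_sum_card_fiberwise (f := τ) (t := (univ : Finset T)) (fun x _ => mem_univ _)]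
  apply sum_congr rfl
  intro t _
  congr 1
  unfold cl
  ext s
  simp only [mem_filter]
  tauto

theorem sum_qd (S : Finset β) (hS : S.Nonempty) (τ : β → T) : ∑ t : T, qd S τ t = 1 := by
  unfold qd
  rw [← sum_div]
  have h := sum_cl S τ (fun _ => True)
  simp only [filter_true] at h
  rw [h, div_self]
  exact_mod_cast hS.card_pos.ne'

/-- the degree of `n` -/
noncomputable def dg (S : Finset β) (R : α → β → Prop) (n : α) : ℝ := ((S.filter (fun s => R n s)).card : ℝ) / S.card

theorem jn_one (S : Finset β) (τ : β → T) (R : α → β → Prop) (n : α) (t : T) :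
    jn S τ R {n} t = (((cl S τ t).filter (fun s => R n s)).card : ℝ) / S.card := by
  unfold jn
  congr 3
  apply filter_congr
  intro s _
  simp

theorem sum_jn_one (S : Finset β) (τ : β → T) (R : α → β → Prop) (n : α) : ∑ t : T, jn S τ R {n} t = dg S R n := by
  rw [sum_congr rfl fun t _ => jn_one S τ R n t]
  unfold dg
  rw [← sum_div, sum_cl S τ (fun s => R n s)]

/-- discrepancy of `A` -/
noncomputable def d2 (S : Finset β) (τ : β → T) (R : α → β → Prop) (A : Finset α) : ℝ :=
  ∑ t : T, |jn S τ R A t - jp S τ R A t|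

/-- size of `A` -/
noncomputable def c2 (S : Finset β) (τ : β → T) (R : α → β → Prop) (A : Finset α) : ℝ :=
  ∑ t : T, (jn S τ R A t + jp S τ R A t)

theorem c2_nonneg (S : Finset β) (τ : β → T) (R : α → β → Prop) (A : Finset α) : 0 ≤ c2 S τ R A :=
  sum_nonneg fun t _ => add_nonneg (jn_nonneg _ _ _ _ _) (jp_nonneg _ _ _ _ _)

theorem d2_nonneg (S : Finset β) (τ : β → T) (R : α → β → Prop) (A : Finset α) : 0 ≤ d2 S τ R A :=
  sum_nonneg fun _ _ => abs_nonneg _

theorem d2_le_c2 (S : Finset β) (τ : β → T) (R : α → β → Prop) (A : Finset α) : d2 S τ R A ≤ c2 S τ R A := by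
  apply sum_le_sum
  intro t _
  have h1 := jn_nonneg S τ R A t
  have h2 := jp_nonneg S τ R A t
  rw [abs_le]
  constructor <;> linarith

theorem c2_anti (S : Finset β) (τ : β → T) (R : α → β → Prop) (A B : Finset α) (h : A ⊆ B) :
    c2 S τ R B ≤ c2 S τ R A :=
  sum_le_sum fun t _ => add_le_add (jn_anti S τ R A B h t) (jp_anti S τ R A B h t)

theorem sum_fg_diff (S : Finset β) (τ : β → T) (R : α → β → Prop) (H : Finset α) :
    ∑ t : T, |fm S τ R H t - gm S τ R H t| ≤ ∑ A ∈ powersetCard 2 H, d2 S τ R A + ∑ A ∈ powersetCard 3 H, c2 S τ R A := by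
  unfold d2 c2
  rw [sum_comm, sum_comm (s := powersetCard 3 H), ← sum_add_distrib]
  exact sum_le_sum fun t _ => fg_diff S τ R H t

theorem sum_fg_max (S : Finset β) (hS : S.Nonempty) (τ : β → T) (R : α → β → Prop) (H : Finset α) :
    ∑ n ∈ H, dg S R n - ∑ A ∈ powersetCard 2 H, c2 S τ R A ≤ 1 - ∑ t : T, max (fm S τ R H t) (gm S τ R H t) := by
  have h1 : ∑ t : T, max (fm S τ R H t) (gm S τ R H t) ≤ ∑ t : T, (qd S τ t - ∑ n ∈ H, jn S τ R {n} t +
      ∑ A ∈ powersetCard 2 H, (jn S τ R A t + jp S τ R A t)) := sum_le_sum fun t _ => fg_max S τ R H t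
  rw [sum_add_distrib, sum_sub_distrib, sum_qd S hS, sum_comm, sum_comm (t := powersetCard 2 H)] at h1
  have h2 : ∑ n ∈ H, ∑ t : T, jn S τ R {n} t = ∑ n ∈ H, dg S R n := sum_congr rfl fun n _ => sum_jn_one S τ R n
  rw [h2] at h1
  unfold c2
  linarith

end Pool.Agent.Q145.GC
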