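import Pool.Agent.Q145.GC.Cls

set_option autoImplicit false
set_option maxHeartbeats 4000000

/-! # The conditional Poisson law -/

namespace Pool.Agent.Q145.GC

open Finset
open Pool.Agent.Q145.RA (seqs card_seqs surv card_filter_inst)
open Pool.Agent.Q145.LD (mem_seqs)
open Pool.Agent.Q145.GP (alt alt_bounds pal poi freq poi_nonneg pal_close)

open scoped Classical

variable {α β T : Type}

/-- double counting -/
theorem dc (V : Finset α) (F : Finset α → ℝ) (hF : ∀ A, 0 ≤ F A) (r a : ℕ) :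
    (∑ H ∈ powersetCard r V, ∑ A ∈ powersetCard a H, F A) * (V.card : ℝ) ^ a ≤
      (V.card : ℝ) ^ r * ∑ A ∈ powersetCard a V, F A := by
  rcases Nat.lt_or_ge r a with h | h
  · have h1 : ∑ H ∈ powersetCard r V, ∑ A ∈ powersetCard a H, F A = 0 := by
      apply sum_eq_zero
      intro H hH
      rw [powersetCard_eq_empty.2 (by rw [(mem_powersetCard.1 hH).2]; exact h)]
      simp
    rw [h1, zero_mul]
    exact mul_nonneg (by positivity) (sum_nonneg fun A _ => hF A)
  · have h1 : ∑ H ∈ powersetCard r V, ∑ A ∈ powersetCard a H, F A =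
        ∑ A ∈ powersetCard a V, F A * (((powersetCard r V).filter (fun H => A ⊆ H)).card : ℝ) := by
      have e1 : ∀ H ∈ powersetCard r V, ∑ A ∈ powersetCard a H, F A =
          ∑ A ∈ powersetCard a V, if A ⊆ H then F A else 0 := by
        intro H hH
        rw [← sum_filter]
        apply sum_congr _ (fun _ _ => rfl)
        ext A
        rw [mem_filter, mem_powersetCard, mem_powersetCard]
        constructor
        · rintro ⟨h2, h3⟩
          exact ⟨⟨h2.trans (mem_powersetCard.1 hH).1, h3⟩, h2⟩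
        · rintro ⟨⟨_, h3⟩, h2⟩
          exact ⟨h2, h3⟩
      rw [sum_congr rfl e1, sum_comm]
      apply sum_congr rfl
      intro A _
      rw [← sum_filter, sum_const, nsmul_eq_mul, mul_comm]
    have h2 : ∀ A ∈ powersetCard a V, (((powersetCard r V).filter (fun H => A ⊆ H)).card : ℝ) ≤ (V.card : ℝ) ^ (r - a) := by
      intro A hA
      have e1 : ((powersetCard r V).filter (fun H => A ⊆ H)).card ≤ (powersetCard (r - a) V).card := by
        apply card_le_card_of_injOn (fun H => H \ A)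
        · intro H hH
          rw [mem_coe, mem_filter, mem_powersetCard] at hH
          rw [mem_coe, mem_powersetCard]
          refine ⟨sdiff_subset.trans hH.1.1, ?_⟩
          rw [card_sdiff_of_subset hH.2, hH.1.2, (mem_powersetCard.1 hA).2]
        · intro H hH H' hH' he
          rw [mem_coe, mem_filter] at hH hH'
          have e2 : H \ A ∪ A = H := sdiff_union_of_subset hH.2
          have e3 : H' \ A ∪ A = H' := sdiff_union_of_subset hH'.2
          rw [← e2, ← e3]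
          simp only at he
          rw [he]
      rw [card_powersetCard] at e1
      have e2 : ((V.card.choose (r - a) : ℕ) : ℝ) ≤ (V.card : ℝ) ^ (r - a) := by
        exact_mod_cast Nat.choose_le_pow V.card (r - a)
      exact (Nat.cast_le.2 e1).trans e2
    rw [h1, sum_mul, mul_sum]
    apply sum_le_sum
    intro A hA
    have e3 : (V.card : ℝ) ^ r = (V.card : ℝ) ^ (r - a) * (V.card : ℝ) ^ a := by
      rw [← pow_add, Nat.sub_add_cancel h]
    rw [e3]
    calc F A * (((powersetCard r V).filter (fun H => A ⊆ H)).card : ℝ) * (V.card : ℝ) ^ a ≤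
          F A * (V.card : ℝ) ^ (r - a) * (V.card : ℝ) ^ a := by
          apply mul_le_mul_of_nonneg_right _ (by positivity)
          exact mul_le_mul_of_nonneg_left (h2 A hA) (hF A)
      _ = _ := by ring

theorem exp_sum_le {ι : Type} (I : Finset ι) (y : ι → ℝ) (hy : ∀ i ∈ I, 0 ≤ y i) (N : ℝ) (hN : (I.card : ℝ) ≤ N) :
    Real.exp (∑ i ∈ I, y i) ≤ 1 + ∑ i ∈ I, Real.exp (N * y i) := by
  rcases I.eq_empty_or_nonempty with h | h
  · subst h
    simp
  · obtain ⟨i₀, hi₀, hmax⟩ := exists_max_image I y h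
    have h1 : ∑ i ∈ I, y i ≤ N * y i₀ := by
      calc ∑ i ∈ I, y i ≤ ∑ _i ∈ I, y i₀ := sum_le_sum hmax
        _ = I.card * y i₀ := by rw [sum_const, nsmul_eq_mul]
        _ ≤ N * y i₀ := mul_le_mul_of_nonneg_right hN (hy i₀ hi₀)
    have h2 : Real.exp (N * y i₀) ≤ ∑ i ∈ I, Real.exp (N * y i) :=
      single_le_sum (f := fun i => Real.exp (N * y i)) (fun i _ => (Real.exp_pos _).le) hi₀
    have := Real.exp_le_exp.2 h1
    linarith

variable [Fintype T]

/-- the conditions on the relations -/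
structure Cond (S : Finset β) (τ : β → T) (V : Finset α) (R : α → β → Prop) (K : ℕ) (η Λ Cw B CE : ℝ) : Prop where
  wt : ∀ n ∈ V, Real.exp (-(K * dg S R n)) ≤ Cw / V.card
  mean : ∑ n ∈ V, (1 - dg S R n) ^ K ≤ Λ
  two : ∑ A ∈ powersetCard 2 V, K * d2 S τ R A ≤ η * (V.card : ℝ) ^ 2
  ex : ∑ A ∈ powersetCard 2 V, Real.exp (B * (K * c2 S τ R A)) ≤ CE * (V.card : ℝ) ^ 2
  three : ∑ A ∈ powersetCard 3 V, K * c2 S τ R A ≤ η * (V.card : ℝ) ^ 3
  diag : ∑ n ∈ V, (∑ t : T, qd S τ t * (1 - ud S τ R n t) ^ 2) ^ K ≤ η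

theorem xd_bd (S : Finset β) (hS : S.Nonempty) (τ : β → T) (V : Finset α) (hV : V.Nonempty) (R : α → β → Prop) (K r : ℕ)
    (η Λ Cw B CE s : ℝ) (hC : Cond S τ V R K η Λ Cw B CE) (hB : 3 * (r : ℝ) ^ 2 ≤ B) (hCE : 0 ≤ CE) (hs : 0 < s) :
    ∑ t : Fin K → T, xd S τ V R t r ≤ Real.exp 1 * Cw ^ r * (η / s + s / 2 * ((1 + r) * (1 + CE))) := by
  have hX : (0 : ℝ) < V.card := by exact_mod_cast hV.card_pos
  have hK : (0 : ℝ) ≤ K := Nat.cast_nonneg K
  obtain ⟨n₀, hn₀⟩ := hV
  have hCw : 0 ≤ Cw := by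
    have h1 := (Real.exp_pos _).le.trans (hC.wt n₀ hn₀)
    have h2 := mul_nonneg h1 hX.le
    rwa [div_mul_cancel₀ _ hX.ne'] at h2
  set x : Finset α → ℝ := fun H => ∑ A ∈ powersetCard 2 H, K * d2 S τ R A + ∑ A ∈ powersetCard 3 H, K * c2 S τ R A with hx
  set E : Finset α → ℝ := fun H => Real.exp (∑ A ∈ powersetCard 2 H, K * c2 S τ R A) with hE
  have hx0 : ∀ H, 0 ≤ x H := fun H => add_nonneg
    (sum_nonneg fun A _ => mul_nonneg hK (d2_nonneg _ _ _ _)) (sum_nonneg fun A _ => mul_nonneg hK (c2_nonneg _ _ _ _))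
  have hE0 : ∀ H, 0 < E H := fun H => Real.exp_pos _
  have h1 : ∀ H ∈ powersetCard r V, K * (∑ A ∈ powersetCard 2 H, d2 S τ R A + ∑ A ∈ powersetCard 3 H, c2 S τ R A) *
        (Real.exp 1 * Real.exp (-(K * (∑ n ∈ H, dg S R n - ∑ A ∈ powersetCard 2 H, c2 S τ R A)))) ≤
      Real.exp 1 * (Cw / V.card) ^ r * (x H * E H) := by
    intro H hH
    obtain ⟨hHV, hHr⟩ := mem_powersetCard.1 hH
    have e1 : (K : ℝ) * (∑ A ∈ powersetCard 2 H, d2 S τ R A + ∑ A ∈ powersetCard 3 H, c2 S τ R A) = x H := by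
      rw [hx, mul_add, mul_sum, mul_sum]
    have e2 : Real.exp (-(K * (∑ n ∈ H, dg S R n - ∑ A ∈ powersetCard 2 H, c2 S τ R A))) =
        (∏ n ∈ H, Real.exp (-(K * dg S R n))) * E H := by
      rw [hE, ← Real.exp_sum, ← Real.exp_add]
      congr 1
      rw [sum_neg_distrib, ← mul_sum, ← mul_sum]
      ring
    have e3 : ∏ n ∈ H, Real.exp (-(K * dg S R n)) ≤ (Cw / V.card) ^ r := by
      rw [← hHr, ← prod_const]
      exact prod_le_prod (fun n _ => (Real.exp_pos _).le) (fun n hn => hC.wt n (hHV hn))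
    rw [e1, e2]
    calc x H * (Real.exp 1 * ((∏ n ∈ H, Real.exp (-(K * dg S R n))) * E H)) =
          Real.exp 1 * (∏ n ∈ H, Real.exp (-(K * dg S R n))) * (x H * E H) := by ring
      _ ≤ _ := by
          apply mul_le_mul_of_nonneg_right _ (mul_nonneg (hx0 H) (hE0 H).le)
          exact mul_le_mul_of_nonneg_left e3 (Real.exp_pos _).le
  refine (sum_xd S hS τ V R K r).trans ((sum_le_sum h1).trans ?_)
  rw [← mul_sum]
  -- the sum of `x`
  have hsx : ∑ H ∈ powersetCard r V, x H ≤ 2 * η * (V.card : ℝ) ^ r := by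
    rw [hx, sum_add_distrib]
    have e1 := dc V (fun A => K * d2 S τ R A) (fun A => mul_nonneg hK (d2_nonneg _ _ _ _)) r 2
    have e2 := dc V (fun A => K * c2 S τ R A) (fun A => mul_nonneg hK (c2_nonneg _ _ _ _)) r 3
    have e3 := mul_le_mul_of_nonneg_left hC.two (pow_nonneg hX.le r)
    have e4 := mul_le_mul_of_nonneg_left hC.three (pow_nonneg hX.le r)
    have e5 : ∑ H ∈ powersetCard r V, ∑ A ∈ powersetCard 2 H, K * d2 S τ R A ≤ η * (V.card : ℝ) ^ r := by
      have := e1.trans e3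
      have h2 : (0 : ℝ) < (V.card : ℝ) ^ 2 := by positivity
      rw [← mul_le_mul_iff_left₀ h2]
      linarith
    have e6 : ∑ H ∈ powersetCard r V, ∑ A ∈ powersetCard 3 H, K * c2 S τ R A ≤ η * (V.card : ℝ) ^ r := by
      have := e2.trans e4
      have h2 : (0 : ℝ) < (V.card : ℝ) ^ 3 := by positivity
      rw [← mul_le_mul_iff_left₀ h2]
      linarith
    linarith
  -- pointwise bound
  have hxE : ∀ H ∈ powersetCard r V, x H ≤ (1 + r) * E H := by
    intro H hH
    obtain ⟨hHV, hHr⟩ := mem_powersetCard.1 hH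
    have e1 : ∑ A ∈ powersetCard 2 H, K * d2 S τ R A ≤ ∑ A ∈ powersetCard 2 H, K * c2 S τ R A :=
      sum_le_sum fun A _ => mul_le_mul_of_nonneg_left (d2_le_c2 _ _ _ _) hK
    have e2 : ∑ A ∈ powersetCard 3 H, K * c2 S τ R A ≤ r * ∑ A ∈ powersetCard 2 H, K * c2 S τ R A := by
      have f1 : ∑ A ∈ powersetCard 3 H, K * c2 S τ R A ≤
          ∑ A ∈ powersetCard 3 H, ∑ A' ∈ powersetCard 2 A, K * c2 S τ R A' := by
        apply sum_le_sum
        intro A hA
        have hA3 := (mem_powersetCard.1 hA).2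
        obtain ⟨A', hA', hc⟩ := exists_subset_card_eq (s := A) (n := 2) (by omega)
        have f2 : K * c2 S τ R A ≤ K * c2 S τ R A' := mul_le_mul_of_nonneg_left (c2_anti _ _ _ _ _ hA') hK
        exact f2.trans (single_le_sum (f := fun A' => K * c2 S τ R A')
          (fun A _ => mul_nonneg hK (c2_nonneg _ _ _ _)) (mem_powersetCard.2 ⟨hA', hc⟩))
      rcases Nat.eq_zero_or_pos r with h0 | h0
      · have : H = ∅ := card_eq_zero.1 (by omega)
        subst this
        rw [h0, powersetCard_eq_empty.2 (by simp), powersetCard_eq_empty.2 (by simp)]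
        simp
      · have f3 := dc H (fun A => K * c2 S τ R A) (fun A => mul_nonneg hK (c2_nonneg _ _ _ _)) 3 2
        rw [hHr] at f3
        have h2 : (0 : ℝ) < (r : ℝ) ^ 2 := by
          have : (0 : ℝ) < r := by exact_mod_cast h0
          positivity
        have f4 : (∑ A ∈ powersetCard 3 H, ∑ A' ∈ powersetCard 2 A, K * c2 S τ R A') ≤
            r * ∑ A ∈ powersetCard 2 H, K * c2 S τ R A := by
          rw [← mul_le_mul_iff_left₀ h2]
          linarith
        exact f1.trans f4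
    have e3 : ∑ A ∈ powersetCard 2 H, K * c2 S τ R A ≤ E H := by
      rw [hE]
      have := Real.add_one_le_exp (∑ A ∈ powersetCard 2 H, K * c2 S τ R A)
      simp only
      linarith
    have hr : (0 : ℝ) ≤ r := Nat.cast_nonneg r
    have e4 : 0 ≤ ∑ A ∈ powersetCard 2 H, K * c2 S τ R A := sum_nonneg fun A _ => mul_nonneg hK (c2_nonneg _ _ _ _)
    rw [hx]
    simp only
    nlinarith
  -- the sum of the cubes
  have hcube : ∑ H ∈ powersetCard r V, E H ^ 3 ≤ (1 + CE) * (V.card : ℝ) ^ r := by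
    have e1 : ∀ H ∈ powersetCard r V, E H ^ 3 ≤ 1 + ∑ A ∈ powersetCard 2 H, Real.exp (B * (K * c2 S τ R A)) := by
      intro H hH
      obtain ⟨hHV, hHr⟩ := mem_powersetCard.1 hH
      have f1 : E H ^ 3 = Real.exp (∑ A ∈ powersetCard 2 H, 3 * (K * c2 S τ R A)) := by
        rw [hE]
        simp only
        rw [← Real.exp_nat_mul]
        congr 1
        rw [← mul_sum, ← mul_sum, ← mul_sum]
        push_cast
        rfl
      have f2 : ((powersetCard 2 H).card : ℝ) ≤ (r : ℝ) ^ 2 := by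
        rw [card_powersetCard, hHr]
        exact_mod_cast Nat.choose_le_pow r 2
      have f3 := exp_sum_le (powersetCard 2 H) (fun A => 3 * (K * c2 S τ R A))
        (fun A _ => mul_nonneg (by norm_num) (mul_nonneg hK (c2_nonneg _ _ _ _))) _ f2
      rw [f1]
      refine f3.trans ?_
      have f4 : ∑ A ∈ powersetCard 2 H, Real.exp ((r : ℝ) ^ 2 * (3 * (K * c2 S τ R A))) ≤
          ∑ A ∈ powersetCard 2 H, Real.exp (B * (K * c2 S τ R A)) := by
        apply sum_le_sum
        intro A _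
        apply Real.exp_le_exp.2
        have : 0 ≤ K * c2 S τ R A := mul_nonneg hK (c2_nonneg _ _ _ _)
        nlinarith
      linarith
    refine (sum_le_sum e1).trans ?_
    rw [sum_add_distrib, sum_const, nsmul_eq_mul, mul_one, card_powersetCard]
    have e2 : ((V.card.choose r : ℕ) : ℝ) ≤ (V.card : ℝ) ^ r := by exact_mod_cast Nat.choose_le_pow V.card r
    have e3 := dc V (fun A => Real.exp (B * (K * c2 S τ R A))) (fun A => (Real.exp_pos _).le) r 2
    have e4 := mul_le_mul_of_nonneg_left hC.ex (pow_nonneg hX.le r)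
    have e5 : ∑ H ∈ powersetCard r V, ∑ A ∈ powersetCard 2 H, Real.exp (B * (K * c2 S τ R A)) ≤ CE * (V.card : ℝ) ^ r := by
      have h2 : (0 : ℝ) < (V.card : ℝ) ^ 2 := by positivity
      rw [← mul_le_mul_iff_left₀ h2]
      linarith
    linarith
  have hmain : ∑ H ∈ powersetCard r V, x H * E H ≤ (η / s + s / 2 * ((1 + r) * (1 + CE))) * (V.card : ℝ) ^ r := by
    have e1 : ∀ H ∈ powersetCard r V, x H * E H ≤ 1 / (2 * s) * x H + s / 2 * ((1 + r) * E H ^ 3) := by
      intro H hH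
      have f1 : E H ≤ 1 / (2 * s) + s / 2 * E H ^ 2 := by
        have : 0 ≤ (s * E H - 1) ^ 2 := sq_nonneg _
        have f2 : 1 / (2 * s) + s / 2 * E H ^ 2 - E H = (s * E H - 1) ^ 2 / (2 * s) := by
          field_simp
          ring
        have f3 : 0 ≤ (s * E H - 1) ^ 2 / (2 * s) := by positivity
        linarith
      have f4 := mul_le_mul_of_nonneg_left f1 (hx0 H)
      have f5 : x H * (s / 2 * E H ^ 2) ≤ (1 + r) * E H * (s / 2 * E H ^ 2) :=
        mul_le_mul_of_nonneg_right (hxE H hH) (by positivity)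
      calc x H * E H ≤ x H * (1 / (2 * s) + s / 2 * E H ^ 2) := f4
        _ = 1 / (2 * s) * x H + x H * (s / 2 * E H ^ 2) := by ring
        _ ≤ 1 / (2 * s) * x H + (1 + r) * E H * (s / 2 * E H ^ 2) := by linarith
        _ = _ := by ring
    refine (sum_le_sum e1).trans ?_
    rw [sum_add_distrib, ← mul_sum, ← mul_sum, ← mul_sum]
    have e2 : 1 / (2 * s) * ∑ H ∈ powersetCard r V, x H ≤ 1 / (2 * s) * (2 * η * (V.card : ℝ) ^ r) :=
      mul_le_mul_of_nonneg_left hsx (by positivity)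
    have e3 : s / 2 * ((1 + r) * ∑ H ∈ powersetCard r V, E H ^ 3) ≤ s / 2 * ((1 + r) * ((1 + CE) * (V.card : ℝ) ^ r)) :=
      mul_le_mul_of_nonneg_left (mul_le_mul_of_nonneg_left hcube (by positivity)) (by positivity)
    refine (add_le_add e2 e3).trans (le_of_eq ?_)
    field_simp
  have h2 : (Cw / V.card) ^ r * (V.card : ℝ) ^ r = Cw ^ r := by
    rw [← mul_pow, div_mul_cancel₀ _ hX.ne']
  calc Real.exp 1 * (Cw / V.card) ^ r * ∑ H ∈ powersetCard r V, x H * E H ≤
        Real.exp 1 * (Cw / V.card) ^ r * ((η / s + s / 2 * ((1 + r) * (1 + CE))) * (V.card : ℝ) ^ r) := by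
        apply mul_le_mul_of_nonneg_left hmain
        positivity
    _ = Real.exp 1 * ((Cw / V.card) ^ r * (V.card : ℝ) ^ r) * (η / s + s / 2 * ((1 + r) * (1 + CE))) := by ring
    _ = _ := by rw [h2]

omit [Fintype T] in
/-- **The conditional Poisson law.** -/
theorem engine (Λ Cw : ℝ) (hΛ : 0 < Λ) (hCw : 1 ≤ Cw) (j : ℕ) (ε : ℝ) (hε : 0 < ε) : ∃ B : ℝ, 0 < B ∧ ∀ CE : ℝ, 0 ≤ CE →
    ∃ η : ℝ, 0 < η ∧ ∀ (T₁ : Type) [Fintype T₁] (S : Finset β) (τ : β → T₁) (V : Finset α) (R : α → β → Prop) (K : ℕ), S.Nonempty → V.Nonempty →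
    Cond S τ V R K η Λ Cw B CE →
    |freq S V R K j - ∑ t : Fin K → T₁, pm S τ t * poi (cme S τ V R t) j| ≤ ε := by
  set A : ℝ := 4 * Λ / ε + 1 with hA
  have hA1 : 1 ≤ A := by
    have : 0 < 4 * Λ / ε := by positivity
    linarith
  have hA0 : 0 < A := by linarith
  obtain ⟨m₀, hm₀⟩ := pal_close A (ε / 4) hA0 (by positivity) j
  set m := m₀ with hm
  set r₁ := j + 2 * m with hr₁
  refine ⟨3 * (r₁ : ℝ) ^ 2 + 1, by positivity, fun CE hCE => ?_⟩
  set C₁ : ℝ := ∑ i ∈ range (2 * m + 1), ((j + i).choose j : ℝ) * (Real.exp 1 * Cw ^ (j + i) * (1 + (1 + (j + i : ℕ)) * (1 + CE)) + A ^ (j + i)) with hC₁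
  have hC₁0 : 0 < C₁ := by
    rw [hC₁]
    apply sum_pos
    · intro i _
      have h1 : 0 < (j + i).choose j := Nat.choose_pos (by omega)
      have h2 : (0 : ℝ) < ((j + i).choose j : ℝ) := by exact_mod_cast h1
      positivity
    · exact ⟨0, by simp⟩
  set s : ℝ := min 1 (ε / (4 * C₁)) with hs
  have hs0 : 0 < s := lt_min one_pos (by positivity)
  have hs1 : s ≤ 1 := min_le_left _ _
  have hs2 : s ≤ ε / (4 * C₁) := min_le_right _ _
  refine ⟨s ^ 2, by positivity, fun T₁ _ S τ V R K hS hV hC => ?_⟩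
  have h1 := compare S hS τ V R K j m A (ε / 4) hA1 (by positivity) (fun L hL0 hL1 M hM => hm₀ M (by omega) L hL0 hL1)
  refine h1.trans ?_
  have h2 : (∑ n ∈ V, (1 - dg S R n) ^ K) / A ≤ ε / 4 := by
    rw [div_le_iff₀ hA0]
    have e1 := hC.mean
    have e2 : ε / 4 * A = Λ + ε / 4 := by
      rw [hA]
      field_simp
    rw [e2]
    linarith
  have h3 : ∑ i ∈ range (2 * m + 1), ((j + i).choose j : ℝ) * (∑ t : Fin K → T₁, xd S τ V R t (j + i) +
        A ^ (j + i) * ∑ n ∈ V, (∑ t : T₁, qd S τ t * (1 - ud S τ R n t) ^ 2) ^ K) ≤ s * C₁ := by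
    rw [hC₁, mul_sum]
    apply sum_le_sum
    intro i hi
    have hi' := mem_range.1 hi
    have e1 : 3 * ((j + i : ℕ) : ℝ) ^ 2 ≤ 3 * (r₁ : ℝ) ^ 2 + 1 := by
      have f1 : ((j + i : ℕ) : ℝ) ≤ r₁ := by
        rw [hr₁]
        exact_mod_cast (by omega : j + i ≤ j + 2 * m)
      have f2 : ((j + i : ℕ) : ℝ) ^ 2 ≤ (r₁ : ℝ) ^ 2 := pow_le_pow_left₀ (Nat.cast_nonneg _) f1 2
      linarith
    have e2 := xd_bd S hS τ V hV R K (j + i) (s ^ 2) Λ Cw _ CE s hC e1 hCE hs0
    have e3 : s ^ 2 / s = s := by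
      field_simp
    rw [e3] at e2
    have e4 := mul_le_mul_of_nonneg_left hC.diag (pow_nonneg hA0.le (j + i))
    have hCwp : 0 ≤ Cw ^ (j + i) := pow_nonneg (by linarith) _
    have e5 : Real.exp 1 * Cw ^ (j + i) * (s + s / 2 * ((1 + (j + i : ℕ)) * (1 + CE))) ≤
        s * (Real.exp 1 * Cw ^ (j + i) * (1 + (1 + (j + i : ℕ)) * (1 + CE))) := by
      have f1 : 0 ≤ Real.exp 1 * Cw ^ (j + i) := mul_nonneg (Real.exp_pos _).le hCwp
      have f2 : s + s / 2 * ((1 + (j + i : ℕ)) * (1 + CE)) ≤ s * (1 + (1 + (j + i : ℕ)) * (1 + CE)) := by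
        have : 0 ≤ s * ((1 + ((j + i : ℕ) : ℝ)) * (1 + CE)) := by positivity
        linarith
      calc _ ≤ Real.exp 1 * Cw ^ (j + i) * (s * (1 + (1 + (j + i : ℕ)) * (1 + CE))) := mul_le_mul_of_nonneg_left f2 f1
        _ = _ := by ring
    have e6 : A ^ (j + i) * s ^ 2 ≤ s * A ^ (j + i) := by
      have f1 : s ^ 2 ≤ s := by nlinarith
      have f2 : 0 ≤ A ^ (j + i) := pow_nonneg hA0.le _
      nlinarith
    have hch : (0 : ℝ) ≤ ((j + i).choose j : ℝ) := Nat.cast_nonneg _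
    calc ((j + i).choose j : ℝ) * (∑ t : Fin K → T₁, xd S τ V R t (j + i) +
        A ^ (j + i) * ∑ n ∈ V, (∑ t : T₁, qd S τ t * (1 - ud S τ R n t) ^ 2) ^ K) ≤
        ((j + i).choose j : ℝ) * (s * (Real.exp 1 * Cw ^ (j + i) * (1 + (1 + (j + i : ℕ)) * (1 + CE))) + s * A ^ (j + i)) := by
          apply mul_le_mul_of_nonneg_left _ hch
          linarith
      _ = _ := by ring
  have h4 : s * C₁ ≤ ε / 4 := by
    calc s * C₁ ≤ ε / (4 * C₁) * C₁ := mul_le_mul_of_nonneg_right hs2 hC₁0.le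
      _ = ε / 4 := by
          field_simp
  linarith

end Pool.Agent.Q145.GC
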