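import Pool.Agent.Q145.GC.Main

set_option autoImplicit false
set_option maxHeartbeats 4000000

/-! # The law given the level `w` -/

namespace Pool.Agent.Q145.GC

open Finset MeasureTheory ProbabilityTheory Filter Topology
open Pool.Agent.Q145.RA (seqs card_seqs surv card_filter_inst card_restrict missed_surv)
open Pool.Agent.Q145.GP (poi freq poi_nonneg)

open scoped Classical

/-- the proportion of the `X`-subsets of `[1, Y]` with a property -/
noncomputable def bad (X Y : ℕ) (P : Finset ℕ → Prop) : ℝ :=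
  (((powersetCard X (Icc 1 Y)).filter (fun V => P V)).card : ℝ) / (Y.choose X : ℝ)

theorem bad_nonneg (X Y : ℕ) (P : Finset ℕ → Prop) : 0 ≤ bad X Y P := by unfold bad; positivity

theorem bad_mono (X Y : ℕ) (P Q : Finset ℕ → Prop) (h : ∀ V ∈ powersetCard X (Icc 1 Y), P V → Q V) : bad X Y P ≤ bad X Y Q := by
  unfold bad
  apply div_le_div_of_nonneg_right _ (Nat.cast_nonneg _)
  exact_mod_cast card_le_card (fun V hV => by
    rw [mem_filter] at hV ⊢
    exact ⟨hV.1, h V hV.1 hV.2⟩)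

theorem bad_or (X Y : ℕ) (P Q : Finset ℕ → Prop) : bad X Y (fun V => P V ∨ Q V) ≤ bad X Y P + bad X Y Q := by
  unfold bad
  rw [← add_div]
  apply div_le_div_of_nonneg_right _ (Nat.cast_nonneg _)
  have h1 : (powersetCard X (Icc 1 Y)).filter (fun V => P V ∨ Q V) ⊆
      (powersetCard X (Icc 1 Y)).filter (fun V => P V) ∪ (powersetCard X (Icc 1 Y)).filter (fun V => Q V) := by
    intro V hV
    obtain ⟨h2, h3⟩ := mem_filter.1 hV
    rcases h3 with h3 | h3
    · exact mem_union_left _ (mem_filter.2 ⟨h2, h3⟩)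
    · exact mem_union_right _ (mem_filter.2 ⟨h2, h3⟩)
  have h2 := (card_le_card h1).trans (card_union_le _ _)
  refine (le_of_eq (congrArg Nat.cast (card_filter_inst _ _ _ _))).trans ((Nat.cast_le.2 h2).trans (le_of_eq ?_))
  push_cast
  rfl

theorem bad_exists {ι : Type} [Fintype ι] (X Y : ℕ) (P : ι → Finset ℕ → Prop) : bad X Y (fun V => ∃ c, P c V) ≤ ∑ c, bad X Y (P c) := by
  unfold bad
  rw [← sum_div]
  apply div_le_div_of_nonneg_right _ (Nat.cast_nonneg _)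
  have h1 : (powersetCard X (Icc 1 Y)).filter (fun V => ∃ c, P c V) ⊆
      univ.biUnion (fun c => (powersetCard X (Icc 1 Y)).filter (fun V => P c V)) := by
    intro V hV
    obtain ⟨h2, c, h3⟩ := mem_filter.1 hV
    exact mem_biUnion.2 ⟨c, mem_univ _, mem_filter.2 ⟨h2, h3⟩⟩
  have h2 := (card_le_card h1).trans card_biUnion_le
  refine (le_of_eq (congrArg Nat.cast (card_filter_inst _ _ _ _))).trans ((Nat.cast_le.2 h2).trans (le_of_eq ?_))
  push_cast
  rfl

theorem bad_le (X Y : ℕ) (h : X ≤ Y) (P : Finset ℕ → Prop) {inst : DecidablePred P} (c : ℝ)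
    (hc : (((@Finset.filter _ P inst (powersetCard X (Icc 1 Y)))).card : ℝ) ≤ c * (Y.choose X : ℝ)) : bad X Y P ≤ c := by
  unfold bad
  have h1 : (0 : ℝ) < (Y.choose X : ℝ) := by exact_mod_cast Nat.choose_pos h
  rw [div_le_iff₀ h1]
  exact (le_of_eq (congrArg Nat.cast (card_filter_inst _ _ _ _))).trans hc

theorem level (hTh : S_Th) (hCl : S_Cl) (hAsy : S_Asy) (hS1 : S_Sub1) (hS2 : S_Sub2) (hPar : S_Par) (hCls : S_Cls)
    (hUex : S_Uex) (hUtwo : S_Utwo) (hUthr : S_Uthr) (hQd : S_Qd)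
    (ρ lam : ℝ) (hρ : 0 ≤ ρ) (hlam : 0 < lam) (X Y k : ℕ → ℕ) (hP : Par ρ lam X Y k) (j : ℕ)
    (ε δ : ℝ) (hε : 0 < ε) (hδ : 0 < δ) : ∃ w₀ : ℕ, ∀ w : ℕ, w₀ ≤ w → ∀ᶠ i in atTop,
    bad (X i) (Y i) (fun V => ¬ |freq (Icc 1 (Y i)) V Rp (k i) j - ∫ x, poi |lam * x| j ∂(chaos ρ (primorial w))| ≤ ε) ≤ δ := by
  obtain ⟨hk2, hkt, C, hC1, hCe⟩ := hPar ρ lam X Y k hρ hlam hP
  have hYt : Tendsto Y atTop atTop := tendsto_atTop_mono hP.le hP.top
  have hYr : Tendsto (fun i => (Y i : ℝ)) atTop atTop := (tendsto_natCast_atTop_atTop (R := ℝ)).comp hYt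
  have hXr : Tendsto (fun i => (X i : ℝ)) atTop atTop := (tendsto_natCast_atTop_atTop (R := ℝ)).comp hP.top
  have hL : Tendsto (fun i => Real.log (Y i : ℝ)) atTop atTop := Real.tendsto_log_atTop.comp hYr
  have hkr : Tendsto (fun i => (k i : ℝ)) atTop atTop := (tendsto_natCast_atTop_atTop (R := ℝ)).comp hkt
  -- ρ ≤ 1
  have hρ1 : ρ ≤ 1 := by
    apply le_of_tendsto hP.ratio
    filter_upwards [hL.eventually_gt_atTop 0, hP.top.eventually_ge_atTop 1] with i h1 h2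
    rw [div_le_one h1]
    apply Real.log_le_log (by exact_mod_cast h2)
    exact_mod_cast hP.le i
  -- the engine
  obtain ⟨B, hB, hE1⟩ := engine (α := ℕ) (β := ℕ) C C (by linarith) hC1 j (ε / 2) (by positivity)
  obtain ⟨CE₀, hCE₀⟩ := hUex B hB
  set CE : ℝ := max CE₀ 0 * (8 / δ) + 1 with hCE
  have hCE0 : 0 ≤ CE := by positivity
  obtain ⟨η, hη, hE⟩ := hE1 CE hCE0
  obtain ⟨w₀, hw₀⟩ := hUtwo (η * (δ / 8)) (by positivity)
  refine ⟨w₀, fun w hw => ?_⟩
  obtain ⟨Y₁, hY₁⟩ := hCE₀ w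
  obtain ⟨Y₂, hY₂⟩ := hw₀ w hw
  obtain ⟨Y₃, hY₃⟩ := hUthr (η * (δ / 8)) (primorial w) (by positivity)
  obtain ⟨Y₄, hY₄⟩ := hCl (primorial w) 3
  obtain ⟨CT, Y₅, hY₅⟩ := hTh
  set W := primorial w with hW
  have hW0 : (0 : ℝ) < W := by
    rw [hW]
    exact_mod_cast primorial_pos w
  -- the mixture
  obtain ⟨η', hη', hA⟩ := hAsy W ρ lam 1 hρ hlam (fun x => poi |x| j)
    (fun x hx => by
      rw [abs_of_nonneg hx, abs_of_nonneg (poi_nonneg x hx j)]
      exact poi_le_one x hx j)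
    (fun x y hx hy => by
      rw [abs_of_nonneg hx, abs_of_nonneg hy]
      exact poi_lip j x y hx hy) (ε / 2) (by positivity)
  set β := bta W with hβ
  have hβ0 : 0 ≤ β := by
    rw [hβ]
    unfold bta
    positivity
  set CT' : ℝ := max CT 0 with hCT'
  have hCT0 : 0 ≤ CT' := le_max_right _ _
  -- eventual conditions on the parameters
  have v1 : ∀ᶠ i in atTop, (k i : ℝ) ≤ 2 * Real.log (Y i) ^ 2 := by
    filter_upwards [hk2.eventually (gt_mem_nhds (show ρ < 2 by linarith)), hL.eventually_gt_atTop 0] with i h1 h2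
    have := (div_lt_iff₀ (show 0 < Real.log (Y i : ℝ) ^ 2 by positivity)).1 h1
    linarith
  have v2 : ∀ᶠ i in atTop, 1 / η' ≤ (k i : ℝ) := hkr.eventually_ge_atTop _
  have hinv : ∀ c : ℝ, Tendsto (fun i => c / Real.log (Y i : ℝ)) atTop (𝓝 0) := fun c => hL.const_div_atTop c
  have v3 : ∀ᶠ i in atTop, 2 * Real.log (Y i : ℝ) ^ 2 * (1 / Y i) ≤ η' := by
    have h1 : Tendsto (fun i => Real.log (Y i : ℝ) ^ 2 / (Y i : ℝ)) atTop (𝓝 0) := by
      have h2 : Tendsto (fun x : ℝ => Real.log x ^ 2 / x) atTop (𝓝 0) := by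
        have := Real.isLittleO_pow_log_id_atTop (n := 2)
        exact this.tendsto_div_nhds_zero
      exact h2.comp hYr
    filter_upwards [h1.eventually (gt_mem_nhds (show 0 < η' / 2 by positivity))] with i h2
    calc 2 * Real.log (Y i : ℝ) ^ 2 * (1 / Y i) = 2 * (Real.log (Y i : ℝ) ^ 2 / Y i) := by ring
      _ ≤ η' := by linarith
  have v4 : ∀ᶠ i in atTop, 2 / Real.log (Y i : ℝ) ≤ η' :=
    ((hinv 2).eventually (gt_mem_nhds hη')).mono fun i h => h.le
  have hsq : Tendsto (fun i => √(k i : ℝ) / Real.log (Y i)) atTop (𝓝 (√ρ)) := by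
    have h1 := (Real.continuous_sqrt.tendsto ρ).comp hk2
    refine h1.congr' ?_
    filter_upwards [hL.eventually_gt_atTop 0] with i h2
    simp only [Function.comp]
    rw [Real.sqrt_div (Nat.cast_nonneg _), Real.sqrt_sq h2.le]
  have v5 : ∀ᶠ i in atTop, |√(k i : ℝ) / Real.log (Y i) - √ρ| ≤ η' / 2 := by
    have := (tendsto_order.1 ((hsq.sub_const (√ρ)).abs)).2 (η' / 2) (by simp; positivity)
    exact this.mono fun i h => h.le
  have v6 : ∀ᶠ i in atTop, CT' * 2 / Real.log (Y i : ℝ) ≤ η' / 2 :=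
    ((hinv _).eventually (gt_mem_nhds (show 0 < η' / 2 by positivity))).mono fun i h => h.le
  have v7 : ∀ᶠ i in atTop, 1 ≤ Real.log (Y i : ℝ) := hL.eventually_ge_atTop 1
  have v8 : ∀ᶠ i in atTop, ∀ c : ZMod W, |(X i : ℝ) / Y i * ∑ n ∈ (Icc 1 (Y i)).filter (fun n : ℕ => (n : ZMod W) = c),
    (1 - th (Y i) n) ^ (k i) - lam / W| ≤ η' / 2 := by
    rw [eventually_all]
    intro c
    have h1 := hCls W ρ lam X Y k hρ hlam hP c
    have := (tendsto_order.1 ((h1.sub_const (lam / W)).abs)).2 (η' / 2) (by simp; positivity)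
    exact this.mono fun i h => h.le
  set M : ℝ := 2 * (β * (1 + CT') + 1) * (1 + CT') with hM
  have hM0 : 0 ≤ M := by positivity
  have v9 : ∀ᶠ i in atTop, C ^ 2 * Real.exp M / X i ≤ η :=
    ((hXr.const_div_atTop (C ^ 2 * Real.exp M)).eventually (gt_mem_nhds hη)).mono fun i h => h.le
  have v10 : ∀ᶠ i in atTop, W * (C ^ 2 / ((η' / 2) ^ 2 * X i)) ≤ δ / 8 := by
    have h1 : Tendsto (fun i => (W * (C ^ 2 / (η' / 2) ^ 2)) / (X i : ℝ)) atTop (𝓝 0) := hXr.const_div_atTop _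
    filter_upwards [h1.eventually (gt_mem_nhds (show 0 < δ / 8 by positivity))] with i h2
    refine le_trans (le_of_eq ?_) h2.le
    rw [div_mul_eq_div_div, mul_div_assoc]
  filter_upwards [hCe, v1, v2, v3, v4, v5, v6, v7, v8, v9, v10, hP.top.eventually_ge_atTop 1,
    hYt.eventually_ge_atTop (max (max Y₁ Y₂) (max (max Y₃ Y₄) Y₅))] with i gC g1 g2 g3 g4 g5 g6 g7 g8 g9 g10 gX gY
  have gY₁ : Y₁ ≤ Y i := ((le_max_left _ _).trans (le_max_left _ _)).trans gY
  have gY₂ : Y₂ ≤ Y i := ((le_max_right _ _).trans (le_max_left _ _)).trans gY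
  have gY₃ : Y₃ ≤ Y i := (((le_max_left _ _).trans (le_max_left _ _)).trans (le_max_right _ _)).trans gY
  have gY₄ : Y₄ ≤ Y i := (((le_max_right _ _).trans (le_max_left _ _)).trans (le_max_right _ _)).trans gY
  have gY₅ : Y₅ ≤ Y i := ((le_max_right _ _).trans (le_max_right _ _)).trans gY
  have gXY := hP.le i
  have gY1 : 1 ≤ Y i := gX.trans gXY
  clear_value CT' M CE
  set x := X i with hx
  set y := Y i with hy
  set K := k i with hK
  set L := Real.log (y : ℝ) with hLd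
  have hL0 : 0 < L := by linarith
  have hy0 : (0 : ℝ) < y := by exact_mod_cast gY1
  have hx0 : (0 : ℝ) < x := by exact_mod_cast gX
  have hK0 : (0 : ℝ) ≤ K := Nat.cast_nonneg K
  have hcU : (Icc 1 y).card = y := by rw [Nat.card_Icc, Nat.add_sub_cancel]
  have hCE1 : 0 ≤ max CE₀ 0 := le_max_right _ _
  -- the bad sets
  have b2 : bad x y (fun V => ¬ ∑ A ∈ powersetCard 2 V, K * d2 (Icc 1 y) (ta W) Rp A ≤ η * (x : ℝ) ^ 2) ≤ δ / 8 := by
    have h1 := markov hS1 (Icc 1 y) x 2 (fun A => K * d2 (Icc 1 y) (ta W) Rp A) (by rw [hcU]; exact gXY) gX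
      (fun A => mul_nonneg hK0 (d2_nonneg _ _ _ _)) (η * (δ / 8)) η hη (by rw [hcU]; exact hY₂ y gY₂ K g1)
    rw [hcU] at h1
    refine bad_le x y gXY _ _ (h1.trans (le_of_eq ?_))
    congr 1
    field_simp
  have b3 : bad x y (fun V => ¬ ∑ A ∈ powersetCard 3 V, K * c2 (Icc 1 y) (ta W) Rp A ≤ η * (x : ℝ) ^ 3) ≤ δ / 8 := by
    have h1 := markov hS1 (Icc 1 y) x 3 (fun A => K * c2 (Icc 1 y) (ta W) Rp A) (by rw [hcU]; exact gXY) gX
      (fun A => mul_nonneg hK0 (c2_nonneg _ _ _ _)) (η * (δ / 8)) η hη (by rw [hcU]; exact hY₃ y gY₃ K g1)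
    rw [hcU] at h1
    refine bad_le x y gXY _ _ (h1.trans (le_of_eq ?_))
    congr 1
    field_simp
  have b4 : bad x y (fun V => ¬ ∑ A ∈ powersetCard 2 V, Real.exp (B * (K * c2 (Icc 1 y) (ta W) Rp A)) ≤ CE * (x : ℝ) ^ 2) ≤ δ / 8 := by
    have hCEp : 0 < CE := by
      rw [hCE]
      positivity
    have h2 : ∑ A ∈ powersetCard 2 (Icc 1 y), Real.exp (B * (K * c2 (Icc 1 y) (ta W) Rp A)) ≤ max CE₀ 0 * ((Icc 1 y).card : ℝ) ^ 2 := by
      rw [hcU]
      exact (hY₁ y gY₁ K g1).trans (mul_le_mul_of_nonneg_right (le_max_left _ _) (by positivity))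
    have h1 := markov hS1 (Icc 1 y) x 2 (fun A => Real.exp (B * (K * c2 (Icc 1 y) (ta W) Rp A))) (by rw [hcU]; exact gXY) gX
      (fun A => (Real.exp_pos _).le) (max CE₀ 0) CE hCEp h2
    rw [hcU] at h1
    refine bad_le x y gXY _ _ (h1.trans ?_)
    apply mul_le_mul_of_nonneg_right _ (Nat.cast_nonneg _)
    rw [div_le_iff₀ hCEp, hCE]
    have : δ / 8 * (max CE₀ 0 * (8 / δ) + 1) = max CE₀ 0 + δ / 8 := by field_simp
    rw [this]
    linarith
  -- class sums
  have b5 : bad x y (fun V => ∃ c : ZMod W, ¬ |∑ n ∈ V, (if (n : ZMod W) = c then (1 - th y n) ^ K else 0) -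
      (x : ℝ) / y * ∑ n ∈ Icc 1 y, (if (n : ZMod W) = c then (1 - th y n) ^ K else 0)| ≤ η' / 2) ≤ δ / 8 := by
    refine (bad_exists x y (fun (c : ZMod W) V => ¬ |∑ n ∈ V, (if (n : ZMod W) = c then (1 - th y n) ^ K else 0) -
      (x : ℝ) / y * ∑ n ∈ Icc 1 y, (if (n : ZMod W) = c then (1 - th y n) ^ K else 0)| ≤ η' / 2)).trans ?_
    have h1 : ∀ c : ZMod W, bad x y (fun V => ¬ |∑ n ∈ V, (if (n : ZMod W) = c then (1 - th y n) ^ K else 0) -
      (x : ℝ) / y * ∑ n ∈ Icc 1 y, (if (n : ZMod W) = c then (1 - th y n) ^ K else 0)| ≤ η' / 2) ≤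
        C ^ 2 / ((η' / 2) ^ 2 * x) := by
      intro c
      have h2 := cheb hS2 (Icc 1 y) x (fun n => if (n : ZMod W) = c then (1 - th y n) ^ K else 0)
        (by rw [hcU]; exact gXY) gX C (η' / 2) (by linarith) (by positivity) (fun n hn => by
          split_ifs
          · rw [abs_of_nonneg (pow_nonneg (by linarith [th_le_one y n]) _)]
            exact (gC n hn).2
          · rw [abs_zero]
            positivity)
      rw [hcU] at h2
      exact bad_le x y gXY _ _ h2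
    refine (sum_le_sum fun c _ => h1 c).trans ?_
    rw [sum_const, card_univ, ZMod.card, nsmul_eq_mul]
    exact g10
  -- union
  refine (bad_mono x y _ (fun V => ((¬ ∑ A ∈ powersetCard 2 V, K * d2 (Icc 1 y) (ta W) Rp A ≤ η * (x : ℝ) ^ 2) ∨
    (¬ ∑ A ∈ powersetCard 3 V, K * c2 (Icc 1 y) (ta W) Rp A ≤ η * (x : ℝ) ^ 3)) ∨
    ((¬ ∑ A ∈ powersetCard 2 V, Real.exp (B * (K * c2 (Icc 1 y) (ta W) Rp A)) ≤ CE * (x : ℝ) ^ 2) ∨
    (∃ c : ZMod W, ¬ |∑ n ∈ V, (if (n : ZMod W) = c then (1 - th y n) ^ K else 0) -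
      (x : ℝ) / y * ∑ n ∈ Icc 1 y, (if (n : ZMod W) = c then (1 - th y n) ^ K else 0)| ≤ η' / 2))) ?_).trans ?_
  swap
  · refine (bad_or x y _ _).trans ?_
    have h1 := bad_or x y (fun V => ¬ ∑ A ∈ powersetCard 2 V, K * d2 (Icc 1 y) (ta W) Rp A ≤ η * (x : ℝ) ^ 2)
      (fun V => ¬ ∑ A ∈ powersetCard 3 V, K * c2 (Icc 1 y) (ta W) Rp A ≤ η * (x : ℝ) ^ 3)
    have h2 := bad_or x y (fun V => ¬ ∑ A ∈ powersetCard 2 V, Real.exp (B * (K * c2 (Icc 1 y) (ta W) Rp A)) ≤ CE * (x : ℝ) ^ 2)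
      (fun V => ∃ c : ZMod W, ¬ |∑ n ∈ V, (if (n : ZMod W) = c then (1 - th y n) ^ K else 0) -
      (x : ℝ) / y * ∑ n ∈ Icc 1 y, (if (n : ZMod W) = c then (1 - th y n) ^ K else 0)| ≤ η' / 2)
    linarith
  intro V hV
  obtain ⟨hVU, hVc⟩ := mem_powersetCard.1 hV
  contrapose!
  rintro ⟨⟨q2, q3⟩, q4, q5⟩
  -- the conditions of the engine
  have hVc' : (V.card : ℝ) = x := by rw [hVc]
  have hVne : V.Nonempty := card_pos.1 (by omega)
  have hdeg : ∀ n ∈ V, |th y n - 1 / L| ≤ CT' / L ^ 2 := by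
    intro n hn
    obtain ⟨n1, n2⟩ := mem_Icc.1 (hVU hn)
    refine (hY₅ y gY₅ n n1 n2).trans ?_
    apply div_le_div_of_nonneg_right _ (by positivity)
    rw [hCT']
    exact le_max_left _ _
  have hth2 : ∀ n ∈ V, th y n ≤ (1 + CT') / L := by
    intro n hn
    have h1 := (abs_le.1 (hdeg n hn)).2
    have h2 : CT' / L ^ 2 ≤ CT' / L := by
      apply div_le_div_of_nonneg_left hCT0 hL0
      nlinarith
    have h3 : (1 + CT') / L = 1 / L + CT' / L := by ring
    linarith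
  have hud : ∀ n ∈ V, ∀ t : ZMod W, |ud (Icc 1 y) (ta W) Rp n t - th y n * β * un ((n : ZMod W) + t)| ≤ 1 / L ^ 3 := by
    intro n hn t
    obtain ⟨n1, n2⟩ := mem_Icc.1 (hVU hn)
    rw [(hQd W y gY1).2.1 n t]
    exact hY₄ y gY₄ n n1 n2 t
  have hun : ∀ c : ZMod W, 0 ≤ un c ∧ un c ≤ 1 := by
    intro c
    unfold un
    split_ifs <;> norm_num
  have hcond : Cond (Icc 1 y) (ta W) V Rp K η C C B CE := by
    refine ⟨fun n hn => ?_, ?_, ?_, ?_, ?_, ?_⟩
    · rw [dg_th, hVc']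
      exact (gC n (hVU hn)).1
    · have h1 : ∀ n ∈ V, (1 - dg (Icc 1 y) Rp n) ^ K ≤ C / x := by
        intro n hn
        rw [dg_th]
        exact (gC n (hVU hn)).2
      refine (sum_le_sum h1).trans (le_of_eq ?_)
      rw [sum_const, nsmul_eq_mul, hVc']
      field_simp
    · rw [hVc']
      exact q2
    · rw [hVc']
      exact q4
    · rw [hVc']
      exact q3
    · refine (diag_bd W y K x V hVc gX gY1 C M hM0 (fun n hn => (gC n (hVU hn)).1) (fun n hn t => ?_)).trans g9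
      have h1 := (abs_le.1 (hud n hn t)).2
      have h2 := hth2 n hn
      have h3 := th_nonneg y n
      have h4 : ud (Icc 1 y) (ta W) Rp n t ≤ (β * (1 + CT') + 1) / L := by
        have f1 : th y n * β * un ((n : ZMod W) + t) ≤ (1 + CT') / L * β * 1 := by
          apply mul_le_mul _ (hun _).2 (hun _).1 (by positivity)
          exact mul_le_mul_of_nonneg_right h2 hβ0
        have f2 : 1 / L ^ 3 ≤ 1 / L := by
          apply one_div_le_one_div_of_le hL0
          nlinarith [pow_pos hL0 2]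
        have f3 : (β * (1 + CT') + 1) / L = (1 + CT') / L * β * 1 + 1 / L := by ring
        linarith
      calc (K : ℝ) * (ud (Icc 1 y) (ta W) Rp n t * th y n) ≤ (2 * L ^ 2) * ((β * (1 + CT') + 1) / L * ((1 + CT') / L)) := by
            apply mul_le_mul g1 _ (mul_nonneg (ud_nonneg _ _ _ _ _) h3) (by positivity)
            exact mul_le_mul h4 h2 h3 (by positivity)
        _ = M := by
            rw [hM]
            field_simp
  have r1 := hE (ZMod W) (Icc 1 y) (ta W) V Rp K ⟨1, mem_Icc.2 ⟨le_rfl, gY1⟩⟩ hVne hcond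
  -- the conditions for the mixture
  have r2 := hA K (fun t => qd (Icc 1 y) (ta W) t) V (fun n => th y n) (fun n t => ud (Icc 1 y) (ta W) Rp n t) g2
    (fun t => qd_nonneg _ _ _) (sum_qd (Icc 1 y) ⟨1, mem_Icc.2 ⟨le_rfl, gY1⟩⟩ (ta W))
    (fun t => by
      have h1 := (hQd W y gY1).1 t
      have h2 : √(K : ℝ) ≤ 2 * L ^ 2 := by
        rw [Real.sqrt_le_left (by positivity)]
        nlinarith [pow_le_pow_left₀ zero_le_one g7 2]
      exact (mul_le_mul h2 h1 (abs_nonneg _) (by positivity)).trans g3)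
    (fun n _ t => ⟨ud_nonneg _ _ _ _ _, ud_le_one _ _ _ _ _⟩) (fun n _ => ⟨th_nonneg _ _, th_le_one _ _⟩)
    (fun n hn t => by
      refine (mul_le_mul g1 (hud n hn t) (abs_nonneg _) (by positivity)).trans ?_
      refine le_trans (le_of_eq ?_) g4
      field_simp)
    (fun n hn => by
      have h1 : th y n * √(K : ℝ) - √ρ = (th y n - 1 / L) * √(K : ℝ) + (√(K : ℝ) / L - √ρ) := by ring
      rw [h1]
      refine (abs_add_le _ _).trans ?_
      have h2 : |(th y n - 1 / L) * √(K : ℝ)| ≤ η' / 2 := by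
        rw [abs_mul, abs_of_nonneg (Real.sqrt_nonneg _)]
        have h3 : √(K : ℝ) ≤ 2 * L := by
          rw [Real.sqrt_le_left (by positivity)]
          nlinarith
        calc |th y n - 1 / L| * √(K : ℝ) ≤ CT' / L ^ 2 * (2 * L) := mul_le_mul (hdeg n hn) h3 (Real.sqrt_nonneg _) (by positivity)
          _ = CT' * 2 / L := by field_simp
          _ ≤ η' / 2 := g6
      linarith)
    (fun c => by
      have h1 := q5 c
      have h2 := g8 c
      have h3 : ∑ n ∈ V.filter (fun n : ℕ => (n : ZMod W) = c), (1 - th y n) ^ K =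
          ∑ n ∈ V, (if (n : ZMod W) = c then (1 - th y n) ^ K else 0) := by rw [sum_filter]
      have h4 : ∑ n ∈ (Icc 1 y).filter (fun n : ℕ => (n : ZMod W) = c), (1 - th y n) ^ K =
          ∑ n ∈ Icc 1 y, (if (n : ZMod W) = c then (1 - th y n) ^ K else 0) := by rw [sum_filter]
      rw [h3]
      rw [h4] at h2
      have h5 := abs_add_le (∑ n ∈ V, (if (n : ZMod W) = c then (1 - th y n) ^ K else 0) -
        (x : ℝ) / y * ∑ n ∈ Icc 1 y, (if (n : ZMod W) = c then (1 - th y n) ^ K else 0))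
        ((x : ℝ) / y * ∑ n ∈ Icc 1 y, (if (n : ZMod W) = c then (1 - th y n) ^ K else 0) - lam / W)
      rw [sub_add_sub_cancel] at h5
      linarith)
  have r3 : ∑ t : Fin K → ZMod W, (∏ i, qd (Icc 1 y) (ta W) (t i)) * poi |cm V (fun n t => ud (Icc 1 y) (ta W) Rp n t) t| j =
      ∑ t : Fin K → ZMod W, pm (Icc 1 y) (ta W) t * poi (cme (Icc 1 y) (ta W) V Rp t) j := by
    apply sum_congr rfl
    intro t _
    have h1 : cm V (fun n t => ud (Icc 1 y) (ta W) Rp n t) t = cme (Icc 1 y) (ta W) V Rp t := rfl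
    rw [h1, abs_of_nonneg (cme_nonneg _ _ _ _ _)]
    rfl
  rw [r3] at r2
  have h5 := abs_add_le (freq (Icc 1 y) V Rp K j - ∑ t : Fin K → ZMod W, pm (Icc 1 y) (ta W) t * poi (cme (Icc 1 y) (ta W) V Rp t) j)
    (∑ t : Fin K → ZMod W, pm (Icc 1 y) (ta W) t * poi (cme (Icc 1 y) (ta W) V Rp t) j - ∫ x, poi |lam * x| j ∂(chaos ρ W))
  rw [sub_add_sub_cancel] at h5
  linarith

end Pool.Agent.Q145.GC
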