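import Pool.Agent.Q145.GC.Spec3
import Pool.Agent.Q145.RA.All

set_option autoImplicit false
set_option maxHeartbeats 4000000

/-! # Assembly: the law given the level `w` -/

namespace Pool.Agent.Q145.GC

open Finset MeasureTheory ProbabilityTheory Filter Topology
open Pool.Agent.Q145.RA (seqs card_seqs surv card_filter_inst card_restrict missed_surv)
open Pool.Agent.Q145.GP (poi freq poi_nonneg)

open scoped Classical

/-! ## The Poisson weights -/

theorem poi_cont (j : ℕ) : Continuous (fun x : ℝ => poi x j) := by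
  unfold poi
  fun_prop

theorem poi_lip (j : ℕ) (x y : ℝ) (hx : 0 ≤ x) (hy : 0 ≤ y) : |poi x j - poi y j| ≤ 1 * |x - y| := by
  have hd : ∀ z ∈ Set.Ici (0 : ℝ), HasDerivWithinAt (fun x => poi x j)
      (-poi z j + (if j = 0 then 0 else poi z (j - 1))) (Set.Ici 0) z := by
    intro z _
    apply HasDerivAt.hasDerivWithinAt
    unfold poi
    have h1 : HasDerivAt (fun x : ℝ => Real.exp (-x)) (-Real.exp (-z)) z := by
      have := (hasDerivAt_neg z).exp
      simpa using this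
    have h2 : HasDerivAt (fun x : ℝ => x ^ j) (j * z ^ (j - 1)) z := hasDerivAt_pow j z
    have h3 := (h1.mul h2).div_const (j.factorial : ℝ)
    refine h3.congr_deriv ?_
    rcases j with _ | j
    · simp
    · rw [if_neg (Nat.succ_ne_zero j), Nat.add_sub_cancel, Nat.factorial_succ]
      have hf : (j.factorial : ℝ) ≠ 0 := by exact_mod_cast (Nat.factorial_pos j).ne'
      have hj : ((j : ℝ) + 1) ≠ 0 := by positivity
      push_cast
      field_simp
  have hb : ∀ z ∈ Set.Ici (0 : ℝ), ‖-poi z j + (if j = 0 then 0 else poi z (j - 1))‖ ≤ 1 := by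
    intro z hz
    have a1 := poi_nonneg z hz j
    have a2 := poi_le_one z hz j
    have a3 := poi_nonneg z hz (j - 1)
    have a4 := poi_le_one z hz (j - 1)
    rw [Real.norm_eq_abs, abs_le]
    split_ifs <;> constructor <;> linarith
  have := (convex_Ici (0 : ℝ)).norm_image_sub_le_of_norm_hasDerivWithin_le hd hb hy hx
  simpa [Real.norm_eq_abs] using this

/-! ## Frequencies and degrees -/

theorem free (S : Finset ℕ) {k K : ℕ} (h : k ≤ K) (B : (Fin k → ℕ) → Prop) :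
    ((seqs S K).filter (fun s => B (fun i => s (Fin.castLE h i)))).card =
      ((seqs S k).filter B).card * S.card ^ (K - k) := by
  have h1 := card_restrict S h B
  have h2 := card_restrict S h (fun s => ¬ B s)
  have h3 := card_filter_add_card_filter_not (s := seqs S K) (fun s => B (fun i => s (Fin.castLE h i)))
  have h4 := card_filter_add_card_filter_not (s := seqs S k) B
  rw [card_seqs] at h3 h4
  have h5 : S.card ^ K = S.card ^ k * S.card ^ (K - k) := by rw [← pow_add, Nat.add_sub_cancel' h]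
  have h6 : ((seqs S k).filter B).card * S.card ^ (K - k) + ((seqs S k).filter (fun s => ¬ B s)).card * S.card ^ (K - k) =
      S.card ^ K := by
    rw [← add_mul, h4, h5]
  have h7 : ((seqs S K).filter (fun s => ¬ B (fun i => s (Fin.castLE h i)))).card ≤
      ((seqs S k).filter (fun s => ¬ B s)).card * S.card ^ (K - k) := by
    refine (le_of_eq (card_filter_inst _ _ _ _)).trans (h2.trans (le_of_eq ?_))
    rw [card_filter_inst (seqs S k) (fun s => ¬ B s) _ _]
  have h8 := h6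
  have h9 := h3
  rw [card_filter_inst (seqs S K) (fun s => ¬ B (fun i => s (Fin.castLE h i))) _ (fun s => Classical.propDecidable _)] at h7
  rw [card_filter_inst (seqs S K) (fun s => ¬ B (fun i => s (Fin.castLE h i))) _ (fun s => Classical.propDecidable _)] at h9
  rw [card_filter_inst (seqs S k) (fun s => ¬ B s) _ (fun s => Classical.propDecidable _)] at h7
  rw [card_filter_inst (seqs S k) (fun s => ¬ B s) _ (fun s => Classical.propDecidable _)] at h8
  omega

theorem joint_one (V : Finset ℕ) (Y K k b : ℕ) (h : k ≤ K) (hY : 1 ≤ Y) :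
    joint V Y K (fun _ : Fin 1 => k) (fun _ => b) = freq (Icc 1 Y) V Rp k b := by
  unfold joint freq
  have hc : (Icc 1 Y).card = Y := by rw [Nat.card_Icc, Nat.add_sub_cancel]
  have h1 : ((Fintype.piFinset (fun _ : Fin K => Icc 1 Y)).filter (fun a => ∀ l : Fin 1, mis V a k = b)) =
      (seqs (Icc 1 Y) K).filter (fun s => surv Rp V (fun i => s (Fin.castLE h i)) = b) := by
    unfold seqs
    apply filter_congr
    intro s _
    rw [← missed_surv Rp V h s]
    have h5 : mis V s k = (Pool.Agent.Q145.RA.missed Rp V k s).card := by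
      unfold mis Pool.Agent.Q145.RA.missed Rp
      exact card_filter_inst _ _ _ _
    rw [h5]
    constructor
    · intro h2
      exact h2 0
    · intro h2 _
      exact h2
  have h3 : (((seqs (Icc 1 Y) K).filter (fun s => surv Rp V (fun i => s (Fin.castLE h i)) = b)).card : ℝ) =
      (((seqs (Icc 1 Y) k).filter (fun s => surv Rp V s = b)).card : ℝ) * (Y : ℝ) ^ (K - k) := by
    have h4 := free (Icc 1 Y) h (fun s => surv Rp V s = b)
    rw [hc] at h4
    exact_mod_cast (card_filter_inst _ _ _ _).trans (h4.trans (congrArg (· * Y ^ (K - k)) (card_filter_inst _ _ _ _)))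
  rw [h1, h3, hc]
  have hY0 : (0 : ℝ) < Y := by exact_mod_cast hY
  have h2 : (Y : ℝ) ^ K = (Y : ℝ) ^ k * (Y : ℝ) ^ (K - k) := by rw [← pow_add, Nat.add_sub_cancel' h]
  rw [h2]
  push_cast
  field_simp

theorem dg_th (Y n : ℕ) : dg (Icc 1 Y) Rp n = th Y n := by
  unfold dg th Rp
  rw [Nat.card_Icc, Nat.add_sub_cancel, card_filter_inst]

theorem th_nonneg (Y n : ℕ) : 0 ≤ th Y n := by unfold th; positivity

theorem th_le_one (Y n : ℕ) : th Y n ≤ 1 := by
  unfold th
  apply div_le_one_of_le₀ _ (Nat.cast_nonneg _)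
  have := card_filter_le (Icc 1 Y) (fun s => (n + s).Prime)
  rw [Nat.card_Icc, Nat.add_sub_cancel] at this
  exact_mod_cast this

/-! ## Random subsets -/

theorem markov (h : S_Sub1) (U : Finset ℕ) (X a : ℕ) (F : Finset ℕ → ℝ) (hX : X ≤ U.card) (hX1 : 1 ≤ X) (hF : ∀ A, 0 ≤ F A)
    (c M : ℝ) (hM : 0 < M) (hU : ∑ A ∈ powersetCard a U, F A ≤ c * (U.card : ℝ) ^ a) :
    (((powersetCard X U).filter (fun V => ¬ ∑ A ∈ powersetCard a V, F A ≤ M * (X : ℝ) ^ a)).card : ℝ) ≤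
      c / M * (U.card.choose X : ℝ) := by
  have h1 := h U X a F hX hF
  have hX0 : (0 : ℝ) < X := by exact_mod_cast hX1
  have hU0 : (0 : ℝ) < U.card := by exact_mod_cast (by omega : 0 < U.card)
  have hXa : (0 : ℝ) < (X : ℝ) ^ a := by positivity
  have hUa : (0 : ℝ) < (U.card : ℝ) ^ a := by positivity
  have h2 : (((powersetCard X U).filter (fun V => ¬ ∑ A ∈ powersetCard a V, F A ≤ M * (X : ℝ) ^ a)).card : ℝ) *
      (M * (X : ℝ) ^ a) ≤ ∑ V ∈ powersetCard X U, ∑ A ∈ powersetCard a V, F A := by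
    calc _ = ∑ V ∈ (powersetCard X U).filter (fun V => ¬ ∑ A ∈ powersetCard a V, F A ≤ M * (X : ℝ) ^ a), M * (X : ℝ) ^ a := by
          rw [sum_const, nsmul_eq_mul]
      _ ≤ ∑ V ∈ (powersetCard X U).filter (fun V => ¬ ∑ A ∈ powersetCard a V, F A ≤ M * (X : ℝ) ^ a),
            ∑ A ∈ powersetCard a V, F A := sum_le_sum fun V hV => (not_le.1 (mem_filter.1 hV).2).le
      _ ≤ _ := sum_le_sum_of_subset_of_nonneg (filter_subset _ _) fun V _ _ => sum_nonneg fun A _ => hF A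
  have h3 : (∑ V ∈ powersetCard X U, ∑ A ∈ powersetCard a V, F A) * (U.card : ℝ) ^ a ≤
      (U.card.choose X : ℝ) * (X : ℝ) ^ a * (c * (U.card : ℝ) ^ a) :=
    h1.trans (mul_le_mul_of_nonneg_left hU (by positivity))
  have h4 : (∑ V ∈ powersetCard X U, ∑ A ∈ powersetCard a V, F A) ≤ (U.card.choose X : ℝ) * (X : ℝ) ^ a * c := by
    rw [← mul_le_mul_iff_left₀ hUa]
    linarith
  have h5 := h2.trans h4
  rw [div_mul_eq_mul_div, le_div_iff₀ hM]
  rw [← mul_le_mul_iff_left₀ hXa]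
  linarith

theorem cheb (h : S_Sub2) (U : Finset ℕ) (X : ℕ) (g : ℕ → ℝ) (hX : X ≤ U.card) (hX1 : 1 ≤ X) (C η : ℝ)
    (hC : 0 ≤ C) (hη : 0 < η) (hg : ∀ n ∈ U, |g n| ≤ C / X) :
    (((powersetCard X U).filter (fun V => ¬ |∑ n ∈ V, g n - (X : ℝ) / U.card * ∑ n ∈ U, g n| ≤ η)).card : ℝ) ≤
      C ^ 2 / (η ^ 2 * X) * (U.card.choose X : ℝ) := by
  have h1 := h U X g hX
  have hX0 : (0 : ℝ) < X := by exact_mod_cast hX1
  have hU0 : (0 : ℝ) < U.card := by exact_mod_cast (by omega : 0 < U.card)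
  have h2 : (((powersetCard X U).filter (fun V => ¬ |∑ n ∈ V, g n - (X : ℝ) / U.card * ∑ n ∈ U, g n| ≤ η)).card : ℝ) *
      η ^ 2 ≤ ∑ V ∈ powersetCard X U, (∑ n ∈ V, g n - (X : ℝ) / U.card * ∑ n ∈ U, g n) ^ 2 := by
    calc _ = ∑ V ∈ (powersetCard X U).filter (fun V => ¬ |∑ n ∈ V, g n - (X : ℝ) / U.card * ∑ n ∈ U, g n| ≤ η), η ^ 2 := by
          rw [sum_const, nsmul_eq_mul]
      _ ≤ ∑ V ∈ (powersetCard X U).filter (fun V => ¬ |∑ n ∈ V, g n - (X : ℝ) / U.card * ∑ n ∈ U, g n| ≤ η),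
            (∑ n ∈ V, g n - (X : ℝ) / U.card * ∑ n ∈ U, g n) ^ 2 := by
          apply sum_le_sum
          intro V hV
          have h3 := (not_le.1 (mem_filter.1 hV).2).le
          rw [← sq_abs (∑ n ∈ V, g n - (X : ℝ) / U.card * ∑ n ∈ U, g n)]
          exact pow_le_pow_left₀ hη.le h3 2
      _ ≤ _ := sum_le_sum_of_subset_of_nonneg (filter_subset _ _) fun V _ _ => sq_nonneg _
  have h3 : ∑ n ∈ U, g n ^ 2 ≤ U.card * (C / X) ^ 2 := by
    calc ∑ n ∈ U, g n ^ 2 ≤ ∑ _n ∈ U, (C / X) ^ 2 := by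
          apply sum_le_sum
          intro n hn
          rw [← sq_abs]
          exact pow_le_pow_left₀ (abs_nonneg _) (hg n hn) 2
      _ = _ := by rw [sum_const, nsmul_eq_mul]
  have h4 : (X : ℝ) / U.card * ∑ n ∈ U, g n ^ 2 ≤ C ^ 2 / X := by
    calc (X : ℝ) / U.card * ∑ n ∈ U, g n ^ 2 ≤ (X : ℝ) / U.card * (U.card * (C / X) ^ 2) :=
          mul_le_mul_of_nonneg_left h3 (by positivity)
      _ = _ := by field_simp
  have h5 : (((powersetCard X U).filter (fun V => ¬ |∑ n ∈ V, g n - (X : ℝ) / U.card * ∑ n ∈ U, g n| ≤ η)).card : ℝ) *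
      η ^ 2 ≤ (U.card.choose X : ℝ) * (C ^ 2 / X) :=
    (h2.trans h1).trans (mul_le_mul_of_nonneg_left h4 (Nat.cast_nonneg _))
  have hη2 : 0 < η ^ 2 := by positivity
  rw [← mul_le_mul_iff_left₀ hη2]
  refine h5.trans (le_of_eq ?_)
  field_simp

/-! ## The diagonal -/

theorem diag_bd (W : ℕ) [NeZero W] (Y K X : ℕ) (V : Finset ℕ) (hV : V.card = X) (hX : 1 ≤ X) (hY : 1 ≤ Y) (C M : ℝ) (hM : 0 ≤ M)
    (hw : ∀ n ∈ V, Real.exp (-(K * th Y n)) ≤ C / X)
    (hu : ∀ n ∈ V, ∀ t : ZMod W, K * (ud (Icc 1 Y) (ta W) Rp n t * th Y n) ≤ M) :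
    ∑ n ∈ V, (∑ t : ZMod W, qd (Icc 1 Y) (ta W) t * (1 - ud (Icc 1 Y) (ta W) Rp n t) ^ 2) ^ K ≤ C ^ 2 * Real.exp M / X := by
  have hX0 : (0 : ℝ) < X := by exact_mod_cast hX
  have hS : (Icc 1 Y).Nonempty := ⟨1, mem_Icc.2 ⟨le_rfl, hY⟩⟩
  have h1 : ∀ n ∈ V, (∑ t : ZMod W, qd (Icc 1 Y) (ta W) t * (1 - ud (Icc 1 Y) (ta W) Rp n t) ^ 2) ^ K ≤
      (C / X) ^ 2 * Real.exp M := by
    intro n hn
    rcases Nat.eq_zero_or_pos K with hK | hK
    · subst hK
      rw [pow_zero]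
      have h2 := hw n hn
      simp only [Nat.cast_zero, zero_mul, neg_zero, Real.exp_zero] at h2
      have h3 : (1 : ℝ) ≤ (C / X) ^ 2 := one_le_pow₀ h2
      have h4 : 1 ≤ Real.exp M := Real.one_le_exp hM
      nlinarith
    have hK0 : (0 : ℝ) < K := by exact_mod_cast hK
    have e1 : ∑ t : ZMod W, qd (Icc 1 Y) (ta W) t * (1 - ud (Icc 1 Y) (ta W) Rp n t) ^ 2 =
        1 - 2 * th Y n + ∑ t : ZMod W, (qd (Icc 1 Y) (ta W) t * ud (Icc 1 Y) (ta W) Rp n t) * ud (Icc 1 Y) (ta W) Rp n t := by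
      have f1 : ∀ t : ZMod W, qd (Icc 1 Y) (ta W) t * (1 - ud (Icc 1 Y) (ta W) Rp n t) ^ 2 =
          qd (Icc 1 Y) (ta W) t - 2 * jn (Icc 1 Y) (ta W) Rp {n} t +
          (qd (Icc 1 Y) (ta W) t * ud (Icc 1 Y) (ta W) Rp n t) * ud (Icc 1 Y) (ta W) Rp n t := by
        intro t
        rw [← qd_mul_ud]
        ring
      rw [sum_congr rfl fun t _ => f1 t, sum_add_distrib, sum_sub_distrib, ← mul_sum, sum_qd (Icc 1 Y) hS (ta W),
        sum_jn_one (Icc 1 Y) (ta W) Rp n, dg_th]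
    have e2 : ∀ t : ZMod W, (qd (Icc 1 Y) (ta W) t * ud (Icc 1 Y) (ta W) Rp n t) * ud (Icc 1 Y) (ta W) Rp n t * th Y n ≤
        jn (Icc 1 Y) (ta W) Rp {n} t * (M / K) := by
      intro t
      rw [qd_mul_ud, mul_assoc]
      apply mul_le_mul_of_nonneg_left _ (jn_nonneg _ _ _ _ _)
      rw [le_div_iff₀ hK0]
      have := hu n hn t
      linarith
    have e3 : (∑ t : ZMod W, (qd (Icc 1 Y) (ta W) t * ud (Icc 1 Y) (ta W) Rp n t) * ud (Icc 1 Y) (ta W) Rp n t) * th Y n ≤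
        th Y n * (M / K) := by
      rw [sum_mul]
      refine (sum_le_sum fun t _ => e2 t).trans (le_of_eq ?_)
      rw [← sum_mul, sum_jn_one, dg_th]
    have e4 : ∑ t : ZMod W, (qd (Icc 1 Y) (ta W) t * ud (Icc 1 Y) (ta W) Rp n t) * ud (Icc 1 Y) (ta W) Rp n t ≤ M / K := by
      rcases (th_nonneg Y n).eq_or_lt with h | h
      · have e5 : ∑ t : ZMod W, jn (Icc 1 Y) (ta W) Rp {n} t = 0 := by rw [sum_jn_one, dg_th, ← h]
        have e6 : ∀ t : ZMod W, jn (Icc 1 Y) (ta W) Rp {n} t = 0 := by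
          intro t
          exact (sum_eq_zero_iff_of_nonneg (fun t _ => jn_nonneg _ _ _ _ _)).1 e5 t (mem_univ _)
        have e7 : ∑ t : ZMod W, (qd (Icc 1 Y) (ta W) t * ud (Icc 1 Y) (ta W) Rp n t) * ud (Icc 1 Y) (ta W) Rp n t = 0 := by
          apply sum_eq_zero
          intro t _
          rw [qd_mul_ud, e6 t, zero_mul]
        rw [e7]
        positivity
      · rw [← mul_le_mul_iff_left₀ h]
        linarith
    have e5 : 0 ≤ ∑ t : ZMod W, qd (Icc 1 Y) (ta W) t * (1 - ud (Icc 1 Y) (ta W) Rp n t) ^ 2 :=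
      sum_nonneg fun t _ => mul_nonneg (qd_nonneg _ _ _) (sq_nonneg _)
    have e6 : ∑ t : ZMod W, qd (Icc 1 Y) (ta W) t * (1 - ud (Icc 1 Y) (ta W) Rp n t) ^ 2 ≤
        Real.exp (-2 * th Y n + M / K) := by
      rw [e1]
      have := Real.add_one_le_exp (-2 * th Y n + M / K)
      linarith
    calc (∑ t : ZMod W, qd (Icc 1 Y) (ta W) t * (1 - ud (Icc 1 Y) (ta W) Rp n t) ^ 2) ^ K ≤
          Real.exp (-2 * th Y n + M / K) ^ K := pow_le_pow_left₀ e5 e6 K
      _ = Real.exp (-(K * th Y n)) ^ 2 * Real.exp M := by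
          rw [← Real.exp_nat_mul, ← Real.exp_nat_mul, ← Real.exp_add]
          congr 1
          field_simp
          push_cast
          ring
      _ ≤ (C / X) ^ 2 * Real.exp M := by
          apply mul_le_mul_of_nonneg_right _ (Real.exp_pos _).le
          exact pow_le_pow_left₀ (Real.exp_pos _).le (hw n hn) 2
  refine (sum_le_sum h1).trans (le_of_eq ?_)
  rw [sum_const, nsmul_eq_mul, hV]
  field_simp

end Pool.Agent.Q145.GC
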