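import Pool.Agent.Q145.GC.Fin
import Pool.Agent.Q121.GC.Bdd
import Pool.Agent.Q87.GC.Lim

set_option autoImplicit false
set_option maxHeartbeats 4000000

/-! # The covariance is the truncated singular series; the limit is not degenerate -/

namespace Pool.Agent.Q145.GC

open Finset MeasureTheory ProbabilityTheory Filter Topology
open Pool.Agent.Q121.GC (Pr prm primorial_eq cnt sum_zmod_range)
open Pool.Agent.Q87.GC (cov_diag cov_symm cov_stat)

open scoped Classical

/-- truncated singular series -/
noncomputable def sing (w h : ℕ) : ℝ :=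
  ∏ p ∈ (range (w + 1)).filter Nat.Prime, if p ∣ h then (p : ℝ) / (p - 1) else (p : ℝ) * (p - 2) / (p - 1) ^ 2

theorem cnt_card (p k : ℕ) (hp : p.Prime) :
    (((range p).filter (fun a => a % p ≠ 0 ∧ (k + a) % p ≠ 0)).card : ℝ) = if p ∣ k then (p : ℝ) - 1 else (p : ℝ) - 2 := by
  have hp0 := hp.pos
  have hp2 := hp.two_le
  split_ifs with h
  · have h1 : ((range p).filter (fun a => a % p ≠ 0 ∧ (k + a) % p ≠ 0)) = (range p).erase 0 := by
      ext a
      rw [mem_filter, mem_erase, mem_range]
      constructor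
      · rintro ⟨h2, h3, _⟩
        refine ⟨?_, h2⟩
        rintro rfl
        exact h3 (Nat.zero_mod _)
      · rintro ⟨h2, h3⟩
        have h4 : a % p ≠ 0 := by rwa [Nat.mod_eq_of_lt h3]
        refine ⟨h3, h4, ?_⟩
        rwa [Nat.add_mod, Nat.mod_eq_zero_of_dvd h, zero_add, Nat.mod_mod]
    rw [h1, card_erase_of_mem (mem_range.2 hp0), card_range, Nat.cast_sub (by omega), Nat.cast_one]
  · have hk : k % p ≠ 0 := fun h0 => h (Nat.dvd_of_mod_eq_zero h0)
    have hkl : k % p < p := Nat.mod_lt _ hp0
    have h1 : ((range p).filter (fun a => a % p ≠ 0 ∧ (k + a) % p ≠ 0)) = ((range p).erase 0).erase (p - k % p) := by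
      ext a
      rw [mem_filter, mem_erase, mem_erase, mem_range]
      constructor
      · rintro ⟨h2, h3, h4⟩
        refine ⟨?_, ?_, h2⟩
        · intro he
          apply h4
          rw [he, ← Nat.mod_add_mod]
          have : k % p + (p - k % p) = p := by omega
          rw [this, Nat.mod_self]
        · rintro rfl
          exact h3 (Nat.zero_mod _)
      · rintro ⟨h2, h3, h4⟩
        refine ⟨h4, by rwa [Nat.mod_eq_of_lt h4], ?_⟩
        intro h5
        apply h2
        rw [← Nat.mod_add_mod] at h5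
        have h6 := Nat.dvd_of_mod_eq_zero h5
        obtain ⟨c, hc⟩ := h6
        have h7 : 0 < k % p := Nat.pos_of_ne_zero hk
        have h8 : c = 1 := by
          rcases Nat.lt_or_ge c 1 with h9 | h9
          · have : c = 0 := by omega
            subst this
            omega
          rcases Nat.lt_or_ge 1 c with h10 | h10
          · have : p * 2 ≤ p * c := Nat.mul_le_mul_left p h10
            omega
          · omega
        subst h8
        omega
    have h2 : p - k % p ∈ (range p).erase 0 := by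
      rw [mem_erase, mem_range]
      omega
    rw [h1, card_erase_of_mem h2, card_erase_of_mem (mem_range.2 hp0), card_range]
    have : p - 1 - 1 = p - 2 := by omega
    rw [this, Nat.cast_sub (by omega)]
    norm_num

theorem cov_sing (w k : ℕ) : cov (primorial w) 0 (k : ZMod (primorial w)) = sing w k - 1 := by
  have e1 : cov (primorial w) 0 (k : ZMod (primorial w)) =
      bta (primorial w) ^ 2 * (∑ t : ZMod (primorial w), un (0 + t) * un ((k : ZMod (primorial w)) + t)) / (primorial w : ℕ) - 1 := by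
    unfold cov
    ring
  rw [e1, cnt]
  congr 1
  have hpos : ∀ p ∈ Pr w, (1 : ℝ) < p := fun p hp => by exact_mod_cast (prm w p hp).one_lt
  have hb : bta (primorial w) = ∏ p ∈ Pr w, ((p : ℝ) / (p - 1)) := by
    unfold bta
    rw [primorial_eq, Pool.Agent.H373R2.T7.totient_prod (Pr w) (prm w), Finset.prod_div_distrib]
    push_cast
    congr 1
    refine Finset.prod_congr rfl fun p hp => ?_
    rw [Nat.cast_sub (prm w p hp).one_lt.le, Nat.cast_one]
  rw [hb, primorial_eq, ← Finset.prod_pow]
  push_cast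
  rw [← Finset.prod_mul_distrib, ← Finset.prod_div_distrib]
  unfold sing
  apply prod_congr rfl
  intro p hp
  have h3 := hpos p hp
  have h4 : (p : ℝ) - 1 ≠ 0 := by linarith
  have h5 : (p : ℝ) ≠ 0 := by linarith
  have h6 := cnt_card p k (prm w p hp)
  rw [h6]
  split_ifs with h
  · field_simp
  · field_simp

/-- the covariance -/
noncomputable def kernel (w : ℕ) : Matrix (ZMod (primorial w)) (ZMod (primorial w)) ℝ := fun c d => sing w (c - d).val - 1

theorem kernel_eq (w : ℕ) : kernel w = cov (primorial w) := by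
  funext c d
  unfold kernel
  rw [cov_symm, cov_stat, ← cov_sing, ZMod.natCast_zmod_val]

/-- the law of the total mass -/
noncomputable def massLaw (ρ : ℝ) (w : ℕ) : Measure ℝ :=
  (multivariateGaussian (0 : EuclideanSpace ℝ (ZMod (primorial w))) (kernel w)).map
    (fun g => (∑ c, Real.exp (√ρ * g c - ρ * kernel w c c / 2)) / primorial w)

theorem massLaw_eq (ρ : ℝ) (w : ℕ) : massLaw ρ w = chaos ρ (primorial w) := by
  unfold massLaw chaos
  rw [kernel_eq]
  congr 1
  funext g
  unfold mass
  congr 1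
  apply sum_congr rfl
  intro c _
  rw [cov_diag]

theorem vv_sing (ρ : ℝ) (w : ℕ) : (∑ h ∈ range (primorial w), Real.exp (ρ * (sing w h - 1))) / primorial w = vv ρ (primorial w) := by
  unfold vv
  rw [sum_zmod_range]
  congr 1
  apply sum_congr rfl
  intro h _
  rw [cov_sing]

/-! ## The limit is not degenerate -/

theorem exp_int (μ : Measure ℝ) [IsProbabilityMeasure μ] (h0 : μ (Set.Iio 0) = 0) (t : ℝ) (ht : 0 ≤ t) :
    Integrable (fun x => Real.exp (-(t * x))) μ := by
  refine Integrable.of_bound (by fun_prop) 1 ?_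
  have h3 : ∀ᵐ x ∂μ, x ∉ Set.Iio (0 : ℝ) := measure_eq_zero_iff_ae_notMem.1 h0
  filter_upwards [h3] with x hx
  rw [Set.mem_Iio, not_lt] at hx
  rw [Real.norm_eq_abs, abs_of_pos (Real.exp_pos _), Real.exp_le_one_iff]
  have := mul_nonneg ht hx
  linarith

theorem laplace_gt (μ : Measure ℝ) [IsProbabilityMeasure μ] (h0 : μ (Set.Iio 0) = 0) (h1 : Integrable (fun x => x) μ)
    (h2 : ∫ x, x ∂μ = 1) (h3 : ∫ x, x ^ 2 ∂μ ≠ 1) (t : ℝ) (ht : 0 < t) : Real.exp (-t) < ∫ x, Real.exp (-(t * x)) ∂μ := by
  set F : ℝ → ℝ := fun x => Real.exp (-(t * x)) - Real.exp (-t) * (1 - t * (x - 1)) with hF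
  have hF1 : ∀ x, Real.exp (-(t * x)) = Real.exp (-t) * Real.exp (-(t * (x - 1))) := by
    intro x
    rw [← Real.exp_add]
    congr 1
    ring
  have hF0 : ∀ x, 0 ≤ F x := by
    intro x
    rw [hF]
    simp only
    rw [hF1, ← mul_sub]
    apply mul_nonneg (Real.exp_pos _).le
    have := Real.add_one_le_exp (-(t * (x - 1)))
    linarith
  have hi1 := exp_int μ h0 t ht.le
  have hi2 : Integrable (fun x => Real.exp (-t) * (1 - t * (x - 1))) μ :=
    ((integrable_const _).sub ((h1.sub (integrable_const _)).const_mul t)).const_mul _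
  have hiF : Integrable F μ := hi1.sub hi2
  have hI : ∫ x, F x ∂μ = ∫ x, Real.exp (-(t * x)) ∂μ - Real.exp (-t) := by
    rw [hF]
    have j1 : Integrable (fun x : ℝ => x - 1) μ := h1.sub (integrable_const _)
    have j2 : Integrable (fun x : ℝ => t * (x - 1)) μ := j1.const_mul t
    rw [integral_sub hi1 hi2, integral_const_mul, integral_sub (integrable_const _) j2,
      integral_const_mul, integral_sub h1 (integrable_const _), h2]
    simp
  by_contra hc
  rw [not_lt] at hc
  have hI0 : ∫ x, F x ∂μ = 0 := le_antisymm (by rw [hI]; linarith) (integral_nonneg hF0)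
  have h4 : F =ᵐ[μ] 0 := (integral_eq_zero_iff_of_nonneg hF0 hiF).1 hI0
  have h5 : ∀ᵐ x ∂μ, x = 1 := by
    filter_upwards [h4] with x hx
    by_contra hx1
    have h6 : -(t * (x - 1)) ≠ 0 := by
      rw [neg_ne_zero]
      exact mul_ne_zero ht.ne' (sub_ne_zero.2 hx1)
    have h7 := Real.add_one_lt_exp h6
    have h8 : F x = Real.exp (-t) * (Real.exp (-(t * (x - 1))) - (1 - t * (x - 1))) := by
      rw [hF]
      simp only
      rw [hF1]
      ring
    rw [h8] at hx
    simp only [Pi.zero_apply, mul_eq_zero] at hx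
    rcases hx with hx | hx
    · exact (Real.exp_pos _).ne' hx
    · linarith
  apply h3
  have h6 : ∫ x, x ^ 2 ∂μ = ∫ _x, (1 : ℝ) ∂μ := by
    apply integral_congr_ae
    filter_upwards [h5] with x hx
    rw [hx]
    norm_num
  rw [h6]
  simp

theorem laplace_ne (μ : Measure ℝ) [IsProbabilityMeasure μ] (h0 : μ (Set.Iio 0) = 0)
    (h2 : ∫ x, x ∂μ = 1) (h3 : ∫ x, x ^ 2 ∂μ ≠ 1) (c : ℝ) : ∃ t : ℝ, 0 < t ∧ ∫ x, Real.exp (-(t * x)) ∂μ ≠ Real.exp (-(t * c)) := by
  by_contra hcon
  push Not at hcon
  set G : ℝ → ℝ := fun x => (Real.exp (-(1 * x)) - Real.exp (-(1 * c))) ^ 2 with hG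
  have e : ∀ x, G x = Real.exp (-(2 * x)) - 2 * Real.exp (-(1 * c)) * Real.exp (-(1 * x)) + Real.exp (-(2 * c)) := by
    intro x
    rw [hG]
    simp only
    have e1 : Real.exp (-(2 * x)) = Real.exp (-(1 * x)) ^ 2 := by
      rw [← Real.exp_nat_mul]
      congr 1
      push_cast
      ring
    have e2 : Real.exp (-(2 * c)) = Real.exp (-(1 * c)) ^ 2 := by
      rw [← Real.exp_nat_mul]
      congr 1
      push_cast
      ring
    rw [e1, e2]
    ring
  have i1 := exp_int μ h0 1 (by norm_num)
  have i2 := exp_int μ h0 2 (by norm_num)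
  have hiG : Integrable G μ := by
    have : G = fun x => Real.exp (-(2 * x)) - 2 * Real.exp (-(1 * c)) * Real.exp (-(1 * x)) + Real.exp (-(2 * c)) := funext e
    rw [this]
    exact (i2.sub (i1.const_mul _)).add (integrable_const _)
  have hI0 : ∫ x, G x ∂μ = 0 := by
    simp_rw [e]
    have j1 : Integrable (fun x => Real.exp (-(2 * x)) - 2 * Real.exp (-(1 * c)) * Real.exp (-(1 * x))) μ := i2.sub (i1.const_mul _)
    rw [integral_add j1 (integrable_const _), integral_sub i2 (i1.const_mul _),
      integral_const_mul, hcon 1 one_pos, hcon 2 two_pos]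
    have e2 : Real.exp (-(2 * c)) = Real.exp (-(1 * c)) ^ 2 := by
      rw [← Real.exp_nat_mul]
      congr 1
      push_cast
      ring
    rw [e2]
    simp
    ring
  have h4 : G =ᵐ[μ] 0 := (integral_eq_zero_iff_of_nonneg (fun x => sq_nonneg _) hiG).1 hI0
  have h5 : ∀ᵐ x ∂μ, x = c := by
    filter_upwards [h4] with x hx
    rw [hG] at hx
    simp only [Pi.zero_apply, ne_eq, OfNat.ofNat_ne_zero, not_false_eq_true, pow_eq_zero_iff, sub_eq_zero] at hx
    have := Real.exp_injective hx
    linarith
  have h6 : ∫ x, x ∂μ = ∫ _x, c ∂μ := by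
    apply integral_congr_ae
    filter_upwards [h5] with x hx
    rw [hx]
  have h7 : ∫ x, x ^ 2 ∂μ = ∫ _x, c ^ 2 ∂μ := by
    apply integral_congr_ae
    filter_upwards [h5] with x hx
    rw [hx]
  rw [h2] at h6
  simp only [integral_const, probReal_univ, smul_eq_mul, one_mul] at h6 h7
  apply h3
  rw [h7, ← h6]
  norm_num

end Pool.Agent.Q145.GC
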