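import Pool.Agent.Q145.GC.Spec

set_option autoImplicit false

/-!
# Project GC: the process of the waiting times
-/

namespace Pool.Agent.Q145.GC

open Finset MeasureTheory ProbabilityTheory Filter Topology

open scoped Classical

/-- The number of the `n ∈ V` without a prime among `n + a_i`, `i < m` (the first `m` shifts). -/
noncomputable def mis (V : Finset ℕ) {K : ℕ} (a : Fin K → ℕ) (m : ℕ) : ℕ :=
  (V.filter (fun n => ∀ i : Fin K, (i : ℕ) < m → ¬ (n + a i).Prime)).card

/-- The proportion of the sequences of `K` shifts from `[1, Y]` for which exactly `b l` of the `n ∈ V`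
are missed by the first `k l` shifts, for all `l`. -/
noncomputable def joint (V : Finset ℕ) (Y K : ℕ) {r : ℕ} (k b : Fin r → ℕ) : ℝ :=
  (((Fintype.piFinset (fun _ : Fin K => Icc 1 Y)).filter (fun a => ∀ l, mis V a (k l) = b l)).card : ℝ) / (Y : ℝ) ^ K

/-- The binomial distribution. -/
noncomputable def bino (n m : ℕ) (q : ℝ) : ℝ := (n.choose m : ℝ) * q ^ m * (1 - q) ^ (n - m)

/-- the mean number of the missed points of a random set of `X` points of `[1, Y]` -/
noncomputable def mean (X Y k : ℕ) : ℝ := (X : ℝ) * ((∑ n ∈ Icc 1 Y, (1 - th Y n) ^ k) / Y)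

/-- P: the missed points disappear independently -/
def S_Proc : Prop := ∀ (r : ℕ) (lam : Fin (r + 1) → ℝ) (X Y K : ℕ → ℕ) (k : ℕ → Fin (r + 1) → ℕ),
  Tendsto X atTop atTop → (∀ i, X i ≤ Y i) → (∀ i, Monotone (k i)) → (∀ i l, k i l ≤ K i) → (∀ l, 0 < lam l) →
  (∀ l, Tendsto (fun i => mean (X i) (Y i) (k i l)) atTop (𝓝 (lam l))) →
  ∀ (b : Fin (r + 1) → ℕ) (ε : ℝ), 0 < ε → ∀ᶠ i in atTop, ∀ V ∈ powersetCard (X i) (Icc 1 (Y i)),
  |joint V (Y i) (K i) (k i) b - joint V (Y i) (K i) (fun _ : Fin 1 => k i 0) (fun _ => b 0) *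
    ∏ l : Fin r, bino (b l.castSucc) (b l.succ) (lam l.succ / lam l.castSucc)| ≤ ε

end Pool.Agent.Q145.GC
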