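import Pool.Agent.Q145.GC.Spec2
import Pool.Agent.Q145.GC.Eng

set_option autoImplicit false

/-!
# Project GC: random subsets, parameters, sums over all pairs
-/

namespace Pool.Agent.Q145.GC

open Finset MeasureTheory ProbabilityTheory Filter Topology

open scoped Classical

/-- class of a shift modulo `W` -/
def ta (W : ℕ) (s : ℕ) : ZMod W := (s : ZMod W)

/-- the relation `n + s` prime -/
def Rp (n s : ℕ) : Prop := (n + s).Prime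

/-- R1: mean over the subsets with `X` elements -/
def S_Sub1 : Prop := ∀ (U : Finset ℕ) (X a : ℕ) (F : Finset ℕ → ℝ), X ≤ U.card → (∀ A, 0 ≤ F A) →
  (∑ V ∈ powersetCard X U, ∑ A ∈ powersetCard a V, F A) * (U.card : ℝ) ^ a ≤
    (U.card.choose X : ℝ) * (X : ℝ) ^ a * ∑ A ∈ powersetCard a U, F A

/-- R2: variance of a sum over a random subset -/
def S_Sub2 : Prop := ∀ (U : Finset ℕ) (X : ℕ) (g : ℕ → ℝ), X ≤ U.card →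
  ∑ V ∈ powersetCard X U, (∑ n ∈ V, g n - (X : ℝ) / U.card * ∑ n ∈ U, g n) ^ 2 ≤
    (U.card.choose X : ℝ) * ((X : ℝ) / U.card * ∑ n ∈ U, g n ^ 2)

/-- the sequences of parameters -/
structure Par (ρ lam : ℝ) (X Y k : ℕ → ℕ) : Prop where
  top : Tendsto X atTop atTop
  le : ∀ i, X i ≤ Y i
  ratio : Tendsto (fun i => Real.log (X i) / Real.log (Y i)) atTop (𝓝 ρ)
  mn : Tendsto (fun i => mean (X i) (Y i) (k i)) atTop (𝓝 lam)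

/-- Q1: the size of `k` and of the single terms -/
def S_Par : Prop := ∀ (ρ lam : ℝ) (X Y k : ℕ → ℕ), 0 ≤ ρ → 0 < lam → Par ρ lam X Y k →
  Tendsto (fun i => (k i : ℝ) / Real.log (Y i) ^ 2) atTop (𝓝 ρ) ∧ Tendsto k atTop atTop ∧
  ∃ C : ℝ, 1 ≤ C ∧ ∀ᶠ i in atTop, ∀ n ∈ Icc 1 (Y i),
    Real.exp (-(k i * th (Y i) n)) ≤ C / X i ∧ (1 - th (Y i) n) ^ (k i) ≤ C / X i

/-- Q2: the sums over the classes -/
def S_Cls : Prop := ∀ (W : ℕ) [NeZero W] (ρ lam : ℝ) (X Y k : ℕ → ℕ), 0 ≤ ρ → 0 < lam → Par ρ lam X Y k →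
  ∀ c : ZMod W, Tendsto (fun i => (X i : ℝ) / Y i * ∑ n ∈ (Icc 1 (Y i)).filter (fun n : ℕ => (n : ZMod W) = c),
    (1 - th (Y i) n) ^ (k i)) atTop (𝓝 (lam / W))

/-- U1: exponential moments over all pairs; the constant does not depend on `w` -/
def S_Uex : Prop := ∀ B : ℝ, 0 < B → ∃ C : ℝ, ∀ w : ℕ, ∃ Y₀ : ℕ, ∀ Y : ℕ, Y₀ ≤ Y → ∀ K : ℕ, (K : ℝ) ≤ 2 * Real.log Y ^ 2 →
  ∑ A ∈ powersetCard 2 (Icc 1 Y), Real.exp (B * (K * c2 (Icc 1 Y) (ta (primorial w)) Rp A)) ≤ C * (Y : ℝ) ^ 2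

/-- U2: discrepancies over all pairs -/
def S_Utwo : Prop := ∀ η : ℝ, 0 < η → ∃ w₀ : ℕ, ∀ w : ℕ, w₀ ≤ w → ∃ Y₀ : ℕ, ∀ Y : ℕ, Y₀ ≤ Y → ∀ K : ℕ,
  (K : ℝ) ≤ 2 * Real.log Y ^ 2 → ∑ A ∈ powersetCard 2 (Icc 1 Y), K * d2 (Icc 1 Y) (ta (primorial w)) Rp A ≤ η * (Y : ℝ) ^ 2

/-- U3: triples -/
def S_Uthr : Prop := ∀ (η : ℝ) (W : ℕ) [NeZero W], 0 < η → ∃ Y₀ : ℕ, ∀ Y : ℕ, Y₀ ≤ Y → ∀ K : ℕ,
  (K : ℝ) ≤ 2 * Real.log Y ^ 2 → ∑ A ∈ powersetCard 3 (Icc 1 Y), K * c2 (Icc 1 Y) (ta W) Rp A ≤ η * (Y : ℝ) ^ 3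

/-- U4: the classes of the shifts, and the densities in the classes -/
def S_Qd : Prop := ∀ (W Y : ℕ) [NeZero W], 1 ≤ Y → (∀ t : ZMod W, |qd (Icc 1 Y) (ta W) t - 1 / W| ≤ 1 / Y) ∧
  (∀ (n : ℕ) (t : ZMod W), ud (Icc 1 Y) (ta W) Rp n t = dn Y W t (fun s => (n + s).Prime)) ∧
  (∀ (n m : ℕ) (t : ZMod W), n ≠ m → jn (Icc 1 Y) (ta W) Rp {n, m} t =
    qd (Icc 1 Y) (ta W) t * dn Y W t (fun s => (n + s).Prime ∧ (m + s).Prime)) ∧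
  (∀ (n m : ℕ) (t : ZMod W), n ≠ m → jp (Icc 1 Y) (ta W) Rp {n, m} t =
    qd (Icc 1 Y) (ta W) t * (dn Y W t (fun s => (n + s).Prime) * dn Y W t (fun s => (m + s).Prime)))

end Pool.Agent.Q145.GC
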